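import Mathlib

/-!
# The tail of a sum over pairs of points on the line
-/

open Finset Filter Topology MeasureTheory

namespace Pool.Agent.H34.DR

/-- the number of pairs in the same cell -/
noncomputable def sameCell (X : Finset ℕ) (c : ℕ → ℤ) : ℕ := ((X ×ˢ X).filter (fun z => c z.1 = c z.2)).card

/-- the number of points in a cell -/
noncomputable def inCell (X : Finset ℕ) (c : ℕ → ℤ) (a : ℤ) : ℕ := (X.filter (fun n => c n = a)).card

theorem fiber_card (X : Finset ℕ) (c : ℕ → ℤ) (d : ℤ) :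
    ((X ×ˢ X).filter (fun z => c z.1 - c z.2 = d)).card =
      ∑ a ∈ X.image c, inCell X c a * inCell X c (a - d) := by
  classical
  have h1 : ((X ×ˢ X).filter (fun z => c z.1 - c z.2 = d)).card =
      ∑ a ∈ X.image c, (((X ×ˢ X).filter (fun z => c z.1 - c z.2 = d)).filter (fun z => c z.1 = a)).card := by
    apply card_eq_sum_card_fiberwise
    intro z hz
    have hz' := mem_coe.mp hz
    rw [mem_filter, mem_product] at hz'
    exact mem_coe.mpr (mem_image_of_mem c hz'.1.1)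
  rw [h1]
  apply sum_congr rfl
  intro a _
  unfold inCell
  rw [← card_product]
  congr 1
  ext z
  simp only [mem_filter, mem_product]
  constructor
  · rintro ⟨⟨⟨h2, h3⟩, h4⟩, h5⟩
    exact ⟨⟨h2, h5⟩, h3, by omega⟩
  · rintro ⟨⟨h2, h5⟩, h3, h4⟩
    exact ⟨⟨⟨h2, h3⟩, by omega⟩, h5⟩

theorem fiber_le (X : Finset ℕ) (c : ℕ → ℤ) (d : ℤ) :
    ((X ×ˢ X).filter (fun z => c z.1 - c z.2 = d)).card ≤ sameCell X c := by
  classical
  have h0 : sameCell X c = ∑ a ∈ X.image c, inCell X c a * inCell X c a := by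
    have := fiber_card X c 0
    simp only [sub_eq_zero, sub_zero] at this
    exact this
  rw [fiber_card, h0]
  have h1 : ∀ a, 2 * (inCell X c a * inCell X c (a - d)) ≤
      inCell X c a * inCell X c a + inCell X c (a - d) * inCell X c (a - d) := by
    intro a
    rcases le_total (inCell X c a) (inCell X c (a - d)) with h | h
    · obtain ⟨k, hk⟩ := Nat.exists_eq_add_of_le h
      rw [hk]
      nlinarith
    · obtain ⟨k, hk⟩ := Nat.exists_eq_add_of_le h
      rw [hk]
      nlinarith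
  have h2 : ∑ a ∈ X.image c, inCell X c (a - d) * inCell X c (a - d) ≤
      ∑ a ∈ X.image c, inCell X c a * inCell X c a := by
    have h3 : ∑ a ∈ X.image c, inCell X c (a - d) * inCell X c (a - d) =
        ∑ a ∈ (X.image c).image (fun a => a - d), inCell X c a * inCell X c a := by
      rw [sum_image (s := X.image c) (g := fun a => a - d) (by
        intro x _ y _ hxy
        simpa using hxy)]
    rw [h3]
    have h4 : ∑ a ∈ (X.image c).image (fun a => a - d), inCell X c a * inCell X c a =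
        ∑ a ∈ ((X.image c).image (fun a => a - d)).filter (fun a => a ∈ X.image c),
          inCell X c a * inCell X c a := by
      rw [sum_filter]
      apply sum_congr rfl
      intro a _
      split_ifs with h5
      · rfl
      · have : inCell X c a = 0 := by
          unfold inCell
          rw [card_eq_zero, filter_eq_empty_iff]
          intro n hn h6
          exact h5 (h6 ▸ mem_image_of_mem c hn)
        rw [this, mul_zero]
    rw [h4]
    apply sum_le_sum_of_subset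
    intro a ha
    exact (mem_filter.mp ha).2
  have h5 : 2 * ∑ a ∈ X.image c, inCell X c a * inCell X c (a - d) ≤
      ∑ a ∈ X.image c, inCell X c a * inCell X c a +
        ∑ a ∈ X.image c, inCell X c (a - d) * inCell X c (a - d) := by
    rw [mul_sum, ← sum_add_distrib]
    exact sum_le_sum fun a _ => h1 a
  omega

/-- the weight of a difference of cells -/
noncomputable def GW (N : ℕ) (d : ℤ) : ℝ := if N + 1 ≤ |d| then 1 / (|d| - 1 : ℝ) ^ 2 else 0

theorem GW_nonneg (N : ℕ) (d : ℤ) : 0 ≤ GW N d := by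
  unfold GW
  split_ifs <;> positivity

/-- partial sums of the tail of the inverse squares -/
theorem sum_inv_sq (N : ℕ) (hN : 1 ≤ N) (K : ℕ) :
    ∑ j ∈ range K, 1 / ((N : ℝ) + j) ^ 2 ≤ (2 : ℝ) / N := by
  have hN' : (1 : ℝ) ≤ N := by exact_mod_cast hN
  have key : ∀ K : ℕ, ∑ j ∈ range K, 1 / ((N : ℝ) + j) ^ 2 ≤
      1 / ((N : ℝ) - 1 / 2) - 1 / ((N : ℝ) + K - 1 / 2) := by
    intro K
    induction K with
    | zero => simp
    | succ K ih =>
      rw [sum_range_succ]
      have hK : (0 : ℝ) ≤ K := Nat.cast_nonneg K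
      have h1 : (0 : ℝ) < (N : ℝ) + K - 1 / 2 := by linarith
      have h2 : (0 : ℝ) < (N : ℝ) + K + 1 / 2 := by linarith
      have h3 : 1 / ((N : ℝ) + K) ^ 2 ≤ 1 / ((N : ℝ) + K - 1 / 2) - 1 / ((N : ℝ) + K + 1 / 2) := by
        rw [div_sub_div _ _ h1.ne' h2.ne', div_le_div_iff₀ (by positivity) (by positivity)]
        nlinarith
      have h4 : (N : ℝ) + (K + 1 : ℕ) - 1 / 2 = (N : ℝ) + K + 1 / 2 := by
        push_cast
        ring
      rw [h4]
      linarith
  refine (key K).trans ?_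
  have hK : (0 : ℝ) ≤ K := Nat.cast_nonneg K
  have h1 : (0 : ℝ) < (N : ℝ) + K - 1 / 2 := by linarith
  have h2 : 0 < 1 / ((N : ℝ) + K - 1 / 2) := by positivity
  have h3 : 1 / ((N : ℝ) - 1 / 2) ≤ 2 / N := by
    rw [div_le_div_iff₀ (by linarith) (by linarith)]
    linarith
  linarith

theorem sum_GW (N : ℕ) (hN : 1 ≤ N) (A : Finset ℤ) : ∑ d ∈ A, GW N d ≤ (4 : ℝ) / N := by
  classical
  have hN' : (1 : ℝ) ≤ N := by exact_mod_cast hN
  -- the positive part
  have pos : ∀ B : Finset ℤ, (∀ d ∈ B, 0 ≤ d) → ∑ d ∈ B, GW N d ≤ 2 / N := by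
    intro B hB
    obtain ⟨K, hK⟩ : ∃ K : ℕ, ∀ d ∈ B, d < (N : ℤ) + 1 + K := by
      refine ⟨B.sup Int.toNat, fun d hd => ?_⟩
      have h1 : d.toNat ≤ B.sup Int.toNat := le_sup (f := Int.toNat) hd
      have h2 := Int.self_le_toNat d
      omega
    have h1 : ∑ d ∈ B, GW N d = ∑ d ∈ B.filter (fun d => (N : ℤ) + 1 ≤ d), 1 / ((d : ℝ) - 1) ^ 2 := by
      rw [sum_filter]
      apply sum_congr rfl
      intro d hd
      unfold GW
      rw [abs_of_nonneg (hB d hd)]
    rw [h1]
    refine le_trans ?_ (sum_inv_sq N hN K)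
    have h2 : ∑ j ∈ range K, 1 / ((N : ℝ) + j) ^ 2 =
        ∑ d ∈ (range K).image (fun j : ℕ => ((N : ℤ) + 1 + j)), 1 / ((d : ℝ) - 1) ^ 2 := by
      rw [sum_image]
      · apply sum_congr rfl
        intro j _
        push_cast
        congr 2
        ring
      · intro x _ y _ hxy
        simpa using hxy
    rw [h2]
    apply sum_le_sum_of_subset_of_nonneg
    · intro d hd
      rw [mem_filter] at hd
      rw [mem_image]
      refine ⟨(d - (N + 1)).toNat, ?_, ?_⟩
      · rw [mem_range]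
        have := hK d hd.1
        omega
      · have := hd.2
        omega
    · intro d _ _
      positivity
  have h1 : ∑ d ∈ A, GW N d = ∑ d ∈ A.filter (fun d => 0 ≤ d), GW N d +
      ∑ d ∈ A.filter (fun d => ¬ 0 ≤ d), GW N d := (sum_filter_add_sum_filter_not _ _ _).symm
  have h2 : ∑ d ∈ A.filter (fun d => ¬ 0 ≤ d), GW N d =
      ∑ d ∈ (A.filter (fun d => ¬ 0 ≤ d)).image (fun d => -d), GW N d := by
    rw [sum_image (by intro x _ y _ hxy; simpa using hxy)]
    apply sum_congr rfl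
    intro d _
    unfold GW
    rw [abs_neg]
  have h3 := pos (A.filter (fun d => 0 ≤ d)) (fun d hd => (mem_filter.mp hd).2)
  have h4 := pos ((A.filter (fun d => ¬ 0 ≤ d)).image (fun d => -d)) (by
    intro d hd
    obtain ⟨e, he, rfl⟩ := mem_image.mp hd
    have := (mem_filter.mp he).2
    omega)
  rw [h1, h2]
  have : 2 / (N : ℝ) + 2 / N = 4 / N := by ring
  linarith

theorem sum_pairs_GW (X : Finset ℕ) (c : ℕ → ℤ) (N : ℕ) (hN : 1 ≤ N) :
    ∑ z ∈ X ×ˢ X, GW N (c z.1 - c z.2) ≤ (sameCell X c : ℝ) * (4 / N) := by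
  classical
  have h1 : ∑ z ∈ X ×ˢ X, GW N (c z.1 - c z.2) =
      ∑ d ∈ (X ×ˢ X).image (fun z => c z.1 - c z.2),
        ∑ z ∈ (X ×ˢ X).filter (fun z => c z.1 - c z.2 = d), GW N (c z.1 - c z.2) := by
    symm
    apply sum_fiberwise_of_maps_to
    intro z hz
    exact mem_image_of_mem _ hz
  rw [h1]
  calc ∑ d ∈ (X ×ˢ X).image (fun z => c z.1 - c z.2),
        ∑ z ∈ (X ×ˢ X).filter (fun z => c z.1 - c z.2 = d), GW N (c z.1 - c z.2)
      ≤ ∑ d ∈ (X ×ˢ X).image (fun z => c z.1 - c z.2), (sameCell X c : ℝ) * GW N d := by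
        apply sum_le_sum
        intro d _
        have h2 : ∑ z ∈ (X ×ˢ X).filter (fun z => c z.1 - c z.2 = d), GW N (c z.1 - c z.2) =
            ∑ z ∈ (X ×ˢ X).filter (fun z => c z.1 - c z.2 = d), GW N d := by
          apply sum_congr rfl
          intro z hz
          rw [(mem_filter.mp hz).2]
        rw [h2, sum_const, nsmul_eq_mul]
        apply mul_le_mul_of_nonneg_right _ (GW_nonneg N d)
        exact_mod_cast fiber_le X c d
    _ = (sameCell X c : ℝ) * ∑ d ∈ (X ×ˢ X).image (fun z => c z.1 - c z.2), GW N d := by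
        rw [mul_sum]
    _ ≤ _ := mul_le_mul_of_nonneg_left (sum_GW N hN _) (Nat.cast_nonneg _)

theorem same_le (X : Finset ℕ) (y : ℕ → ℝ) : ((sameCell X (fun n => ⌊y n⌋) : ℕ) : ℝ) ≤
    (X.card : ℝ) + ((X.offDiag.filter (fun z => y z.1 - y z.2 ∈ Set.Icc (-1) 1)).card : ℝ) := by
  classical
  have h2 : (X ×ˢ X).filter (fun z => ⌊y z.1⌋ = ⌊y z.2⌋) ⊆
      X.diag ∪ X.offDiag.filter (fun z => y z.1 - y z.2 ∈ Set.Icc (-1) 1) := by
    intro z hz
    rw [mem_filter, mem_product] at hz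
    obtain ⟨⟨h3, h4⟩, h5⟩ := hz
    rw [mem_union, mem_diag, mem_filter, mem_offDiag]
    by_cases h6 : z.1 = z.2
    · exact Or.inl ⟨h3, h6⟩
    · refine Or.inr ⟨⟨h3, h4, h6⟩, ?_⟩
      have a1 := Int.floor_le (y z.1)
      have a2 := Int.lt_floor_add_one (y z.1)
      have b1 := Int.floor_le (y z.2)
      have b2 := Int.lt_floor_add_one (y z.2)
      rw [h5] at a1 a2
      constructor <;> linarith
  have h3 := (card_le_card h2).trans (card_union_le _ _)
  rw [diag_card] at h3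
  unfold sameCell
  rw [← Nat.cast_add]
  exact Nat.cast_le.mpr h3

/-- the number of pairs at distance at most `N` -/
theorem near_count (X : Finset ℕ) (y : ℕ → ℝ) (N : ℕ) :
    ((((X ×ˢ X).filter (fun z => |y z.1 - y z.2| ≤ N)).card : ℕ) : ℝ) ≤
      (2 * N + 3) * ((X.card : ℝ) +
        ((X.offDiag.filter (fun z => y z.1 - y z.2 ∈ Set.Icc (-1) 1)).card : ℝ)) := by
  classical
  have h1 : (X ×ˢ X).filter (fun z => |y z.1 - y z.2| ≤ N) ⊆
      (Finset.Icc (-(N + 1) : ℤ) (N + 1)).biUnion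
        (fun d => (X ×ˢ X).filter (fun z => ⌊y z.1⌋ - ⌊y z.2⌋ = d)) := by
    intro z hz
    rw [mem_filter] at hz
    obtain ⟨h2, h3⟩ := hz
    rw [mem_biUnion]
    refine ⟨⌊y z.1⌋ - ⌊y z.2⌋, ?_, mem_filter.mpr ⟨h2, rfl⟩⟩
    have a1 := Int.floor_le (y z.1)
    have a2 := Int.lt_floor_add_one (y z.1)
    have b1 := Int.floor_le (y z.2)
    have b2 := Int.lt_floor_add_one (y z.2)
    have h4 := abs_le.mp h3
    rw [mem_Icc]
    constructor
    · have : ((-(N + 1) - 1 : ℤ) : ℝ) < ((⌊y z.1⌋ - ⌊y z.2⌋ : ℤ) : ℝ) := by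
        push_cast
        linarith
      have := Int.cast_lt.mp this
      omega
    · have : ((⌊y z.1⌋ - ⌊y z.2⌋ : ℤ) : ℝ) < ((N + 1 + 1 : ℤ) : ℝ) := by
        push_cast
        linarith
      have := Int.cast_lt.mp this
      omega
  have h2 : ((X ×ˢ X).filter (fun z => |y z.1 - y z.2| ≤ N)).card ≤
      (2 * N + 3) * sameCell X (fun n => ⌊y n⌋) := by
    refine (card_le_card h1).trans (card_biUnion_le.trans ?_)
    refine (sum_le_sum (fun d _ => fiber_le X (fun n => ⌊y n⌋) d)).trans ?_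
    rw [sum_const, smul_eq_mul, Int.card_Icc]
    apply Nat.mul_le_mul_right
    omega
  have h3 : ((((X ×ˢ X).filter (fun z => |y z.1 - y z.2| ≤ N)).card : ℕ) : ℝ) ≤
      (2 * N + 3) * ((sameCell X (fun n => ⌊y n⌋) : ℕ) : ℝ) := by
    have := (Nat.cast_le (α := ℝ)).mpr h2
    push_cast at this
    exact this
  exact h3.trans (mul_le_mul_of_nonneg_left (same_le X y) (by positivity))

/-- the tail of the sum of the inverse squares of the differences -/
theorem tail_le (X : Finset ℕ) (y : ℕ → ℝ) (N : ℕ) (hN : 1 ≤ N) :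
    ∑ z ∈ X.offDiag.filter (fun z => (N : ℝ) + 2 < |y z.1 - y z.2|), 1 / (y z.1 - y z.2) ^ 2 ≤
      ((X.card : ℝ) + ((X.offDiag.filter (fun z => y z.1 - y z.2 ∈ Set.Icc (-1) 1)).card : ℝ)) *
        (4 / N) := by
  classical
  have hN' : (1 : ℝ) ≤ N := by exact_mod_cast hN
  have h1 : ∑ z ∈ X.offDiag.filter (fun z => (N : ℝ) + 2 < |y z.1 - y z.2|), 1 / (y z.1 - y z.2) ^ 2 ≤
      ∑ z ∈ X ×ˢ X, GW N (⌊y z.1⌋ - ⌊y z.2⌋) := by
    refine le_trans (sum_le_sum (g := fun z => GW N (⌊y z.1⌋ - ⌊y z.2⌋)) ?_) ?_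
    · intro z hz
      have h2 := (mem_filter.mp hz).2
      have a1 := Int.floor_le (y z.1)
      have a2 := Int.lt_floor_add_one (y z.1)
      have b1 := Int.floor_le (y z.2)
      have b2 := Int.lt_floor_add_one (y z.2)
      have h3 : |((⌊y z.1⌋ - ⌊y z.2⌋ : ℤ) : ℝ) - (y z.1 - y z.2)| < 1 := by
        push_cast
        rw [abs_lt]
        constructor <;> linarith
      have h4 : |y z.1 - y z.2| - 1 < |((⌊y z.1⌋ - ⌊y z.2⌋ : ℤ) : ℝ)| := by
        have h5 := abs_sub_abs_le_abs_sub (y z.1 - y z.2) (((⌊y z.1⌋ - ⌊y z.2⌋ : ℤ) : ℝ))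
        rw [abs_sub_comm (y z.1 - y z.2)] at h5
        linarith
      have h4' : |((⌊y z.1⌋ - ⌊y z.2⌋ : ℤ) : ℝ)| - 1 < |y z.1 - y z.2| := by
        have h5 := abs_sub_abs_le_abs_sub (((⌊y z.1⌋ - ⌊y z.2⌋ : ℤ) : ℝ)) (y z.1 - y z.2)
        linarith
      have h6 : (N : ℤ) + 1 ≤ |⌊y z.1⌋ - ⌊y z.2⌋| := by
        have : (N : ℝ) + 1 < |((⌊y z.1⌋ - ⌊y z.2⌋ : ℤ) : ℝ)| := by linarith
        rw [← Int.cast_abs] at this
        have h7 : (((N : ℤ) + 1 : ℤ) : ℝ) < ((|⌊y z.1⌋ - ⌊y z.2⌋| : ℤ) : ℝ) := by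
          push_cast
          push_cast at this
          exact this
        exact (Int.cast_lt.mp h7).le
      unfold GW
      rw [if_pos h6]
      rw [← sq_abs (y z.1 - y z.2)]
      rw [Int.cast_abs]
      apply one_div_le_one_div_of_le
      · have : (0 : ℝ) < |((⌊y z.1⌋ - ⌊y z.2⌋ : ℤ) : ℝ)| - 1 := by linarith
        positivity
      · apply pow_le_pow_left₀
        · linarith
        · exact h4'.le
    · apply sum_le_sum_of_subset_of_nonneg
      · intro z hz
        have := (mem_filter.mp hz).1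
        rw [mem_offDiag] at this
        exact mem_product.mpr ⟨this.1, this.2.1⟩
      · intro z _ _
        exact GW_nonneg _ _
  refine h1.trans ((sum_pairs_GW X (fun n => ⌊y n⌋) N hN).trans ?_)
  apply mul_le_mul_of_nonneg_right _ (by positivity)
  have h2 : (X ×ˢ X).filter (fun z => ⌊y z.1⌋ = ⌊y z.2⌋) ⊆
      X.diag ∪ X.offDiag.filter (fun z => y z.1 - y z.2 ∈ Set.Icc (-1) 1) := by
    intro z hz
    rw [mem_filter, mem_product] at hz
    obtain ⟨⟨h3, h4⟩, h5⟩ := hz
    rw [mem_union, mem_diag, mem_filter, mem_offDiag]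
    by_cases h6 : z.1 = z.2
    · exact Or.inl ⟨h3, h6⟩
    · refine Or.inr ⟨⟨h3, h4, h6⟩, ?_⟩
      have a1 := Int.floor_le (y z.1)
      have a2 := Int.lt_floor_add_one (y z.1)
      have b1 := Int.floor_le (y z.2)
      have b2 := Int.lt_floor_add_one (y z.2)
      rw [h5] at a1 a2
      constructor <;> linarith
  have h3 := (card_le_card h2).trans (card_union_le _ _)
  rw [diag_card] at h3
  unfold sameCell
  rw [← Nat.cast_add]
  exact Nat.cast_le.mpr h3

end Pool.Agent.H34.DR
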