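import Pool.Agent.H34.DR.Zeros
import Pool.Agent.H34.DR.Tail
import Pool.Agent.H19.HL.RvM

/-!
# Montgomery's theorem for the zeros up to a height
-/

open Filter Topology MeasureTheory Set

namespace Pool.Agent.H34.DR

open SG (ord NZ)
open Pool.Agent.TH873.EW (ct XV)
open Pool.Agent.Y747 (Bx mem_Bx blk_pair)

theorem MM_pos {V : ℝ} (hV : 10 ≤ V) : 0 < MM V := by
  unfold MM
  have := Real.log_pos (show 1 < V by linarith)
  have := Real.pi_pos
  positivity

theorem XV_le_MM {V : ℝ} (hV : 10 ≤ V) : XV V ≤ MM V := by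
  unfold XV MM
  have h1 := Real.log_pos (show 1 < V by linarith)
  have h2 := Real.pi_pos
  rw [div_mul_eq_mul_div]
  apply div_le_div_of_nonneg_right _ (by positivity)
  nlinarith

theorem MM_double {V : ℝ} (hV : 10 ≤ V) : 2 * MM V ≤ MM (2 * V) := by
  unfold MM
  have h1 : Real.log V ≤ Real.log (2 * V) := Real.log_le_log (by linarith) (by linarith)
  have h2 := Real.pi_pos
  have h3 : 2 * (V / (2 * Real.pi) * Real.log V) = 2 * V / (2 * Real.pi) * Real.log V := by ring
  rw [h3]
  exact mul_le_mul_of_nonneg_left h1 (by positivity)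

theorem MM_tendsto : Tendsto MM atTop atTop := by
  unfold MM
  apply Tendsto.atTop_mul_atTop₀
  · exact tendsto_id.atTop_div_const (by have := Real.pi_pos; positivity)
  · exact Real.tendsto_log_atTop

/-- the dyadic induction -/
theorem dyadic {H : ℝ → ℝ} {ε B V1 : ℝ} (hV1 : 10 ≤ V1) (hε : 0 ≤ ε)
    (h : ∀ V, V1 ≤ V → H (2 * V) ≤ H V + ε * MM V)
    (hB : ∀ V, V1 ≤ V → V ≤ 2 * V1 → H V ≤ B) : ∀ T, V1 ≤ T → H T ≤ |B| + ε * MM T := by
  have key : ∀ n : ℕ, ∀ T : ℝ, V1 ≤ T → T ≤ 2 ^ n * (2 * V1) → H T ≤ |B| + ε * MM T := by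
    intro n
    induction n with
    | zero =>
      intro T h1 h2
      rw [pow_zero, one_mul] at h2
      have h3 := hB T h1 h2
      have h4 := MM_pos (hV1.trans h1)
      have h5 := le_abs_self B
      have h6 : 0 ≤ ε * MM T := mul_nonneg hε h4.le
      linarith
    | succ n ih =>
      intro T h1 h2
      rcases le_or_gt T (2 * V1) with h3 | h3
      · apply ih T h1
        have h4 : (1 : ℝ) ≤ 2 ^ n := one_le_pow₀ (by norm_num)
        nlinarith
      · have h4 := h (T / 2) (by linarith)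
        have h5 := ih (T / 2) (by linarith) (by rw [pow_succ] at h2; linarith)
        have h6 := MM_double (V := T / 2) (by linarith)
        rw [show 2 * (T / 2) = T by ring] at h4 h6
        nlinarith
  intro T hT
  obtain ⟨n, hn⟩ := pow_unbounded_of_one_lt T (by norm_num : (1 : ℝ) < 2)
  apply key n T hT
  nlinarith

/-- the indices up to `T` -/
noncomputable def FT (T : ℝ) : Finset ℕ := Finset.Icc 1 (NZ T)

theorem mem_FT {n : ℕ} {T : ℝ} : n ∈ FT T ↔ 1 ≤ n ∧ ord n ≤ T := mem_Icc_NZ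

theorem FT_card (T : ℝ) : (FT T).card = NZ T := by
  unfold FT
  rw [Nat.card_Icc]
  omega

theorem FT_mono {S T : ℝ} (h : S ≤ T) : FT S ⊆ FT T := by
  intro n hn
  rw [mem_FT] at hn ⊢
  exact ⟨hn.1, hn.2.trans h⟩

theorem Bx_FT {V : ℝ} : Bx V ⊆ FT (2 * V) := by
  intro n hn
  rw [mem_Bx] at hn
  rw [mem_FT]
  exact ⟨hn.1, by linarith [hn.2.2]⟩

/-- the transform of the tent -/
theorem ct_tent (x : ℝ) : ct (fun t => 1 - t) x = Real.sinc (Real.pi * x) ^ 2 := by
  rcases eq_or_ne x 0 with h | h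
  · subst h
    have h0 : ∫ t in (0 : ℝ)..1, (1 - t) = 1 / 2 := by
      rw [intervalIntegral.integral_sub intervalIntegrable_const
        intervalIntegral.intervalIntegrable_id, integral_id]
      simp
      norm_num
    unfold ct
    simp only [mul_zero, zero_mul, Real.cos_zero, mul_one, Real.sinc_zero, one_pow]
    rw [h0]
    norm_num
  · have h1 := Pool.Agent.TH873.EW.ct_g0 h
    have h2 : ct Pool.Agent.TH873.EW.g0 x = Real.pi ^ 2 * ct (fun t => 1 - t) x := by
      unfold ct Pool.Agent.TH873.EW.g0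
      simp_rw [mul_assoc (Real.pi ^ 2)]
      rw [intervalIntegral.integral_const_mul]
      ring
    rw [h2] at h1
    have hpi := Real.pi_pos.ne'
    rw [Real.sinc_of_ne_zero (mul_ne_zero hpi h)]
    have h3 : ct (fun t => 1 - t) x = (Real.sin (Real.pi * x) ^ 2 / x ^ 2) / Real.pi ^ 2 := by
      rw [← h1]
      field_simp
    rw [h3]
    field_simp

/-- few close pairs in a block -/
theorem close_block (hRH : RiemannHypothesis) : ∃ C V0 : ℝ, 0 < C ∧ 10 ≤ V0 ∧
    ∀ V, V0 ≤ V → ((BP V (-1) 1).card : ℝ) ≤ C * XV V := by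
  have hcont : Continuous (fun x : ℝ => Real.sinc (Real.pi * x) ^ 2) :=
    (Real.continuous_sinc.comp (by fun_prop)).pow 2
  obtain ⟨x0, hx0, hmin⟩ := (isCompact_Icc (a := (-(1 / 2) : ℝ)) (b := 1 / 2)).exists_isMinOn
    ⟨0, by constructor <;> norm_num⟩ hcont.continuousOn
  set c0 : ℝ := Real.sinc (Real.pi * x0) ^ 2 with hc0
  have hc0p : 0 < c0 := by
    have h1 : 0 < Real.sinc (Real.pi * x0) := by
      rcases eq_or_ne x0 0 with h | h
      · rw [h]
        simp
      · have hpi := Real.pi_pos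
        have key : ∀ y : ℝ, 0 < y → y ≤ 1 / 2 → 0 < Real.sinc (Real.pi * y) := by
          intro y h0 h1
          have h4 : 0 < Real.pi * y := by positivity
          rw [Real.sinc_of_ne_zero h4.ne']
          exact div_pos (Real.sin_pos_of_pos_of_lt_pi h4 (by nlinarith)) h4
        rcases lt_or_gt_of_ne h with h2 | h2
        · have h3 := key (-x0) (by linarith) (by linarith [hx0.1])
          rwa [mul_neg, Real.sinc_neg] at h3
        · exact key x0 h2 hx0.2
    positivity
  obtain ⟨V0, hV0, h⟩ := blk_pair hRH (g := fun t => 1 - t) (by fun_prop) (by norm_num)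
    (μ := 1 / 2) (ε := 1) (by norm_num) (by norm_num) one_pos
  set c1 : ℝ := (fun t : ℝ => 1 - t) 0 / (1 / 2) + 2 * (1 / 2) * ∫ t in (0 : ℝ)..1, t * (1 - t) with hc1
  have hL : ∀ᶠ V : ℝ in atTop, 1 ≤ L V := by
    have : Tendsto L atTop atTop := Real.tendsto_log_atTop.atTop_div_const (by
      have := Real.pi_pos
      positivity)
    exact this.eventually_ge_atTop _
  obtain ⟨V1, hV1⟩ := hL.exists_forall_of_atTop
  refine ⟨(|c1| + 1) / (c0 * Real.exp (-1 / 4)) + 1, max V0 V1, by positivity,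
    hV0.trans (le_max_left _ _), fun V hV => ?_⟩
  have hVV0 : V0 ≤ V := (le_max_left _ _).trans hV
  have hLV := hV1 V ((le_max_right _ _).trans hV)
  have hX := XV_pos (hV0.trans hVV0)
  have h2 := (abs_le.mp (h V hVV0).2).2
  have h3 : ((BP V (-1) 1).card : ℝ) * (c0 * Real.exp (-1 / 4)) ≤
      ∑ n ∈ Bx V, ∑ m ∈ Bx V, Real.exp (-(ord n - ord m) ^ 2 / 4) *
        ct (fun t => 1 - t) (1 / 2 * Real.log V / (2 * Real.pi) * (ord n - ord m)) := by
    have e2 : ∑ n ∈ Bx V, ∑ m ∈ Bx V, Real.exp (-(ord n - ord m) ^ 2 / 4) *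
          ct (fun t => 1 - t) (1 / 2 * Real.log V / (2 * Real.pi) * (ord n - ord m)) =
          ∑ z ∈ Bx V ×ˢ Bx V, Real.exp (-(ord z.1 - ord z.2) ^ 2 / 4) *
          ct (fun t => 1 - t) (1 / 2 * Real.log V / (2 * Real.pi) * (ord z.1 - ord z.2)) := by
      rw [Finset.sum_product]
    rw [e2]
    have hsub : BP V (-1) 1 ⊆ Bx V ×ˢ Bx V := by
      intro z hz
      unfold BP at hz
      rw [Finset.mem_filter, Finset.mem_offDiag] at hz
      exact Finset.mem_product.mpr ⟨hz.1.1, hz.1.2.1⟩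
    refine le_trans ?_ (Finset.sum_le_sum_of_subset_of_nonneg hsub (by
      intro z _ _
      rw [ct_tent]
      positivity))
    rw [← nsmul_eq_mul]
    apply Finset.card_nsmul_le_sum
    intro z hz
    unfold BP at hz
    rw [Finset.mem_filter, ← sub_mul] at hz
    have h4 := hz.2
    have h5 : |(ord z.1 - ord z.2) * L V| ≤ 1 := abs_le.mpr h4
    have h6 : |ord z.1 - ord z.2| ≤ 1 := by
      rw [abs_mul, abs_of_pos (by linarith : 0 < L V)] at h5
      nlinarith [abs_nonneg (ord z.1 - ord z.2)]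
    have e3 : 1 / 2 * Real.log V / (2 * Real.pi) * (ord z.1 - ord z.2) =
        (ord z.1 - ord z.2) * L V / 2 := by
      unfold L
      ring
    rw [e3, ct_tent, mul_comm c0]
    apply mul_le_mul _ _ hc0p.le (Real.exp_pos _).le
    · apply Real.exp_le_exp.mpr
      have h7 : (ord z.1 - ord z.2) ^ 2 ≤ 1 := by
        rw [← sq_abs]
        exact pow_le_one₀ (abs_nonneg _) h6
      linarith
    · apply hmin
      constructor
      · linarith [h4.1]
      · linarith [h4.2]
  have h4 : ((BP V (-1) 1).card : ℝ) * (c0 * Real.exp (-1 / 4)) ≤ (|c1| + 1) * XV V := by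
    have h5 := le_abs_self c1
    have h6 : XV V * c1 ≤ |c1| * XV V := by nlinarith
    linarith
  have h5 : ((BP V (-1) 1).card : ℝ) ≤ (|c1| + 1) / (c0 * Real.exp (-1 / 4)) * XV V := by
    rw [div_mul_eq_mul_div, le_div_iff₀ (by positivity)]
    exact h4
  linarith

theorem close_rec {V : ℝ} {z : ℕ × ℕ}
    (hz : z ∈ FT (2 * V) ×ˢ FT (2 * V)) (hd : |ord z.1 - ord z.2| ≤ 1)
    (h1 : ¬ (z ∈ FT V ×ˢ FT V)) (h2 : ¬ (z ∈ Bx V ×ˢ Bx V)) : z ∈ EI V ×ˢ EI V := by
  rw [Finset.mem_product, mem_FT, mem_FT] at hz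
  rw [Finset.mem_product, mem_FT, mem_FT] at h1
  rw [Finset.mem_product, mem_Bx, mem_Bx] at h2
  rw [Finset.mem_product]
  obtain ⟨⟨a1, a2⟩, b1, b2⟩ := hz
  have h6' := abs_le.mp hd
  have m1 : ∀ n : ℕ, 1 ≤ n → V - 2 < ord n → ord n ≤ V + 2 → n ∈ EI V := by
    intro n hn q1 q2
    exact Finset.mem_union_left _ (mem_Ioc_NZ hn q1 q2)
  have m2 : ∀ n : ℕ, 1 ≤ n → 2 * V - 2 < ord n → ord n ≤ 2 * V → n ∈ EI V := by
    intro n hn q1 q2
    exact Finset.mem_union_right _ (mem_Ioc_NZ hn q1 q2)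
  rcases le_or_gt (ord z.1) V with p1 | p1
  · have p2 : V < ord z.2 := by
      by_contra h
      push Not at h
      exact h1 ⟨⟨a1, p1⟩, b1, h⟩
    exact ⟨m1 _ a1 (by linarith) (by linarith), m1 _ b1 (by linarith) (by linarith)⟩
  rcases le_or_gt (ord z.2) V with p2 | p2
  · exact ⟨m1 _ a1 (by linarith) (by linarith), m1 _ b1 (by linarith) (by linarith)⟩
  rcases le_or_gt (ord z.1) (V + 1) with p3 | p3
  · exact ⟨m1 _ a1 (by linarith) (by linarith), m1 _ b1 (by linarith) (by linarith)⟩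
  rcases le_or_gt (ord z.2) (V + 1) with p4 | p4
  · exact ⟨m1 _ a1 (by linarith) (by linarith), m1 _ b1 (by linarith) (by linarith)⟩
  rcases le_or_gt (ord z.1) (2 * V - 1) with p5 | p5
  · have p6 : 2 * V - 1 < ord z.2 := by
      by_contra h
      push Not at h
      exact h2 ⟨⟨a1, p3, p5⟩, b1, p4, h⟩
    exact ⟨m2 _ a1 (by linarith) a2, m2 _ b1 (by linarith) b2⟩
  · exact ⟨m2 _ a1 (by linarith) a2, m2 _ b1 (by linarith) b2⟩

/-- few close pairs up to `T` -/
theorem close_full (hRH : RiemannHypothesis) : ∃ C T0 : ℝ, 0 < C ∧ 10 ≤ T0 ∧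
    ∀ T, T0 ≤ T → ((FT T).card : ℝ) + ((AP T T (-1) 1).card : ℝ) ≤ C * MM T := by
  classical
  obtain ⟨C, V0, hC, hV0, hb⟩ := close_block hRH
  have hL : ∀ᶠ V : ℝ in atTop, 1 ≤ L V := by
    have : Tendsto L atTop atTop := Real.tendsto_log_atTop.atTop_div_const (by
      have := Real.pi_pos
      positivity)
    exact this.eventually_ge_atTop _
  have hE := (tendsto_order.mp lim_edge).2 1 one_pos
  obtain ⟨V1, hV1⟩ := (hL.and (hE.and (eventually_ge_atTop V0))).exists_forall_of_atTop
  set V2 := max V1 10 with hV2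
  have hV210 : 10 ≤ V2 := le_max_right _ _
  have hrec : ∀ V, V2 ≤ V → ((AP (2 * V) (2 * V) (-1) 1).card : ℝ) ≤
      ((AP V V (-1) 1).card : ℝ) + (C + 1) * MM V := by
    intro V hV
    obtain ⟨l1, l2, l3⟩ := hV1 V ((le_max_left _ _).trans hV)
    have hV10 : 10 ≤ V := hV210.trans hV
    have hX := XV_pos hV10
    rw [div_lt_iff₀ hX, one_mul] at l2
    have hLL : L V ≤ L (2 * V) := by
      rw [L_two (by linarith)]
      have := Real.pi_pos
      have : 0 < Real.log 2 / (2 * Real.pi) := div_pos (Real.log_pos (by norm_num)) (by positivity)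
      linarith
    have hsub : AP (2 * V) (2 * V) (-1) 1 ⊆ (AP V V (-1) 1 ∪ BP V (-1) 1) ∪ (EI V ×ˢ EI V) := by
      intro z hz
      unfold AP at hz
      rw [Finset.mem_filter, Finset.mem_offDiag] at hz
      obtain ⟨⟨h1, h2, h3⟩, h4⟩ := hz
      have h5 : |ord z.1 - ord z.2| * L (2 * V) ≤ 1 := by
        have := abs_le.mpr h4
        rwa [abs_mul, abs_of_pos (by linarith : 0 < L (2 * V))] at this
      have h6 : |ord z.1 - ord z.2| * L V ≤ 1 :=
        (mul_le_mul_of_nonneg_left hLL (abs_nonneg _)).trans h5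
      have h7 : |ord z.1 - ord z.2| ≤ 1 := by nlinarith [abs_nonneg (ord z.1 - ord z.2)]
      have h8 : (ord z.1 - ord z.2) * L V ∈ Set.Icc (-1 : ℝ) 1 := by
        apply abs_le.mp
        rwa [abs_mul, abs_of_pos (by linarith : 0 < L V)]
      rw [Finset.mem_union, Finset.mem_union]
      by_cases c1 : z ∈ FT V ×ˢ FT V
      · refine Or.inl (Or.inl ?_)
        rw [Finset.mem_product] at c1
        unfold AP
        rw [Finset.mem_filter, Finset.mem_offDiag]
        exact ⟨⟨c1.1, c1.2, h3⟩, h8⟩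
      by_cases c2 : z ∈ Bx V ×ˢ Bx V
      · refine Or.inl (Or.inr ?_)
        rw [Finset.mem_product] at c2
        unfold BP
        rw [Finset.mem_filter, Finset.mem_offDiag, ← sub_mul]
        exact ⟨⟨c2.1, c2.2, h3⟩, h8⟩
      exact Or.inr (close_rec (Finset.mem_product.mpr ⟨h1, h2⟩) h7 c1 c2)
    have h1 := (Finset.card_le_card hsub).trans (Finset.card_union_le _ _)
    have h2 := Finset.card_union_le (AP V V (-1) 1) (BP V (-1) 1)
    rw [Finset.card_product] at h1
    have h3 : ((AP (2 * V) (2 * V) (-1) 1).card : ℝ) ≤ ((AP V V (-1) 1).card : ℝ) +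
        ((BP V (-1) 1).card : ℝ) + ((EI V).card : ℝ) * (EI V).card := by
      have h4 : (AP (2 * V) (2 * V) (-1) 1).card ≤ (AP V V (-1) 1).card + (BP V (-1) 1).card +
        (EI V).card * (EI V).card := by omega
      have := (Nat.cast_le (α := ℝ)).mpr h4
      rwa [Nat.cast_add, Nat.cast_add, Nat.cast_mul] at this
    have h4 := hb V l3
    have h5 := XV_le_MM hV10
    nlinarith
  have hB : ∀ V, V2 ≤ V → V ≤ 2 * V2 → ((AP V V (-1) 1).card : ℝ) ≤ (NZ (2 * V2) : ℝ) * NZ (2 * V2) := by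
    intro V _ h2
    have h3 : (AP V V (-1) 1).card ≤ NZ (2 * V2) * NZ (2 * V2) := by
      refine (Finset.card_filter_le _ _).trans ?_
      have h4 : (Finset.Icc 1 (NZ V)).offDiag ⊆ Finset.Icc 1 (NZ V) ×ˢ Finset.Icc 1 (NZ V) :=
        fun z hz => by
          rw [Finset.mem_offDiag] at hz
          exact Finset.mem_product.mpr ⟨hz.1, hz.2.1⟩
      refine (Finset.card_le_card h4).trans ?_
      rw [Finset.card_product, Nat.card_Icc]
      have h5 : NZ V ≤ NZ (2 * V2) := SG.NZ_mono h2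
      exact Nat.mul_le_mul (by omega) (by omega)
    exact_mod_cast h3
  have hd := dyadic hV210 (by linarith) hrec hB
  have hN : ∀ᶠ T : ℝ in atTop, (NZ T : ℝ) ≤ 2 * MM T := by
    have h1 := (tendsto_order.mp H19.HL.NZ_tendsto).2 2 (by norm_num)
    filter_upwards [h1, eventually_ge_atTop 10] with T h2 h3
    have h4 := MM_pos h3
    unfold MM at h4 ⊢
    rw [div_lt_iff₀ h4] at h2
    exact h2.le
  have hM : ∀ᶠ T : ℝ in atTop, |(NZ (2 * V2) : ℝ) * NZ (2 * V2)| ≤ MM T :=
    MM_tendsto.eventually_ge_atTop _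
  obtain ⟨T1, hT1⟩ := (hN.and hM).exists_forall_of_atTop
  refine ⟨C + 4, max T1 V2, by linarith, hV210.trans (le_max_right _ _), fun T hT => ?_⟩
  obtain ⟨q1, q2⟩ := hT1 T ((le_max_left _ _).trans hT)
  have q3 := hd T ((le_max_right _ _).trans hT)
  rw [FT_card]
  linarith

/-- the change of the scale and the far pairs, for a set of indices with few close pairs -/
theorem scale_change (hRH : RiemannHypothesis) {k : ℝ → ℝ} (hk : Continuous k) {C : ℝ}
    (hC : ∀ x, |k x| ≤ C / (1 + x ^ 2)) {ε : ℝ} (hε : 0 < ε) : ∀ᶠ V : ℝ in atTop,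
    ∑ z ∈ FT (2 * V) ×ˢ FT (2 * V), |k (L (2 * V) * (ord z.1 - ord z.2)) -
        k (L V * (ord z.1 - ord z.2))| ≤ ε * MM V ∧
    ∑ z ∈ (FT (2 * V) ×ˢ FT (2 * V)).filter (fun z => 1 < |ord z.1 - ord z.2|),
      |k (L (2 * V) * (ord z.1 - ord z.2))| ≤ ε * MM V := by
  classical
  have hC0 : 0 ≤ C := by
    have := (abs_nonneg _).trans (hC 0)
    simpa using this
  obtain ⟨A, T0, hA, hT0, hcl⟩ := close_full hRH
  -- the constants
  obtain ⟨N, hN1, hN2⟩ : ∃ N : ℕ, 1 ≤ N ∧ 200 * (C + 1) * A / ε ≤ N := by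
    obtain ⟨N, hN⟩ := exists_nat_ge (max 1 (200 * (C + 1) * A / ε))
    refine ⟨N, ?_, (le_max_right _ _).trans hN⟩
    exact_mod_cast (le_max_left _ _).trans hN
  have hN0 : (1 : ℝ) ≤ N := by exact_mod_cast hN1
  set η : ℝ := ε / (6 * A * (2 * (N + 2) + 3)) with hη
  have hη0 : 0 < η := by positivity
  have huc : UniformContinuousOn k (Set.Icc (-((N : ℝ) + 2)) (N + 2)) :=
    isCompact_Icc.uniformContinuousOn_of_continuous hk.continuousOn
  rw [Metric.uniformContinuousOn_iff_le] at huc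
  obtain ⟨δ, hδ, huc⟩ := huc η hη0
  have hL : Tendsto L atTop atTop := Real.tendsto_log_atTop.atTop_div_const (by
      have := Real.pi_pos
      positivity)
  have hM : ∀ᶠ V : ℝ in atTop, MM (2 * V) ≤ 3 * MM V := by
    have h1 := (tendsto_order.mp (lim_ratio2.div lim_ratio one_ne_zero)).2 3 (by norm_num)
    filter_upwards [h1, eventually_ge_atTop 10] with V h2 h3
    have h4 := XV_pos h3
    have h5 := MM_pos h3
    simp only [Pi.div_apply] at h2
    rw [div_div_div_cancel_right₀ h4.ne', div_lt_iff₀ h5] at h2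
    exact h2.le
  filter_upwards [eventually_ge_atTop T0, hM, hL.eventually_ge_atTop (max ((N : ℝ) + 3)
    (max (((N : ℝ) + 2) / δ) 1))] with V hV hMV hLV
  have hV10 : 10 ≤ V := hT0.trans hV
  have hL1 : (N : ℝ) + 3 ≤ L V := (le_max_left _ _).trans hLV
  have hL2 : ((N : ℝ) + 2) / δ ≤ L V := ((le_max_left _ _).trans (le_max_right _ _)).trans hLV
  have hl2 : 0 < Real.log 2 / (2 * Real.pi) := by
    have := Real.pi_pos
    have := Real.log_pos (show (1 : ℝ) < 2 by norm_num)
    positivity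
  have hl2' : Real.log 2 / (2 * Real.pi) ≤ 1 := by
    have h1 := Real.pi_gt_three
    have h2 : Real.log 2 ≤ 1 := by
      have := Real.log_two_lt_d9
      linarith
    rw [div_le_one (by positivity)]
    linarith
  have hLL := L_two (V := V) (by linarith)
  have hL0 : 0 < L V := by linarith
  have hL20 : 0 < L (2 * V) := by linarith
  set X := FT (2 * V) with hX
  set y : ℕ → ℝ := fun n => ord n * L (2 * V) with hy
  have hyd : ∀ z : ℕ × ℕ, y z.1 - y z.2 = L (2 * V) * (ord z.1 - ord z.2) := fun z => by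
    simp only [hy]
    ring
  have hcount : ((X.card : ℝ) + ((X.offDiag.filter (fun z => y z.1 - y z.2 ∈ Set.Icc (-1) 1)).card : ℝ)) ≤
      A * MM (2 * V) := by
    have h1 := hcl (2 * V) (by linarith)
    have h2 : X.offDiag.filter (fun z => y z.1 - y z.2 ∈ Set.Icc (-1) 1) = AP (2 * V) (2 * V) (-1) 1 := by
      unfold AP
      apply Finset.filter_congr
      intro z _
      rw [hyd, mul_comm]
    rw [h2]
    exact h1
  have hMp : 0 < MM V := MM_pos hV10
  have hcount2 : ((X.card : ℝ) + ((X.offDiag.filter (fun z => y z.1 - y z.2 ∈ Set.Icc (-1) 1)).card : ℝ)) ≤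
      3 * A * MM V := hcount.trans (by nlinarith)
  have hTail := tail_le X y N hN1
  have hNear := near_count X y (N + 2)
  have hTail2 : ∑ z ∈ X.offDiag.filter (fun z => (N : ℝ) + 2 < |y z.1 - y z.2|),
      1 / (y z.1 - y z.2) ^ 2 ≤ 12 * A / N * MM V := by
    refine hTail.trans ?_
    calc ((X.card : ℝ) + ((X.offDiag.filter (fun z => y z.1 - y z.2 ∈ Set.Icc (-1) 1)).card : ℝ)) *
          (4 / N) ≤ 3 * A * MM V * (4 / N) := mul_le_mul_of_nonneg_right hcount2 (by positivity)
      _ = _ := by ring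
  have hsmall : 5 * C * (12 * A / N) ≤ ε / 2 := by
    rw [div_le_iff₀ hε] at hN2
    rw [mul_div_assoc', div_le_iff₀ (by positivity)]
    nlinarith
  have hkd : ∀ v : ℝ, v ≠ 0 → |k v| ≤ C * (1 / v ^ 2) := by
    intro v hv
    refine (hC v).trans ?_
    rw [mul_one_div]
    apply div_le_div_of_nonneg_left hC0 (by positivity)
    linarith
  constructor
  · have hsplit := Finset.sum_filter_add_sum_filter_not (X ×ˢ X)
      (fun z => |y z.1 - y z.2| ≤ ((N + 2 : ℕ) : ℝ)) (fun z => |k (L (2 * V) * (ord z.1 - ord z.2)) -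
        k (L V * (ord z.1 - ord z.2))|)
    rw [← hsplit]
    have p1 : ∑ z ∈ (X ×ˢ X).filter (fun z => |y z.1 - y z.2| ≤ ((N + 2 : ℕ) : ℝ)),
        |k (L (2 * V) * (ord z.1 - ord z.2)) - k (L V * (ord z.1 - ord z.2))| ≤ ε / 2 * MM V := by
      calc ∑ z ∈ (X ×ˢ X).filter (fun z => |y z.1 - y z.2| ≤ ((N + 2 : ℕ) : ℝ)),
          |k (L (2 * V) * (ord z.1 - ord z.2)) - k (L V * (ord z.1 - ord z.2))|
          ≤ ∑ z ∈ (X ×ˢ X).filter (fun z => |y z.1 - y z.2| ≤ ((N + 2 : ℕ) : ℝ)), η := by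
            apply Finset.sum_le_sum
            intro z hz
            have h1 := (Finset.mem_filter.mp hz).2
            rw [hyd] at h1
            push_cast at h1
            set d := ord z.1 - ord z.2 with hd
            have h2 : |L V * d| ≤ N + 2 := by
              rw [abs_mul, abs_of_pos hL20] at h1
              rw [abs_mul, abs_of_pos hL0]
              nlinarith [abs_nonneg d]
            have h3 := huc (L (2 * V) * d) (abs_le.mp h1) (L V * d) (abs_le.mp h2) (by
              rw [Real.dist_eq, ← sub_mul, hLL, add_sub_cancel_left, abs_mul, abs_of_pos hl2]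
              have h4 : |d| ≤ δ := by
                rw [abs_mul, abs_of_pos hL20] at h1
                rw [div_le_iff₀ hδ] at hL2
                by_contra h5
                push Not at h5
                nlinarith
              nlinarith [abs_nonneg d])
            rwa [Real.dist_eq] at h3
        _ = (((X ×ˢ X).filter (fun z => |y z.1 - y z.2| ≤ ((N + 2 : ℕ) : ℝ))).card : ℝ) * η := by
            rw [Finset.sum_const, nsmul_eq_mul]
        _ ≤ ((2 * ((N + 2 : ℕ) : ℝ) + 3) * (3 * A * MM V)) * η := by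
            apply mul_le_mul_of_nonneg_right _ hη0.le
            exact hNear.trans (mul_le_mul_of_nonneg_left hcount2 (by positivity))
        _ = ε / 2 * MM V := by
            rw [hη]
            push_cast
            field_simp
            ring
    have p2 : ∑ z ∈ (X ×ˢ X).filter (fun z => ¬ |y z.1 - y z.2| ≤ ((N + 2 : ℕ) : ℝ)),
        |k (L (2 * V) * (ord z.1 - ord z.2)) - k (L V * (ord z.1 - ord z.2))| ≤ ε / 2 * MM V := by
      have h0 : (X ×ˢ X).filter (fun z => ¬ |y z.1 - y z.2| ≤ ((N + 2 : ℕ) : ℝ)) ⊆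
          X.offDiag.filter (fun z => (N : ℝ) + 2 < |y z.1 - y z.2|) := by
        intro z hz
        rw [Finset.mem_filter, Finset.mem_product] at hz
        obtain ⟨⟨h1, h2⟩, h3⟩ := hz
        push Not at h3
        push_cast at h3
        rw [Finset.mem_filter, Finset.mem_offDiag]
        refine ⟨⟨h1, h2, fun h => ?_⟩, h3⟩
        rw [h, sub_self, abs_zero] at h3
        linarith
      calc ∑ z ∈ (X ×ˢ X).filter (fun z => ¬ |y z.1 - y z.2| ≤ ((N + 2 : ℕ) : ℝ)),
          |k (L (2 * V) * (ord z.1 - ord z.2)) - k (L V * (ord z.1 - ord z.2))|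
          ≤ ∑ z ∈ X.offDiag.filter (fun z => (N : ℝ) + 2 < |y z.1 - y z.2|),
            |k (L (2 * V) * (ord z.1 - ord z.2)) - k (L V * (ord z.1 - ord z.2))| :=
            Finset.sum_le_sum_of_subset_of_nonneg h0 (fun _ _ _ => abs_nonneg _)
        _ ≤ ∑ z ∈ X.offDiag.filter (fun z => (N : ℝ) + 2 < |y z.1 - y z.2|),
            5 * C * (1 / (y z.1 - y z.2) ^ 2) := by
            apply Finset.sum_le_sum
            intro z hz
            have h1 := (Finset.mem_filter.mp hz).2
            rw [hyd] at h1 ⊢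
            set d := ord z.1 - ord z.2 with hd
            have hd0 : d ≠ 0 := by
              intro h
              rw [h, mul_zero, abs_zero] at h1
              linarith
            have h2 := hkd (L (2 * V) * d) (mul_ne_zero hL20.ne' hd0)
            have h3 := hkd (L V * d) (mul_ne_zero hL0.ne' hd0)
            have h4 : 1 / (L V * d) ^ 2 ≤ 4 * (1 / (L (2 * V) * d) ^ 2) := by
              have h5 : (L (2 * V) * d) ^ 2 ≤ 4 * (L V * d) ^ 2 := by
                rw [mul_pow, mul_pow, ← mul_assoc]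
                apply mul_le_mul_of_nonneg_right _ (sq_nonneg d)
                nlinarith
              have h6 : 0 < (L (2 * V) * d) ^ 2 := by positivity
              have h7 : 0 < (L V * d) ^ 2 := by positivity
              rw [mul_one_div, div_le_div_iff₀ h7 h6]
              linarith
            refine (abs_sub _ _).trans ?_
            have h5 : C * (1 / (L V * d) ^ 2) ≤ C * (4 * (1 / (L (2 * V) * d) ^ 2)) :=
              mul_le_mul_of_nonneg_left h4 hC0
            linarith
        _ = 5 * C * ∑ z ∈ X.offDiag.filter (fun z => (N : ℝ) + 2 < |y z.1 - y z.2|),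
            1 / (y z.1 - y z.2) ^ 2 := by rw [Finset.mul_sum]
        _ ≤ 5 * C * (12 * A / N * MM V) := mul_le_mul_of_nonneg_left hTail2 (by positivity)
        _ = 5 * C * (12 * A / N) * MM V := by ring
        _ ≤ ε / 2 * MM V := mul_le_mul_of_nonneg_right hsmall hMp.le
    linarith
  · have h0 : (X ×ˢ X).filter (fun z => 1 < |ord z.1 - ord z.2|) ⊆
        X.offDiag.filter (fun z => (N : ℝ) + 2 < |y z.1 - y z.2|) := by
      intro z hz
      rw [Finset.mem_filter, Finset.mem_product] at hz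
      obtain ⟨⟨h1, h2⟩, h3⟩ := hz
      rw [Finset.mem_filter, Finset.mem_offDiag]
      refine ⟨⟨h1, h2, fun h => ?_⟩, ?_⟩
      · rw [h, sub_self, abs_zero] at h3
        linarith
      · rw [hyd, abs_mul, abs_of_pos hL20]
        nlinarith
    calc ∑ z ∈ (X ×ˢ X).filter (fun z => 1 < |ord z.1 - ord z.2|),
        |k (L (2 * V) * (ord z.1 - ord z.2))|
        ≤ ∑ z ∈ X.offDiag.filter (fun z => (N : ℝ) + 2 < |y z.1 - y z.2|),
          |k (L (2 * V) * (ord z.1 - ord z.2))| :=
          Finset.sum_le_sum_of_subset_of_nonneg h0 (fun _ _ _ => abs_nonneg _)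
      _ ≤ ∑ z ∈ X.offDiag.filter (fun z => (N : ℝ) + 2 < |y z.1 - y z.2|),
            5 * C * (1 / (y z.1 - y z.2) ^ 2) := by
          apply Finset.sum_le_sum
          intro z hz
          have h1 := (Finset.mem_filter.mp hz).2
          rw [hyd] at h1 ⊢
          set d := ord z.1 - ord z.2 with hd
          have hd0 : d ≠ 0 := by
            intro h
            rw [h, mul_zero, abs_zero] at h1
            linarith
          refine (hkd (L (2 * V) * d) (mul_ne_zero hL20.ne' hd0)).trans ?_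
          apply mul_le_mul_of_nonneg_right _ (by positivity)
          linarith
      _ = 5 * C * ∑ z ∈ X.offDiag.filter (fun z => (N : ℝ) + 2 < |y z.1 - y z.2|),
          1 / (y z.1 - y z.2) ^ 2 := by rw [Finset.mul_sum]
      _ ≤ 5 * C * (12 * A / N * MM V) := mul_le_mul_of_nonneg_left hTail2 (by positivity)
      _ = 5 * C * (12 * A / N) * MM V := by ring
      _ ≤ ε / 2 * MM V := mul_le_mul_of_nonneg_right hsmall hMp.le
      _ ≤ ε * MM V := by nlinarith

end Pool.Agent.H34.DR
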