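import Mathlib
import Pool.Agent.H19.HL.Ker

/-!
# Positive definite kernels with the modulus of the sine kernel
-/

open Filter Topology MeasureTheory Set
open scoped ComplexOrder MatrixOrder Matrix.Norms.L2Operator

namespace Pool.Agent.H34.DR

/-- `sin π x / (π x)` -/
noncomputable def s (x : ℝ) : ℝ := Real.sinc (Real.pi * x)

theorem s_zero : s 0 = 1 := by simp [s]

theorem s_even (x : ℝ) : s (-x) = s x := by
  unfold s
  rw [mul_neg, Real.sinc_neg]

theorem s_cont : Continuous s := by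
  unfold s
  exact Real.continuous_sinc.comp (by fun_prop)

theorem s_mul (x : ℝ) : s x * (Real.pi * x) = Real.sin (Real.pi * x) := by
  unfold s
  rcases eq_or_ne x 0 with h | h
  · subst h
    simp
  · have h1 : Real.pi * x ≠ 0 := mul_ne_zero Real.pi_pos.ne' h
    rw [Real.sinc_of_ne_zero h1, div_mul_cancel₀ _ h1]

theorem s_pos {x : ℝ} (h : |x| < 1) : 0 < s x := by
  have key : ∀ y : ℝ, 0 < y → y < 1 → 0 < s y := by
    intro y h0 h1
    have h2 := s_mul y
    have h3 : 0 < Real.sin (Real.pi * y) :=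
      Real.sin_pos_of_pos_of_lt_pi (by have := Real.pi_pos; positivity) (by
        have := Real.pi_pos
        nlinarith)
    rw [← h2] at h3
    have h4 : 0 < Real.pi * y := by have := Real.pi_pos; positivity
    exact pos_of_mul_pos_left h3 h4.le
  rcases lt_trichotomy x 0 with h0 | h0 | h0
  · rw [← s_even]
    rw [abs_of_neg h0] at h
    exact key (-x) (by linarith) h
  · rw [h0, s_zero]
    norm_num
  · rw [abs_of_pos h0] at h
    exact key x h0 h

theorem s_ne {x : ℝ} (h : ∀ n : ℤ, x ≠ n) : s x ≠ 0 := by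
  intro h0
  have h1 := s_mul x
  rw [h0, zero_mul] at h1
  obtain ⟨n, hn⟩ := Real.sin_eq_zero_iff.mp h1.symm
  have hpi := Real.pi_pos.ne'
  have : x = n := by
    have h2 : Real.pi * x = Real.pi * n := by linarith
    exact mul_left_cancel₀ hpi h2
  exact h n this

theorem s_int {n : ℤ} (h : n ≠ 0) : s n = 0 := by
  unfold s
  have h1 : Real.pi * (n : ℝ) ≠ 0 := mul_ne_zero Real.pi_pos.ne' (by exact_mod_cast h)
  rw [Real.sinc_of_ne_zero h1, mul_comm, Real.sin_int_mul_pi]
  simp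

/-- Parseval's identity for the sine kernel -/
theorem hasSum_sq (x : ℝ) : HasSum (fun n : ℤ => s (x - n) ^ 2) 1 := by
  have hcont : Continuous (fun t : ℝ => Complex.exp (2 * Real.pi * x * t * Complex.I)) := by fun_prop
  have hL2 : MemLp (fun t : ℝ => Complex.exp (2 * Real.pi * x * t * Complex.I)) 2
      (volume.restrict (Ioc (0 : ℝ) 1)) := by
    apply MemLp.of_bound hcont.aestronglyMeasurable 1
    apply Eventually.of_forall
    intro t
    rw [show (2 * Real.pi * x * t * Complex.I : ℂ) = ((2 * Real.pi * x * t : ℝ) : ℂ) * Complex.I by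
      push_cast; ring, Complex.norm_exp_ofReal_mul_I]
  have h := hasSum_sq_fourierCoeffOn (zero_lt_one) hL2
  have e1 : ((1 : ℝ) - 0)⁻¹ • ∫ t in (0 : ℝ)..1, ‖Complex.exp (2 * Real.pi * x * t * Complex.I)‖ ^ 2 = 1 := by
    have : ∀ t : ℝ, ‖Complex.exp (2 * Real.pi * x * t * Complex.I)‖ ^ 2 = 1 := by
      intro t
      rw [show (2 * Real.pi * x * t * Complex.I : ℂ) = ((2 * Real.pi * x * t : ℝ) : ℂ) * Complex.I by
        push_cast; ring, Complex.norm_exp_ofReal_mul_I, one_pow]
    simp_rw [this]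
    simp
  rw [e1] at h
  have e2 : ∀ n : ℤ, ‖fourierCoeffOn zero_lt_one
      (fun t : ℝ => Complex.exp (2 * Real.pi * x * t * Complex.I)) n‖ ^ 2 = s (x - n) ^ 2 := by
    intro n
    rw [fourierCoeffOn_eq_integral]
    have e3 : ∀ t : ℝ, fourier (-n) (t : AddCircle ((1 : ℝ) - 0)) •
        Complex.exp (2 * Real.pi * x * t * Complex.I) =
        Complex.exp ((2 * Real.pi * (x - n) * Complex.I) * t) := by
      intro t
      rw [fourier_coe_apply, smul_eq_mul, ← Complex.exp_add]
      congr 1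
      push_cast
      ring
    simp_rw [e3]
    rw [show (1 / ((1 : ℝ) - 0)) = 1 by norm_num, one_smul]
    rcases eq_or_ne x n with h0 | h0
    · subst h0
      simp [s_zero]
    · have hx : x - n ≠ 0 := sub_ne_zero.mpr h0
      have hpi := Real.pi_pos.ne'
      have hc : (2 * Real.pi * ((x : ℂ) - n) * Complex.I) ≠ 0 := by
        have h1 : ((x : ℂ) - n) ≠ 0 := by exact_mod_cast hx
        have h2 : (Real.pi : ℂ) ≠ 0 := by exact_mod_cast hpi
        simp [h1, h2, Complex.I_ne_zero]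
      rw [integral_exp_mul_complex hc]
      simp only [Complex.ofReal_one, mul_one, Complex.ofReal_zero, mul_zero, Complex.exp_zero]
      rw [norm_div]
      have h3 : (2 * Real.pi * ((x : ℂ) - n) * Complex.I) = Complex.I * ((2 * Real.pi * (x - n) : ℝ) : ℂ) := by
        push_cast
        ring
      rw [h3, Complex.norm_exp_I_mul_ofReal_sub_one, norm_mul Complex.I, Complex.norm_I, one_mul,
        Complex.norm_real, div_pow, Real.norm_eq_abs, Real.norm_eq_abs, sq_abs, sq_abs]
      have h4 := s_mul (x - n)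
      rw [show 2 * Real.pi * (x - n) / 2 = Real.pi * (x - n) by ring, ← h4]
      field_simp
  simp_rw [e2] at h
  exact h

/-- positive definite kernels -/
def PSDk (K : ℝ → ℝ → ℂ) : Prop :=
  ∀ (ι : Type) [Fintype ι] (p : ι → ℝ), (Matrix.of fun i j => K (p i) (p j)).PosSemidef

/-- the Gram representation -/
theorem gram {ι : Type} [Fintype ι] {M : Matrix ι ι ℂ} (hM : M.PosSemidef) :
    ∃ v : ι → EuclideanSpace ℂ ι, ∀ i j, inner ℂ (v i) (v j) = M i j := by
  classical
  obtain ⟨B, hB⟩ := CStarAlgebra.nonneg_iff_eq_star_mul_self.mp hM.nonneg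
  refine ⟨fun i => WithLp.toLp 2 (fun k => B k i), fun i j => ?_⟩
  rw [hB, EuclideanSpace.inner_eq_star_dotProduct]
  simp only [Matrix.mul_apply, Matrix.star_apply, dotProduct, Pi.star_apply]
  apply Finset.sum_congr rfl
  intro k _
  ring

/-- the Bessel estimate -/
theorem bessel {E : Type*} [NormedAddCommGroup E] [InnerProductSpace ℂ E] {ι : Type*}
    [DecidableEq ι] (F : Finset ι) (e : ι → E)
    (he : ∀ i ∈ F, ∀ j ∈ F, inner ℂ (e i) (e j) = if i = j then (1 : ℂ) else 0)
    (x z : E) (hx : ‖x‖ = 1) (hz : ‖z‖ = 1) :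
    ‖inner ℂ x z - ∑ i ∈ F, inner ℂ x (e i) * inner ℂ (e i) z‖ ^ 2 ≤
      (1 - ∑ i ∈ F, ‖inner ℂ x (e i)‖ ^ 2) * (1 - ∑ i ∈ F, ‖inner ℂ z (e i)‖ ^ 2) := by
  have key : ∀ a b : E, inner ℂ (a - ∑ i ∈ F, inner ℂ (e i) a • e i)
      (b - ∑ i ∈ F, inner ℂ (e i) b • e i) =
      inner ℂ a b - ∑ i ∈ F, inner ℂ a (e i) * inner ℂ (e i) b := by
    intro a b
    have h1 : inner ℂ (∑ i ∈ F, inner ℂ (e i) a • e i) (∑ i ∈ F, inner ℂ (e i) b • e i) =
        ∑ i ∈ F, inner ℂ a (e i) * inner ℂ (e i) b := by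
      rw [sum_inner]
      apply Finset.sum_congr rfl
      intro i hi
      rw [inner_smul_left, inner_sum]
      have h2 : ∑ j ∈ F, inner ℂ (e i) (inner ℂ (e j) b • e j) = inner ℂ (e i) b := by
        have h3 : ∀ j ∈ F, inner ℂ (e i) (inner ℂ (e j) b • e j) =
            if i = j then inner ℂ (e j) b else 0 := by
          intro j hj
          rw [inner_smul_right, he i hi j hj]
          split_ifs <;> simp
        rw [Finset.sum_congr rfl h3, Finset.sum_ite_eq F i, if_pos hi]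
      rw [h2, inner_conj_symm]
    have h4 : inner ℂ a (∑ i ∈ F, inner ℂ (e i) b • e i) =
        ∑ i ∈ F, inner ℂ a (e i) * inner ℂ (e i) b := by
      rw [inner_sum]
      apply Finset.sum_congr rfl
      intro i _
      rw [inner_smul_right, mul_comm]
    have h5 : inner ℂ (∑ i ∈ F, inner ℂ (e i) a • e i) b =
        ∑ i ∈ F, inner ℂ a (e i) * inner ℂ (e i) b := by
      rw [sum_inner]
      apply Finset.sum_congr rfl
      intro i _
      rw [inner_smul_left, inner_conj_symm]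
    rw [inner_sub_left, inner_sub_right, inner_sub_right, h1, h4, h5]
    ring
  have nrm : ∀ a : E, ‖a‖ = 1 → ‖a - ∑ i ∈ F, inner ℂ (e i) a • e i‖ ^ 2 =
      1 - ∑ i ∈ F, ‖inner ℂ a (e i)‖ ^ 2 := by
    intro a ha
    have h1 := key a a
    have h2 : inner ℂ a a = ((1 : ℝ) : ℂ) := by
      rw [inner_self_eq_norm_sq_to_K, ha]
      simp
    have h3 : ∀ i ∈ F, inner ℂ a (e i) * inner ℂ (e i) a = ((‖inner ℂ a (e i)‖ ^ 2 : ℝ) : ℂ) := by
      intro i _
      rw [← inner_conj_symm (e i) a, Complex.mul_conj, Complex.normSq_eq_norm_sq]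
    rw [inner_self_eq_norm_sq_to_K, h2, Finset.sum_congr rfl h3] at h1
    have h4 : ((‖a - ∑ i ∈ F, inner ℂ (e i) a • e i‖ ^ 2 : ℝ) : ℂ) =
        ((1 - ∑ i ∈ F, ‖inner ℂ a (e i)‖ ^ 2 : ℝ) : ℂ) := by
      push_cast
      push_cast at h1
      exact h1
    exact Complex.ofReal_injective h4
  rw [← nrm x hx, ← nrm z hz, ← key x z, ← mul_pow]
  exact pow_le_pow_left₀ (norm_nonneg _) (norm_inner_le_norm _ _) 2

theorem norm_one_of {E : Type*} [NormedAddCommGroup E] [InnerProductSpace ℂ E] {a : E}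
    (h : inner ℂ a a = 1) : ‖a‖ = 1 := by
  have h1 := inner_self_eq_norm_sq (𝕜 := ℂ) a
  rw [h, RCLike.one_re] at h1
  have h3 := norm_nonneg a
  nlinarith

/-- the expansion along a lattice -/
theorem expand {K : ℝ → ℝ → ℂ} (hK : PSDk K) (hd : ∀ x, K x x = 1)
    (hn : ∀ x y, ‖K x y‖ = |s (x - y)|) (x z w : ℝ) :
    HasSum (fun n : ℤ => K x (w + n) * K (w + n) z) (K x z) := by
  classical
  have fin : ∀ F : Finset ℤ, ‖K x z - ∑ n ∈ F, K x (w + n) * K (w + n) z‖ ^ 2 ≤
      (1 - ∑ n ∈ F, s (x - w - n) ^ 2) * (1 - ∑ n ∈ F, s (z - w - n) ^ 2) := by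
    intro F
    obtain ⟨v, hv⟩ := gram (hK (Bool ⊕ F) (Sum.elim (fun b => if b then x else z) (fun n => w + n.1)))
    simp only [Matrix.of_apply] at hv
    have hx : ‖v (Sum.inl true)‖ = 1 := norm_one_of (by
      have h1 := hv (Sum.inl true) (Sum.inl true)
      rwa [hd] at h1)
    have hz : ‖v (Sum.inl false)‖ = 1 := norm_one_of (by
      have h1 := hv (Sum.inl false) (Sum.inl false)
      rwa [hd] at h1)
    have h1 := bessel (Finset.univ : Finset F) (fun n => v (Sum.inr n)) (by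
      intro i _ j _
      rw [hv]
      simp only [Sum.elim_inr]
      split_ifs with h
      · rw [h, hd]
      · have h2 := hn (w + i.1) (w + j.1)
        have h3 : w + (i.1 : ℝ) - (w + j.1) = ((i.1 - j.1 : ℤ) : ℝ) := by
          push_cast
          ring
        rw [h3, s_int (by
          intro h4
          apply h
          ext
          omega), abs_zero, norm_eq_zero] at h2
        exact h2) _ _ hx hz
    simp only [hv, Sum.elim_inl, Sum.elim_inr, if_true, hn, sq_abs, Bool.false_eq_true,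
      if_false] at h1
    have e1 : ∀ f : ℤ → ℂ, ∑ i : F, f i.1 = ∑ n ∈ F, f n := fun f => Finset.sum_coe_sort F f
    have e2 : ∀ f : ℤ → ℝ, ∑ i : F, f i.1 = ∑ n ∈ F, f n := fun f => Finset.sum_coe_sort F f
    rw [e1 (fun n => K x (w + n) * K (w + n) z), e2 (fun n => s (x - (w + n)) ^ 2)] at h1
    have e3 : ∑ n ∈ F, s (z - (w + n)) ^ 2 = ∑ n ∈ F, s (z - w - n) ^ 2 := by
      apply Finset.sum_congr rfl
      intro i _
      congr 2
      ring
    have e4 : ∑ n ∈ F, s (x - (w + n)) ^ 2 = ∑ n ∈ F, s (x - w - n) ^ 2 := by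
      apply Finset.sum_congr rfl
      intro i _
      congr 2
      ring
    rw [e2 (fun n => s (z - (w + n)) ^ 2), e3, e4] at h1
    exact h1
  have h1 := hasSum_sq (x - w)
  have h2 := hasSum_sq (z - w)
  have h3 : Tendsto (fun F : Finset ℤ => (1 - ∑ n ∈ F, s (x - w - n) ^ 2) *
      (1 - ∑ n ∈ F, s (z - w - n) ^ 2)) atTop (𝓝 ((1 - 1) * (1 - 1))) :=
    (tendsto_const_nhds.sub h1).mul (tendsto_const_nhds.sub h2)
  rw [sub_self, mul_zero] at h3
  have h4 : Tendsto (fun F : Finset ℤ => ‖K x z - ∑ n ∈ F, K x (w + n) * K (w + n) z‖ ^ 2) atTop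
      (𝓝 0) := squeeze_zero (fun F => by positivity) fin h3
  have h5 : Tendsto (fun F : Finset ℤ => ‖K x z - ∑ n ∈ F, K x (w + n) * K (w + n) z‖) atTop
      (𝓝 0) := by
    have h6 := h4.sqrt
    rw [Real.sqrt_zero] at h6
    refine h6.congr fun F => ?_
    rw [Real.sqrt_sq (norm_nonneg _)]
  have h6 := tendsto_zero_iff_norm_tendsto_zero.mpr h5
  have h7 : Tendsto (fun F : Finset ℤ => K x z - (K x z - ∑ n ∈ F, K x (w + n) * K (w + n) z)) atTop
      (𝓝 (K x z - 0)) := tendsto_const_nhds.sub h6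
  rw [sub_zero] at h7
  refine h7.congr fun F => ?_
  ring

end Pool.Agent.H34.DR
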