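import Pool.Agent.H34.DR.Gauge

/-!
# The phases of the kernel
-/

open Filter Topology MeasureTheory Set
open scoped ComplexOrder ComplexConjugate

namespace Pool.Agent.H34.DR

theorem eq_of_re {z : ℂ} {r : ℝ} (h1 : ‖z‖ = |r|) (h2 : z.re = r) : z = r := by
  have h3 : z.im = 0 := by
    have h4 := Complex.sq_norm z
    rw [h1, sq_abs, Complex.normSq_apply, h2] at h4
    have h5 : z.im * z.im = 0 := by nlinarith
    exact mul_self_eq_zero.mp h5
  apply Complex.ext
  · rw [h2, Complex.ofReal_re]
  · rw [h3, Complex.ofReal_im]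

theorem hasSum_re_mul {ι : Type*} {a : ι → ℂ} {S : ℂ} (h : HasSum a S) (c : ℂ) :
    HasSum (fun n => (a n * c).re) (S * c).re :=
  Complex.reCLM.hasSum (h.mul_right c)

theorem align_A {ι : Type*} {a : ι → ℂ} {b : ι → ℝ} {S : ℂ} {R : ℝ} (ha : HasSum a S)
    (hb : HasSum b R) (hn : ∀ i, ‖a i‖ = |b i|) (hS : ‖S‖ = |R|) (hs : ∀ i, 0 ≤ b i * R) (i : ι) :
    a i * conj S = ((b i * R : ℝ) : ℂ) := by
  have hm : ∀ i, ‖a i * conj S‖ = |b i * R| := by
    intro i
    rw [norm_mul, RCLike.norm_conj, hn, hS, abs_mul]
  have h1 := (hb.mul_right R).sub (hasSum_re_mul ha (conj S))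
  have h2 : R * R - (S * conj S).re = 0 := by
    rw [Complex.mul_conj, Complex.ofReal_re, Complex.normSq_eq_norm_sq, hS, sq_abs]
    ring
  rw [h2] at h1
  have h3 : ∀ i, 0 ≤ b i * R - (a i * conj S).re := by
    intro i
    have h4 := Complex.re_le_norm (a i * conj S)
    rw [hm, abs_of_nonneg (hs i)] at h4
    linarith
  have h5 := congrFun ((hasSum_zero_iff_of_nonneg h3).mp h1) i
  simp only [Pi.zero_apply] at h5
  exact eq_of_re (hm i) (by linarith)

theorem align_B {ι : Type*} {a : ι → ℂ} {b : ι → ℝ} {S : ℂ} {R : ℝ} (ha : HasSum a S)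
    (hb : HasSum b R) (hn : ∀ i, ‖a i‖ = |b i|) (hS : ‖S‖ = |R|) (m : ι) (hm : b m ≠ 0)
    (hR : 0 ≤ R * b m) (hs : ∀ i, i ≠ m → b i * b m ≤ 0) (i : ι) :
    a i * conj S = ((b i * R : ℝ) : ℂ) := by
  have nm : ∀ i, ‖a i * conj (a m)‖ = |b i * b m| := by
    intro i
    rw [norm_mul, RCLike.norm_conj, hn, hn, abs_mul]
  have nS : ‖S * conj (a m)‖ = |R * b m| := by
    rw [norm_mul, RCLike.norm_conj, hn, hS, abs_mul]
  have h1 := (hasSum_re_mul ha (conj (a m))).sub (hb.mul_right (b m))
  have h3 : ∀ i, 0 ≤ (a i * conj (a m)).re - b i * b m := by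
    intro i
    rcases eq_or_ne i m with h | h
    · subst h
      rw [Complex.mul_conj, Complex.ofReal_re, Complex.normSq_eq_norm_sq, hn, sq_abs]
      nlinarith
    · have h4 := Complex.abs_re_le_norm (a i * conj (a m))
      rw [nm, abs_of_nonpos (hs i h)] at h4
      have h5 := (abs_le.mp h4).1
      linarith
  have h4 : (S * conj (a m)).re - R * b m ≤ 0 := by
    have h5 := Complex.re_le_norm (S * conj (a m))
    rw [nS, abs_of_nonneg hR] at h5
    linarith
  have h5 : 0 ≤ (S * conj (a m)).re - R * b m := h1.nonneg h3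
  have h6 : (S * conj (a m)).re - R * b m = 0 := le_antisymm h4 h5
  rw [h6] at h1
  have h7 := (hasSum_zero_iff_of_nonneg h3).mp h1
  have q1 : ∀ i, a i * conj (a m) = ((b i * b m : ℝ) : ℂ) := by
    intro i
    have h8 := congrFun h7 i
    simp only [Pi.zero_apply] at h8
    exact eq_of_re (nm i) (by linarith)
  have q2 : S * conj (a m) = ((R * b m : ℝ) : ℂ) := eq_of_re nS (by linarith)
  have q3 : a m * conj S = ((R * b m : ℝ) : ℂ) := by
    have := congrArg conj q2
    rw [map_mul, Complex.conj_conj, Complex.conj_ofReal] at this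
    rw [mul_comm]
    exact this
  have q4 : a m * conj (a m) = ((b m * b m : ℝ) : ℂ) := q1 m
  have q5 : ((b m * b m : ℝ) : ℂ) ≠ 0 := by
    exact_mod_cast mul_ne_zero hm hm
  have q6 : (a i * conj S) * ((b m * b m : ℝ) : ℂ) = ((b i * R : ℝ) : ℂ) * ((b m * b m : ℝ) : ℂ) := by
    rw [← q4]
    calc a i * conj S * (a m * conj (a m)) = (a i * conj (a m)) * (a m * conj S) := by ring
      _ = ((b i * b m : ℝ) : ℂ) * ((R * b m : ℝ) : ℂ) := by rw [q1, q3]
      _ = ((b i * R : ℝ) : ℂ) * ((b m * b m : ℝ) : ℂ) := by push_cast; ring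
      _ = _ := by rw [q4]
  exact mul_right_cancel₀ q5 q6

/-- the sine kernel is positive definite -/
theorem s_PSD : PSDk (fun x y => (s (x - y) : ℂ)) := by
  intro ι _ p
  have quad : ∀ c : ι → ℝ, 0 ≤ ∑ i, ∑ j, c i * c j * s (p i - p j) := by
    intro c
    set e := Fintype.equivFin ι
    have h := H19.HL.quad_nonneg (fun i => p (e.symm i)) (fun i => c (e.symm i))
    refine h.trans (le_of_eq ?_)
    rw [← Equiv.sum_comp e.symm (fun i => ∑ j, c i * c j * s (p i - p j))]
    apply Finset.sum_congr rfl
    intro i _
    rw [← Equiv.sum_comp e.symm (fun j => c (e.symm i) * c j * s (p (e.symm i) - p j))]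
    rfl
  apply Matrix.PosSemidef.of_dotProduct_mulVec_nonneg
  · ext i j
    simp only [Matrix.conjTranspose_apply, Matrix.of_apply]
    rw [show p j - p i = -(p i - p j) by ring, s_even]
    exact Complex.conj_ofReal _
  · intro c
    have h1 : star c ⬝ᵥ (Matrix.of fun i j => (s (p i - p j) : ℂ)).mulVec c =
        ((∑ i, ∑ j, (c i).re * (c j).re * s (p i - p j)) +
          (∑ i, ∑ j, (c i).im * (c j).im * s (p i - p j)) : ℝ) := by
      have h2 : star c ⬝ᵥ (Matrix.of fun i j => (s (p i - p j) : ℂ)).mulVec c =
          ∑ i, ∑ j, conj (c i) * c j * (s (p i - p j) : ℂ) := by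
        simp only [dotProduct, Matrix.mulVec, Matrix.of_apply, Pi.star_apply]
        apply Finset.sum_congr rfl
        intro i _
        rw [Finset.mul_sum]
        apply Finset.sum_congr rfl
        intro j _
        simp only [RCLike.star_def]
        ring
      rw [h2]
      apply Complex.ext
      · rw [Complex.ofReal_re, Complex.re_sum, ← Finset.sum_add_distrib]
        apply Finset.sum_congr rfl
        intro i _
        rw [Complex.re_sum, ← Finset.sum_add_distrib]
        apply Finset.sum_congr rfl
        intro j _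
        simp only [Complex.mul_im, Complex.mul_re, Complex.conj_re, Complex.conj_im,
          Complex.ofReal_re, Complex.ofReal_im]
        ring
      · rw [Complex.ofReal_im, Complex.im_sum]
        have h3 : ∑ i, (∑ j, conj (c i) * c j * (s (p i - p j) : ℂ)).im =
            ∑ i, ∑ j, ((c i).re * (c j).im - (c i).im * (c j).re) * s (p i - p j) := by
          apply Finset.sum_congr rfl
          intro i _
          rw [Complex.im_sum]
          apply Finset.sum_congr rfl
          intro j _
          simp only [Complex.mul_im, Complex.mul_re, Complex.conj_re, Complex.conj_im,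
            Complex.ofReal_re, Complex.ofReal_im]
          ring
        rw [h3]
        have h4 : ∑ i, ∑ j, ((c i).re * (c j).im - (c i).im * (c j).re) * s (p i - p j) =
            ∑ i, ∑ j, ((c j).re * (c i).im - (c j).im * (c i).re) * s (p j - p i) :=
          Finset.sum_comm
        have h5 : ∑ i, ∑ j, ((c j).re * (c i).im - (c j).im * (c i).re) * s (p j - p i) =
            -∑ i, ∑ j, ((c i).re * (c j).im - (c i).im * (c j).re) * s (p i - p j) := by
          rw [← Finset.sum_neg_distrib]
          apply Finset.sum_congr rfl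
          intro i _
          rw [← Finset.sum_neg_distrib]
          apply Finset.sum_congr rfl
          intro j _
          rw [show p j - p i = -(p i - p j) by ring, s_even]
          ring
        linarith
    rw [h1]
    have h2 := add_nonneg (quad (fun i => (c i).re)) (quad (fun i => (c i).im))
    exact_mod_cast h2

theorem s_expand (x z w : ℝ) : HasSum (fun n : ℤ => s (x - (w + n)) * s (w + n - z)) (s (x - z)) := by
  have h := expand s_PSD (fun x => by simp [s_zero]) (fun x y => by
    rw [Complex.norm_real, Real.norm_eq_abs]) x z w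
  have h2 := Complex.reCLM.hasSum h
  simpa using h2

/-- the triple products -/
theorem triple {K : ℝ → ℝ → ℂ} (hK : PSDk K) (hd : ∀ x, K x x = 1)
    (hn : ∀ x y, ‖K x y‖ = |s (x - y)|) (hh : ∀ x y, conj (K x y) = K y x) (x z w : ℝ)
    (hxz : |x - z| < 1) : K x w * K w z * K z x = ((s (x - w) * s (w - z) * s (z - x) : ℝ) : ℂ) := by
  have hpi := Real.pi_pos
  have ha := expand hK hd hn x z w
  have hb := s_expand x z w
  have hR : 0 < s (x - z) := s_pos hxz
  have hnn : ∀ n : ℤ, ‖K x (w + n) * K (w + n) z‖ = |s (x - (w + n)) * s (w + n - z)| := by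
    intro n
    rw [norm_mul, hn, hn, abs_mul]
  have hc : ∀ n : ℤ, s (x - (w + n)) * s (w + n - z) * (Real.pi ^ 2 * ((x - (w + n)) * (w + n - z))) =
      Real.sin (Real.pi * (x - w)) * Real.sin (Real.pi * (w - z)) := by
    intro n
    have h1 := s_mul (x - (w + n))
    have h2 := s_mul (w + n - z)
    have h3 : Real.sin (Real.pi * (x - (w + n))) = (-1) ^ n * Real.sin (Real.pi * (x - w)) := by
      rw [show Real.pi * (x - (w + n)) = Real.pi * (x - w) - n * Real.pi by ring,
        Real.sin_sub_int_mul_pi]
    have h4 : Real.sin (Real.pi * (w + n - z)) = (-1) ^ n * Real.sin (Real.pi * (w - z)) := by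
      rw [show Real.pi * (w + n - z) = Real.pi * (w - z) + n * Real.pi by ring,
        Real.sin_add_int_mul_pi]
    have h5 : ((-1 : ℝ) ^ n) * (-1) ^ n = 1 := by
      rw [← mul_zpow]
      norm_num
    calc s (x - (w + n)) * s (w + n - z) * (Real.pi ^ 2 * ((x - (w + n)) * (w + n - z)))
        = (s (x - (w + n)) * (Real.pi * (x - (w + n)))) * (s (w + n - z) * (Real.pi * (w + n - z))) := by
          ring
      _ = ((-1) ^ n * (-1) ^ n) * (Real.sin (Real.pi * (x - w)) * Real.sin (Real.pi * (w - z))) := by
          rw [h1, h2, h3, h4]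
          ring
      _ = _ := by rw [h5, one_mul]
  have main : K x w * K w z * conj (K x z) = ((s (x - w) * s (w - z) * s (x - z) : ℝ) : ℂ) := by
    by_cases hex : ∃ m : ℤ, 0 < (x - (w + m)) * (w + m - z)
    · obtain ⟨m, hm⟩ := hex
      set p := x - (w + m) with hp
      set q := w + m - z with hq
      have hpq : |p + q| < 1 := by
        rw [hp, hq, show x - (w + (m : ℝ)) + (w + m - z) = x - z by ring]
        exact hxz
      have hpq2 := abs_lt.mp hpq
      have hp1 : |p| < 1 := by
        rw [abs_lt]
        rcases pos_and_pos_or_neg_and_neg_of_mul_pos hm with ⟨h1, h2⟩ | ⟨h1, h2⟩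
        · constructor <;> linarith
        · constructor <;> linarith
      have hq1 : |q| < 1 := by
        rw [abs_lt]
        rcases pos_and_pos_or_neg_and_neg_of_mul_pos hm with ⟨h1, h2⟩ | ⟨h1, h2⟩
        · constructor <;> linarith
        · constructor <;> linarith
      have hbm : 0 < s p * s q := mul_pos (s_pos hp1) (s_pos hq1)
      have h := align_B ha hb hnn (hn x z) m hbm.ne' (mul_pos hR hbm).le (by
        intro n hnm
        have hd1 : (1 : ℤ) ≤ m - n ∨ m - n ≤ -1 := by omega
        have e1 : x - (w + n) = p + ((m - n : ℤ) : ℝ) := by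
          rw [hp]
          push_cast
          ring
        have e2 : w + n - z = q - ((m - n : ℤ) : ℝ) := by
          rw [hq]
          push_cast
          ring
        have h1 : (x - (w + n)) * (w + n - z) < 0 := by
          rw [e1, e2]
          have p1 := abs_lt.mp hp1
          have q1 := abs_lt.mp hq1
          rcases hd1 with h | h
          · have h2 : (1 : ℝ) ≤ ((m - n : ℤ) : ℝ) := by exact_mod_cast h
            exact mul_neg_of_pos_of_neg (by linarith) (by linarith)
          · have h2 : ((m - n : ℤ) : ℝ) ≤ -1 := by exact_mod_cast h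
            exact mul_neg_of_neg_of_pos (by linarith) (by linarith)
        have h2 := hc n
        have h3 := hc m
        rw [← hp, ← hq] at h3
        have h4 : 0 < s p * s q * (Real.pi ^ 2 * (p * q)) := mul_pos hbm (by positivity)
        rw [h3, ← h2] at h4
        have h5 : Real.pi ^ 2 * ((x - (w + n)) * (w + n - z)) < 0 :=
          mul_neg_of_pos_of_neg (by positivity) h1
        have h6 : s (x - (w + n)) * s (w + n - z) < 0 := by
          by_contra h7
          push Not at h7
          have := mul_nonpos_of_nonneg_of_nonpos h7 h5.le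
          linarith
        exact mul_nonpos_of_nonpos_of_nonneg h6.le hbm.le) 0
      simpa using h
    · push Not at hex
      have h := align_A ha hb hnn (hn x z) (by
        intro n
        apply mul_nonneg _ hR.le
        by_contra h1
        push Not at h1
        have h2 : (x - (w + n)) * (w + n - z) ≠ 0 := by
          intro h3
          rcases mul_eq_zero.mp h3 with h4 | h4
          · have h5 : w + n - z = x - z := by linarith
            rw [h4, h5, s_zero, one_mul] at h1
            linarith
          · have h5 : x - (w + n) = x - z := by linarith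
            rw [h4, h5, s_zero, mul_one] at h1
            linarith
        have h3 : (x - (w + n)) * (w + n - z) < 0 := lt_of_le_of_ne (hex n) h2
        have h4 : 0 < Real.sin (Real.pi * (x - w)) * Real.sin (Real.pi * (w - z)) := by
          rw [← hc n]
          exact mul_pos_of_neg_of_neg h1 (mul_neg_of_pos_of_neg (by positivity) h3)
        have h5 : ∀ k : ℤ, s (x - (w + k)) * s (w + k - z) ≤ 0 := by
          intro k
          by_contra h6
          push Not at h6
          have h7 := hc k
          have h8 : s (x - (w + k)) * s (w + k - z) * (Real.pi ^ 2 * ((x - (w + k)) * (w + k - z))) ≤ 0 :=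
            mul_nonpos_of_nonneg_of_nonpos h6.le
              (mul_nonpos_of_nonneg_of_nonpos (by positivity) (hex k))
          linarith
        have h6 : s (x - z) ≤ 0 := hb.nonpos h5
        linarith) 0
      simpa using h
  rw [hh] at main
  rw [main, show z - x = -(x - z) by ring, s_even]

/-- not an integer -/
def NI (x : ℝ) : Prop := ∀ n : ℤ, x ≠ n

/-- the gauge at the points that are not integers -/
theorem gauge {K : ℝ → ℝ → ℂ} (hK : PSDk K) (hd : ∀ x, K x x = 1)
    (hn : ∀ x y, ‖K x y‖ = |s (x - y)|) (hh : ∀ x y, conj (K x y) = K y x) :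
    ∃ f : ℝ → ℂ, (∀ x, NI x → ‖f x‖ = 1) ∧ ∀ x z, NI x → NI z →
      K x z = f x * conj (f z) * (s (x - z) : ℂ) := by
  set f : ℝ → ℂ := fun x => K x 0 / (s x : ℂ) with hf
  have hf1 : ∀ x, NI x → ‖f x‖ = 1 := by
    intro x hx
    simp only [hf]
    rw [norm_div, hn, sub_zero, Complex.norm_real, Real.norm_eq_abs,
      div_self (abs_ne_zero.mpr (s_ne hx))]
  have hf2 : ∀ x, NI x → f x * conj (f x) = 1 := by
    intro x hx
    rw [Complex.mul_conj, Complex.normSq_eq_norm_sq, hf1 x hx]
    simp
  have hf3 : ∀ x, NI x → K x 0 = f x * (s x : ℂ) := by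
    intro x hx
    simp only [hf]
    rw [div_mul_cancel₀]
    exact_mod_cast s_ne hx
  have near : ∀ x z, NI x → NI z → |x - z| < 1 →
      K x z = f x * conj (f z) * (s (x - z) : ℂ) := by
    intro x z hx hz hxz
    have h1 := triple hK hd hn hh z x 0 (by rwa [abs_sub_comm])
    rw [← hh x 0, hf3 x hx, hf3 z hz, map_mul, Complex.conj_ofReal, sub_zero, zero_sub, s_even] at h1
    have h2 : (s z : ℂ) ≠ 0 := by exact_mod_cast s_ne hz
    have h3 : (s x : ℂ) ≠ 0 := by exact_mod_cast s_ne hx
    have h4 : f z * conj (f x) * K x z = (s (x - z) : ℂ) := by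
      have h5 : ((s z : ℂ) * (s x : ℂ)) * (f z * conj (f x) * K x z) =
          ((s z : ℂ) * (s x : ℂ)) * (s (x - z) : ℂ) := by
        push_cast at h1
        calc ((s z : ℂ) * (s x : ℂ)) * (f z * conj (f x) * K x z) =
            f z * (s z : ℂ) * (conj (f x) * (s x : ℂ)) * K x z := by ring
          _ = _ := by rw [h1]
      exact mul_left_cancel₀ (mul_ne_zero h2 h3) h5
    have h6 := hf2 x hx
    have h7 := hf2 z hz
    calc K x z = (f x * conj (f x)) * (f z * conj (f z)) * K x z := by rw [h6, h7]; ring
      _ = f x * conj (f z) * (f z * conj (f x) * K x z) := by ring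
      _ = _ := by rw [h4]
  have far : ∀ k : ℕ, ∀ x z, NI x → NI z → |x - z| < ((k : ℝ) + 2) / 2 →
      K x z = f x * conj (f z) * (s (x - z) : ℂ) := by
    intro k
    induction k with
    | zero =>
      intro x z hx hz hxz
      exact near x z hx hz (by norm_num at hxz; exact hxz)
    | succ k ih =>
      -- the step for `z < x`
      have step : ∀ x w, NI x → NI w → 1 ≤ x - w →
          x - w < ((k + 1 : ℕ) + 2 : ℝ) / 2 → K x w = f x * conj (f w) * (s (x - w) : ℂ) := by
        intro x w hx hw h1 h2
        obtain ⟨z, hz, hz1⟩ : ∃ z ∈ (range (fun n : ℤ => (n : ℝ)) ∪ range (fun n : ℤ => w + (n : ℝ)))ᶜ,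
            z ∈ Ioo (x - 3 / 4) (x - 1 / 2) := by
          have hcount : (range (fun n : ℤ => (n : ℝ)) ∪ range (fun n : ℤ => w + (n : ℝ))).Countable :=
            (countable_range _).union (countable_range _)
          have hdense := hcount.dense_compl ℝ
          obtain ⟨z, hz1, hz2⟩ := hdense.inter_open_nonempty (Ioo (x - 3 / 4) (x - 1 / 2)) isOpen_Ioo
            ⟨x - 5 / 8, by constructor <;> linarith⟩
          exact ⟨z, hz2, hz1⟩
        have hz2 : NI z := fun n h => hz (Or.inl ⟨n, h.symm⟩)
        have hz3 : ∀ n : ℤ, z - w ≠ n := fun n h => hz (Or.inr ⟨n, by simp only; linarith⟩)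
        have h3 := triple hK hd hn hh x z w (by
          rw [abs_of_pos (by linarith [hz1.2])]
          linarith [hz1.1])
        have h4 := near z x hz2 hx (by
          rw [abs_of_neg (by linarith [hz1.2])]
          linarith [hz1.1])
        have h5 := ih z w hz2 hw (by
          rw [abs_of_pos (by linarith [hz1.1])]
          push_cast at h2
          linarith [hz1.2])
        have h6 : K w z = f w * conj (f z) * (s (z - w) : ℂ) := by
          rw [← hh z w, h5, map_mul, map_mul, Complex.conj_conj, Complex.conj_ofReal]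
          ring
        rw [h4, h6, show w - z = -(z - w) by ring, s_even] at h3
        have h7 : (s (z - w) : ℂ) ≠ 0 := by exact_mod_cast s_ne hz3
        have h8 : (s (z - x) : ℂ) ≠ 0 := by
          have : s (z - x) ≠ 0 := (s_pos (by
            rw [abs_of_neg (by linarith [hz1.2])]
            linarith [hz1.1])).ne'
          exact_mod_cast this
        have h9 : ((s (z - w) : ℂ) * (s (z - x) : ℂ)) * (K x w * (f w * conj (f x))) =
            ((s (z - w) : ℂ) * (s (z - x) : ℂ)) * (s (x - w) : ℂ) := by
          push_cast at h3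
          have h10 := hf2 z hz2
          calc ((s (z - w) : ℂ) * (s (z - x) : ℂ)) * (K x w * (f w * conj (f x)))
              = (f z * conj (f z)) * (((s (z - w) : ℂ) * (s (z - x) : ℂ)) *
                (K x w * (f w * conj (f x)))) := by rw [h10, one_mul]
            _ = K x w * (f w * conj (f z) * (s (z - w) : ℂ)) * (f z * conj (f x) * (s (z - x) : ℂ)) := by
                ring
            _ = _ := by
                rw [h3]
                ring
        have h11 := mul_left_cancel₀ (mul_ne_zero h7 h8) h9
        have h12 := hf2 x hx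
        have h13 := hf2 w hw
        calc K x w = (f x * conj (f x)) * (f w * conj (f w)) * K x w := by rw [h12, h13]; ring
          _ = f x * conj (f w) * (K x w * (f w * conj (f x))) := by ring
          _ = _ := by rw [h11]
      intro x z hx hz hxz
      rcases lt_or_ge |x - z| 1 with h1 | h1
      · exact near x z hx hz h1
      · rcases le_total 0 (x - z) with h2 | h2
        · rw [abs_of_nonneg h2] at h1 hxz
          exact step x z hx hz h1 hxz
        · rw [abs_of_nonpos h2] at h1 hxz
          have h3 := step z x hz hx (by linarith) (by linarith)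
          rw [← hh z x, h3, map_mul, map_mul, Complex.conj_conj, Complex.conj_ofReal,
            show z - x = -(x - z) by ring, s_even]
          ring
  refine ⟨f, hf1, fun x z hx hz => ?_⟩
  obtain ⟨k, hk⟩ := exists_nat_gt (2 * |x - z|)
  exact far k x z hx hz (by linarith)

/-- all determinants are those of the sine kernel -/
theorem dets {K : ℝ → ℝ → ℂ} (hc : Continuous (Function.uncurry K)) (hK : PSDk K)
    (hd : ∀ x, K x x = 1) (hn : ∀ x y, ‖K x y‖ = |s (x - y)|) (hh : ∀ x y, conj (K x y) = K y x)
    {n : ℕ} (u : Fin n → ℝ) : (Matrix.of fun i j => K (u i) (u j)).det =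
      ((Matrix.of fun i j => s (u i - u j) : Matrix (Fin n) (Fin n) ℝ).det : ℂ) := by
  obtain ⟨f, hf1, hf⟩ := gauge hK hd hn hh
  have gen : ∀ v : Fin n → ℝ, (∀ i, ∀ m : ℤ, v i ≠ m) →
      (Matrix.of fun i j => K (v i) (v j)).det =
      ((Matrix.of fun i j => s (v i - v j) : Matrix (Fin n) (Fin n) ℝ).det : ℂ) := by
    intro v hv
    have h1 : (Matrix.of fun i j => K (v i) (v j)) =
        Matrix.diagonal (fun i => f (v i)) * (Matrix.of fun i j => (s (v i - v j) : ℂ)) *
          Matrix.diagonal (fun i => conj (f (v i))) := by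
      ext i j
      rw [Matrix.mul_diagonal, Matrix.diagonal_mul]
      simp only [Matrix.of_apply]
      rw [hf _ _ (hv i) (hv j)]
      ring
    have h2 : (Matrix.of fun i j => (s (v i - v j) : ℂ)) =
        (Matrix.of fun i j => s (v i - v j) : Matrix (Fin n) (Fin n) ℝ).map (Complex.ofRealHom) := by
      ext i j
      rfl
    have h3 : (∏ i, f (v i)) * ∏ i, conj (f (v i)) = 1 := by
      rw [← Finset.prod_mul_distrib]
      apply Finset.prod_eq_one
      intro i _
      rw [Complex.mul_conj, Complex.normSq_eq_norm_sq, hf1 _ (hv i)]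
      simp
    rw [h1, Matrix.det_mul, Matrix.det_mul, Matrix.det_diagonal, Matrix.det_diagonal, h2,
      ← RingHom.mapMatrix_apply, ← RingHom.map_det]
    calc (∏ i, f (v i)) * Complex.ofRealHom (Matrix.of fun i j => s (v i - v j)).det *
          ∏ i, conj (f (v i)) = ((∏ i, f (v i)) * ∏ i, conj (f (v i))) *
            Complex.ofRealHom (Matrix.of fun i j => s (v i - v j)).det := by ring
      _ = _ := by
          rw [h3, one_mul]
          rfl
  -- density
  have hcl : IsClosed {t : ℝ | (Matrix.of fun i j => K (u i + t) (u j + t)).det =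
      ((Matrix.of fun i j => s (u i - u j) : Matrix (Fin n) (Fin n) ℝ).det : ℂ)} := by
    apply isClosed_eq
    · apply Continuous.matrix_det
      apply continuous_matrix
      intro i j
      exact hc.comp ((continuous_const.add continuous_id).prodMk (continuous_const.add continuous_id))
    · exact continuous_const
  have hden : Dense {t : ℝ | (Matrix.of fun i j => K (u i + t) (u j + t)).det =
      ((Matrix.of fun i j => s (u i - u j) : Matrix (Fin n) (Fin n) ℝ).det : ℂ)} := by
    have hcount : (⋃ i : Fin n, range (fun m : ℤ => (m : ℝ) - u i)).Countable :=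
      countable_iUnion fun i => countable_range _
    apply (hcount.dense_compl ℝ).mono
    intro t ht
    have h1 := gen (fun i => u i + t) (by
      intro i m h
      apply ht
      rw [mem_iUnion]
      exact ⟨i, m, by simp only; linarith⟩)
    rw [Set.mem_ofPred_eq, h1]
    congr 3
    ext i j
    congr 1
    ring
  have h0 : (0 : ℝ) ∈ {t : ℝ | (Matrix.of fun i j => K (u i + t) (u j + t)).det =
      ((Matrix.of fun i j => s (u i - u j) : Matrix (Fin n) (Fin n) ℝ).det : ℂ)} := by
    rw [← hcl.closure_eq]
    exact hden 0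
  simpa using h0

end Pool.Agent.H34.DR
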