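import Mathlib
import Pool.Graph.R_seed8.TH873.EW.Ker

/-!
# Cosine transforms
-/

open Filter Topology MeasureTheory Set

namespace Pool.Agent.H34.DR

open Pool.Agent.TH873.EW (ct)

/-- the cosine transform on the line -/
noncomputable def cF (θ : ℝ → ℝ) (x : ℝ) : ℝ := ∫ α, θ α * Real.cos (2 * Real.pi * x * α)

/-- the even function on the line given by a function on `[0, 1]` -/
noncomputable def EV (μ : ℝ) (f : ℝ → ℝ) (α : ℝ) : ℝ := f (min 1 (|α| / μ))

theorem EV_even (μ : ℝ) (f : ℝ → ℝ) (α : ℝ) : EV μ f (-α) = EV μ f α := by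
  unfold EV
  rw [abs_neg]

theorem EV_zero {μ : ℝ} (hμ : 0 < μ) {f : ℝ → ℝ} (h1 : f 1 = 0) {α : ℝ} (h : μ ≤ |α|) :
    EV μ f α = 0 := by
  unfold EV
  rw [min_eq_left, h1]
  rwa [le_div_iff₀ hμ, one_mul]

theorem EV_cont {μ : ℝ} {f : ℝ → ℝ} (hf : Continuous f) : Continuous (EV μ f) := by
  unfold EV
  fun_prop

theorem EV_bound {μ : ℝ} (hμ : 0 < μ) {f : ℝ → ℝ} (hf : Continuous f) :
    ∃ C, 0 ≤ C ∧ ∀ α, |EV μ f α| ≤ C := by
  obtain ⟨C, hC⟩ := (isCompact_Icc (a := (0 : ℝ)) (b := 1)).exists_bound_of_continuousOn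
    hf.continuousOn
  refine ⟨|C|, abs_nonneg _, fun α => ?_⟩
  have h1 := hC (min 1 (|α| / μ)) ⟨le_min zero_le_one (by positivity), min_le_left _ _⟩
  exact h1.trans (le_abs_self C)

theorem EV_int {μ : ℝ} (hμ : 0 < μ) {f : ℝ → ℝ} (hf : Continuous f) (h1 : f 1 = 0) :
    Integrable (EV μ f) := by
  apply (EV_cont hf).integrable_of_hasCompactSupport
  apply HasCompactSupport.of_support_subset_isCompact (isCompact_Icc (a := -μ) (b := μ))
  intro α hα
  rw [Function.mem_support] at hα
  by_contra h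
  apply hα
  apply EV_zero hμ h1
  by_contra h2
  push Not at h2
  exact h (abs_le.mp h2.le)

/-- integrals against an even function on `[-μ, μ]` -/
theorem EV_integral {μ : ℝ} (hμ : 0 < μ) {f : ℝ → ℝ} (h1 : f 1 = 0) (c : ℝ → ℝ) :
    ∫ α, EV μ f α * c |α| = 2 * μ * ∫ t in (0 : ℝ)..1, f t * c (μ * t) := by
  have e1 : ∀ α : ℝ, EV μ f α * c |α| = (fun α => f (min 1 (α / μ)) * c α) |α| := fun α => rfl
  simp_rw [e1]
  rw [integral_comp_abs (f := fun α => f (min 1 (α / μ)) * c α)]
  have e2 : ∫ α in Ioi (0 : ℝ), f (min 1 (α / μ)) * c α =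
      ∫ α in (0 : ℝ)..μ, f (min 1 (α / μ)) * c α := by
    rw [intervalIntegral.integral_of_le hμ.le]
    apply setIntegral_eq_of_subset_of_forall_sdiff_eq_zero measurableSet_Ioi
    · intro x hx
      exact hx.1
    · intro x hx
      have h2 : μ < x := by
        by_contra h3
        push Not at h3
        exact hx.2 ⟨hx.1, h3⟩
      rw [min_eq_left ((one_le_div hμ).mpr h2.le), h1, zero_mul]
  rw [e2]
  have e3 := intervalIntegral.integral_comp_mul_left (a := (0 : ℝ)) (b := 1)
    (fun α => f (min 1 (α / μ)) * c α) hμ.ne'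
  rw [mul_zero, mul_one, smul_eq_mul] at e3
  have e4 : ∫ t in (0 : ℝ)..1, f (min 1 (μ * t / μ)) * c (μ * t) =
      ∫ t in (0 : ℝ)..1, f t * c (μ * t) := by
    apply intervalIntegral.integral_congr
    intro t ht
    rw [uIcc_of_le zero_le_one] at ht
    simp only
    rw [mul_div_cancel_left₀ _ hμ.ne', min_eq_right ht.2]
  rw [e4] at e3
  rw [e3]
  field_simp

theorem cF_EV {μ : ℝ} (hμ : 0 < μ) {f : ℝ → ℝ} (h1 : f 1 = 0) (x : ℝ) :
    cF (EV μ f) x = μ * ct f (μ * x) := by
  unfold cF ct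
  have e : ∀ α : ℝ, Real.cos (2 * Real.pi * x * α) = Real.cos (2 * Real.pi * x * |α|) := by
    intro α
    rcases abs_choice α with h | h
    · rw [h]
    · rw [h, mul_neg, Real.cos_neg]
  have e0 : ∫ α, EV μ f α * Real.cos (2 * Real.pi * x * α) =
      ∫ α, EV μ f α * (fun α => Real.cos (2 * Real.pi * x * α)) |α| := by
    congr 1
    ext α
    rw [e]
  rw [e0, EV_integral hμ h1 (fun α => Real.cos (2 * Real.pi * x * α))]
  have e2 : ∫ t in (0 : ℝ)..1, f t * Real.cos (2 * Real.pi * x * (μ * t)) =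
      ∫ t in (0 : ℝ)..1, f t * Real.cos (2 * Real.pi * (μ * x) * t) := by
    apply intervalIntegral.integral_congr
    intro t _
    simp only
    congr 2
    ring
  rw [e2]
  ring

/-- the decay of the cosine transform -/
theorem ct_decay2 {g : ℝ → ℝ} (hg : ContDiff ℝ 2 g) (h1 : g 1 = 0) :
    ∃ C : ℝ, 0 < C ∧ ∀ x : ℝ, |ct g x| ≤ C / (1 + x ^ 2) := by
  have hg1 : ContDiff ℝ 1 g := hg.of_le (by norm_num)
  have hdg : ContDiff ℝ 1 (deriv g) := by
    have : ContDiff ℝ (1 + 1) g := by
      convert hg using 1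
      norm_num
    exact (contDiff_succ_iff_deriv.mp this).2.2
  have hd : Continuous (deriv g) := hg1.continuous_deriv le_rfl
  have hdd : Continuous (deriv (deriv g)) := hdg.continuous_deriv le_rfl
  obtain ⟨M0, hM0⟩ := isCompact_Icc.exists_bound_of_continuousOn (s := Set.Icc (0 : ℝ) 1)
    hg.continuous.continuousOn
  obtain ⟨M1, hM1⟩ := isCompact_Icc.exists_bound_of_continuousOn (s := Set.Icc (0 : ℝ) 1)
    hd.continuousOn
  obtain ⟨M2, hM2⟩ := isCompact_Icc.exists_bound_of_continuousOn (s := Set.Icc (0 : ℝ) 1)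
    hdd.continuousOn
  set B : ℝ := |M0| + |M1| + |M2| + 1 with hB
  have hB0 : 0 < B := by positivity
  have bx : ∀ x : ℝ, |ct g x| ≤ 2 * B := by
    intro x
    unfold ct
    have h2 : ‖∫ t in (0 : ℝ)..1, g t * Real.cos (2 * Real.pi * x * t)‖ ≤ |M0| * |1 - 0| := by
      apply intervalIntegral.norm_integral_le_of_norm_le_const
      intro t ht
      rw [Set.uIoc_of_le zero_le_one] at ht
      rw [norm_mul]
      have h3 := (hM0 t ⟨ht.1.le, ht.2⟩).trans (le_abs_self M0)
      have h4 : ‖Real.cos (2 * Real.pi * x * t)‖ ≤ 1 := by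
        rw [Real.norm_eq_abs]; exact Real.abs_cos_le_one _
      calc ‖g t‖ * ‖Real.cos (2 * Real.pi * x * t)‖ ≤ |M0| * 1 := by gcongr
        _ = |M0| := mul_one _
    rw [sub_zero, abs_one, mul_one, Real.norm_eq_abs] at h2
    rw [abs_mul, abs_of_pos (two_pos : (0 : ℝ) < 2)]
    have := abs_nonneg M1
    have := abs_nonneg M2
    linarith
  have bx2 : ∀ x : ℝ, x ^ 2 * |ct g x| ≤ 2 * B := by
    intro x
    rcases eq_or_ne x 0 with hx | hx
    · rw [hx]
      simp
      positivity
    set a : ℝ := 2 * Real.pi * x with ha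
    have ha0 : a ≠ 0 := by
      rw [ha]
      have := Real.pi_pos.ne'
      positivity
    have hsin : ∀ t : ℝ, HasDerivAt (fun t => Real.sin (a * t) / a) (Real.cos (a * t)) t := by
      intro t
      have h1 : HasDerivAt (fun t : ℝ => a * t) a t := by
        simpa using (hasDerivAt_id t).const_mul a
      refine (h1.sin.div_const a).congr_deriv ?_
      field_simp
    have hcos : ∀ t : ℝ, HasDerivAt (fun t => -Real.cos (a * t) / a ^ 2) (Real.sin (a * t) / a) t := by
      intro t
      have h1 : HasDerivAt (fun t : ℝ => a * t) a t := by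
        simpa using (hasDerivAt_id t).const_mul a
      refine (h1.cos.neg.div_const (a ^ 2)).congr_deriv ?_
      field_simp
    have cc : Continuous fun t : ℝ => Real.cos (a * t) := by fun_prop
    have cs : Continuous fun t : ℝ => Real.sin (a * t) / a := by fun_prop
    have p1 := intervalIntegral.integral_mul_deriv_eq_deriv_mul (a := (0 : ℝ)) (b := 1)
      (u := g) (u' := deriv g) (v := fun t => Real.sin (a * t) / a) (v' := fun t => Real.cos (a * t))
      (fun t _ => (hg1.differentiable one_ne_zero t).hasDerivAt) (fun t _ => hsin t)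
      (hd.intervalIntegrable _ _) (cc.intervalIntegrable _ _)
    have p2 := intervalIntegral.integral_mul_deriv_eq_deriv_mul (a := (0 : ℝ)) (b := 1)
      (u := deriv g) (u' := deriv (deriv g)) (v := fun t => -Real.cos (a * t) / a ^ 2)
      (v' := fun t => Real.sin (a * t) / a)
      (fun t _ => (hdg.differentiable one_ne_zero t).hasDerivAt) (fun t _ => hcos t)
      (hdd.intervalIntegrable _ _) (cs.intervalIntegrable _ _)
    have h2 : ‖∫ t in (0 : ℝ)..1, deriv (deriv g) t * (-Real.cos (a * t) / a ^ 2)‖ ≤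
        (|M2| / a ^ 2) * |1 - 0| := by
      apply intervalIntegral.norm_integral_le_of_norm_le_const
      intro t ht
      rw [Set.uIoc_of_le zero_le_one] at ht
      rw [norm_mul, norm_div, norm_neg, Real.norm_of_nonneg (sq_nonneg a)]
      have h3 := (hM2 t ⟨ht.1.le, ht.2⟩).trans (le_abs_self M2)
      have h4 : ‖Real.cos (a * t)‖ ≤ 1 := by
        rw [Real.norm_eq_abs]; exact Real.abs_cos_le_one _
      calc ‖deriv (deriv g) t‖ * (‖Real.cos (a * t)‖ / a ^ 2) ≤ |M2| * (1 / a ^ 2) := by gcongr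
        _ = |M2| / a ^ 2 := by ring
    rw [sub_zero, abs_one, mul_one, Real.norm_eq_abs] at h2
    have q1 := (hM1 1 ⟨zero_le_one, le_rfl⟩).trans (le_abs_self M1)
    have q0 := (hM1 0 ⟨le_rfl, zero_le_one⟩).trans (le_abs_self M1)
    rw [Real.norm_eq_abs] at q1 q0
    have e : ct g x = 2 * ((deriv g 1 * Real.cos a - deriv g 0) / a ^ 2 +
        ∫ t in (0 : ℝ)..1, deriv (deriv g) t * (-Real.cos (a * t) / a ^ 2)) := by
      unfold ct
      have e0 : ∀ t : ℝ, 2 * Real.pi * x * t = a * t := fun t => rfl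
      simp_rw [e0]
      rw [p1, p2, h1]
      simp only [mul_zero, Real.sin_zero, zero_div, Real.cos_zero, mul_one, zero_mul]
      ring
    have h5 : |(deriv g 1 * Real.cos a - deriv g 0) / a ^ 2| ≤ 2 * |M1| / a ^ 2 := by
      rw [abs_div, abs_of_nonneg (sq_nonneg a)]
      apply div_le_div_of_nonneg_right _ (sq_nonneg a)
      refine (abs_sub _ _).trans ?_
      rw [abs_mul]
      have := Real.abs_cos_le_one a
      nlinarith [abs_nonneg (deriv g 1), abs_nonneg (Real.cos a)]
    have h6 : |ct g x| ≤ 2 * (2 * |M1| / a ^ 2 + |M2| / a ^ 2) := by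
      rw [e, abs_mul, abs_of_pos (two_pos : (0 : ℝ) < 2)]
      apply mul_le_mul_of_nonneg_left _ two_pos.le
      exact (abs_add_le _ _).trans (add_le_add h5 h2)
    have ha2 : 4 * x ^ 2 ≤ a ^ 2 := by
      rw [ha]
      have := Real.pi_gt_three
      have h7 : (2 * Real.pi * x) ^ 2 = (2 * Real.pi) ^ 2 * x ^ 2 := by ring
      rw [h7]
      apply mul_le_mul_of_nonneg_right _ (sq_nonneg x)
      nlinarith
    have ha3 : 0 < a ^ 2 := by positivity
    calc x ^ 2 * |ct g x| ≤ x ^ 2 * (2 * (2 * |M1| / a ^ 2 + |M2| / a ^ 2)) :=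
          mul_le_mul_of_nonneg_left h6 (sq_nonneg x)
      _ = (4 * x ^ 2) / a ^ 2 * (|M1| + |M2| / 2) := by
          field_simp
          ring
      _ ≤ 1 * (|M1| + |M2| / 2) := by
          apply mul_le_mul_of_nonneg_right _ (by positivity)
          rw [div_le_one ha3]
          exact ha2
      _ ≤ 2 * B := by
          have := abs_nonneg M0
          have := abs_nonneg M1
          have := abs_nonneg M2
          linarith
  refine ⟨4 * B, by positivity, fun x => ?_⟩
  rw [le_div_iff₀ (by positivity)]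
  nlinarith [bx x, bx2 x]

/-- inversion of the cosine transform -/
theorem cF_inv {θ : ℝ → ℝ} (hθ : Continuous θ) (hi : Integrable θ) (he : ∀ x, θ (-x) = θ x)
    (hc : Integrable (cF θ)) (z : ℝ) : cF (cF θ) z = θ z := by
  have key : ∀ (φ : ℝ → ℝ), Integrable φ → (∀ x, φ (-x) = φ x) → ∀ w : ℝ,
      (∫ α, Complex.exp ((2 * Real.pi * w * α : ℝ) * Complex.I) * (φ α : ℂ)) = (cF φ w : ℂ) := by
    intro φ hφ hev w
    have e1 : ∀ α : ℝ, Complex.exp ((2 * Real.pi * w * α : ℝ) * Complex.I) * (φ α : ℂ) =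
        ((φ α * Real.cos (2 * Real.pi * w * α) : ℝ) : ℂ) +
          ((φ α * Real.sin (2 * Real.pi * w * α) : ℝ) : ℂ) * Complex.I := by
      intro α
      rw [Complex.exp_mul_I, ← Complex.ofReal_cos, ← Complex.ofReal_sin]
      push_cast
      ring
    simp_rw [e1]
    have i1 : Integrable (fun α => φ α * Real.cos (2 * Real.pi * w * α)) :=
      hφ.mul_bdd (c := 1) (by fun_prop) (Eventually.of_forall fun α => by
        rw [Real.norm_eq_abs]; exact Real.abs_cos_le_one _)
    have i2 : Integrable (fun α => φ α * Real.sin (2 * Real.pi * w * α)) :=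
      hφ.mul_bdd (c := 1) (by fun_prop) (Eventually.of_forall fun α => by
        rw [Real.norm_eq_abs]; exact Real.abs_sin_le_one _)
    rw [integral_add i1.ofReal (i2.ofReal.mul_const _), integral_mul_const]
    have e2 : ∫ α, φ α * Real.sin (2 * Real.pi * w * α) = 0 := by
      have h1 := integral_neg_eq_self (fun α => φ α * Real.sin (2 * Real.pi * w * α)) volume
      have h2 : ∫ α, φ (-α) * Real.sin (2 * Real.pi * w * -α) =
          -∫ α, φ α * Real.sin (2 * Real.pi * w * α) := by
        rw [← integral_neg]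
        congr 1
        ext α
        rw [hev, mul_neg, Real.sin_neg, mul_neg]
      linarith
    have e3 : ∫ α, ((φ α * Real.sin (2 * Real.pi * w * α) : ℝ) : ℂ) = 0 := by
      rw [integral_complex_ofReal, e2, Complex.ofReal_zero]
    rw [e3, zero_mul, add_zero, integral_complex_ofReal]
    rfl
  have hF : FourierTransform.fourier (fun α => (θ α : ℂ)) = fun w => (cF θ w : ℂ) := by
    ext w
    rw [Real.fourier_real_eq_integral_exp_smul]
    have h1 := key θ hi he (-w)
    have h2 : cF θ (-w) = cF θ w := by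
      unfold cF
      congr 1
      ext α
      rw [show 2 * Real.pi * -w * α = -(2 * Real.pi * w * α) by ring, Real.cos_neg]
    rw [h2] at h1
    rw [← h1]
    congr 1
    ext α
    rw [smul_eq_mul]
    congr 2
    push_cast
    ring
  have hcF : ∀ w, cF θ (-w) = cF θ w := by
    intro w
    unfold cF
    congr 1
    ext α
    rw [show 2 * Real.pi * -w * α = -(2 * Real.pi * w * α) by ring, Real.cos_neg]
  have hinv := Continuous.fourierInv_fourier_eq (f := fun α => (θ α : ℂ))
    (Complex.continuous_ofReal.comp hθ) hi.ofReal (by rw [hF]; exact hc.ofReal)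
  have h1 := congrFun hinv z
  rw [hF, Real.fourierInv_eq'] at h1
  have h2 := key (cF θ) hc hcF z
  have h3 : ∫ v : ℝ, Complex.exp ((2 * Real.pi * inner ℝ v z : ℝ) * Complex.I) • (cF θ v : ℂ) =
      ∫ α, Complex.exp ((2 * Real.pi * z * α : ℝ) * Complex.I) * (cF θ α : ℂ) := by
    congr 1
    ext α
    rw [smul_eq_mul]
    congr 4
    simp
    ring
  have h4 : (cF (cF θ) z : ℂ) = (θ z : ℂ) := by
    rw [← h2, ← h3]
    exact_mod_cast h1
  exact_mod_cast h4

end Pool.Agent.H34.DR
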