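import Pool.Agent.H34.DR.Pos

/-!
# A positive definite function with the values of Montgomery's theorem
-/

open Filter Topology MeasureTheory Set

namespace Pool.Agent.H34.DR

open Pool.Agent.TH873.EW (ct)

/-- the tent -/
noncomputable def lam (α : ℝ) : ℝ := max (1 - |α|) 0

theorem lam_cont : Continuous lam := by
  unfold lam
  fun_prop

theorem lam_nonneg (α : ℝ) : 0 ≤ lam α := le_max_right _ _

theorem lam_le (α : ℝ) : lam α ≤ 1 := by
  unfold lam
  apply max_le _ zero_le_one
  have := abs_nonneg α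
  linarith

theorem lam_eq : lam = EV 1 (fun t => 1 - t) := by
  ext α
  unfold lam EV
  simp only [div_one]
  rcases le_total 1 |α| with h | h
  · rw [min_eq_left h, max_eq_right (by linarith)]
    norm_num
  · rw [min_eq_right h, max_eq_left (by linarith)]

theorem lam_int : Integrable lam := by
  rw [lam_eq]
  exact EV_int one_pos (by fun_prop) (by norm_num)

theorem lam_integral : ∫ α, lam α = 1 := by
  have h := EV_integral (μ := 1) one_pos (f := fun t => 1 - t) (by norm_num) (fun _ => 1)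
  rw [← lam_eq] at h
  simp only [mul_one] at h
  rw [h, intervalIntegral.integral_sub intervalIntegrable_const (by
    exact continuous_id.intervalIntegrable _ _)]
  simp
  norm_num

theorem cF_cont {θ : ℝ → ℝ} (hθ : Integrable θ) : Continuous (cF θ) := by
  unfold cF
  apply continuous_of_dominated (bound := fun α => |θ α|)
  · intro x
    exact hθ.aestronglyMeasurable.mul (by fun_prop : Continuous fun α : ℝ =>
      Real.cos (2 * Real.pi * x * α)).aestronglyMeasurable
  · intro x
    apply Eventually.of_forall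
    intro α
    rw [Real.norm_eq_abs, abs_mul]
    calc |θ α| * |Real.cos (2 * Real.pi * x * α)| ≤ |θ α| * 1 :=
          mul_le_mul_of_nonneg_left (Real.abs_cos_le_one _) (abs_nonneg _)
      _ = |θ α| := mul_one _
  · exact hθ.abs
  · apply Eventually.of_forall
    intro α
    fun_prop

theorem cF_even (θ : ℝ → ℝ) (x : ℝ) : cF θ (-x) = cF θ x := by
  unfold cF
  congr 1
  ext α
  rw [show 2 * Real.pi * -x * α = -(2 * Real.pi * x * α) by ring, Real.cos_neg]

theorem cF_mul_cos {φ : ℝ → ℝ} (hφ : Integrable φ) (u x : ℝ) :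
    cF (fun α => φ α * Real.cos (2 * Real.pi * u * α)) x = (cF φ (x - u) + cF φ (x + u)) / 2 := by
  unfold cF
  have i : ∀ w : ℝ, Integrable (fun α => φ α * Real.cos (2 * Real.pi * w * α)) := fun w =>
    hφ.mul_bdd (c := 1) (by fun_prop) (Eventually.of_forall fun α => by
      rw [Real.norm_eq_abs]; exact Real.abs_cos_le_one _)
  rw [← integral_add (i _) (i _), ← integral_div]
  congr 1
  ext α
  rw [show 2 * Real.pi * (x - u) * α = 2 * Real.pi * x * α - 2 * Real.pi * u * α by ring,
    show 2 * Real.pi * (x + u) * α = 2 * Real.pi * x * α + 2 * Real.pi * u * α by ring,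
    Real.cos_sub, Real.cos_add]
  ring

theorem EV_mul_cos {μ : ℝ} (hμ : 0 < μ) {f : ℝ → ℝ} (h1 : f 1 = 0) (u α : ℝ) :
    EV μ f α * Real.cos (2 * Real.pi * u * α) =
      EV μ (fun t => f t * Real.cos (2 * Real.pi * u * μ * t)) α := by
  rcases le_or_gt μ |α| with h | h
  · rw [EV_zero hμ h1 h, EV_zero hμ (by show f 1 * _ = 0; rw [h1, zero_mul]) h, zero_mul]
  · unfold EV
    simp only
    have h2 : |α| / μ ≤ 1 := by
      rw [div_le_one hμ]
      exact h.le
    rw [min_eq_right h2]
    congr 1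
    have e : 2 * Real.pi * u * μ * (|α| / μ) = 2 * Real.pi * u * |α| := by
      field_simp
    rw [e]
    rcases abs_choice α with h3 | h3
    · rw [h3]
    · rw [h3, mul_neg, Real.cos_neg]

theorem cF_decay {f : ℝ → ℝ} (hf : ContDiff ℝ 2 f) (h1 : f 1 = 0) {μ : ℝ} (hμ : 0 < μ)
    (hμ1 : μ < 1) : ∃ C, ∀ x, |cF (EV μ f) x| ≤ C / (1 + x ^ 2) := by
  obtain ⟨C, hC0, hC⟩ := ct_decay2 hf h1
  refine ⟨C / μ, fun x => ?_⟩
  rw [cF_EV hμ h1, abs_mul, abs_of_pos hμ]
  have h2 := hC (μ * x)
  have h3 : μ ^ 2 * (1 + x ^ 2) ≤ 1 + (μ * x) ^ 2 := by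
    nlinarith
  calc μ * |ct f (μ * x)| ≤ μ * (C / (1 + (μ * x) ^ 2)) := mul_le_mul_of_nonneg_left h2 hμ.le
    _ ≤ μ * (C / (μ ^ 2 * (1 + x ^ 2))) := by
        apply mul_le_mul_of_nonneg_left _ hμ.le
        apply div_le_div_of_nonneg_left hC0.le (by positivity) h3
    _ = C / μ / (1 + x ^ 2) := by
        field_simp

theorem PDr.shift {g : ℝ → ℝ} (hP : PDr g) (u s : ℝ) (hs : s ^ 2 = 1) :
    PDr (fun x => 2 * g x + s * (g (x + u) + g (x - u))) := by
  intro ι _ x w
  have h := hP (ι ⊕ ι) (Sum.elim (fun i => x i + u) x) (Sum.elim w (fun i => s * w i))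
  simp only [Fintype.sum_sum_type, Sum.elim_inl, Sum.elim_inr] at h
  refine h.trans (le_of_eq ?_)
  rw [← Finset.sum_add_distrib]
  apply Finset.sum_congr rfl
  intro i _
  rw [← Finset.sum_add_distrib, ← Finset.sum_add_distrib, ← Finset.sum_add_distrib]
  apply Finset.sum_congr rfl
  intro j _
  have e1 : x i + u - (x j + u) = x i - x j := by ring
  have e2 : x i + u - x j = x i - x j + u := by ring
  have e3 : x i - (x j + u) = x i - x j - u := by ring
  rw [e1, e2, e3]
  linear_combination w i * w j * g (x i - x j) * hs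

theorem shift_int {g ψ : ℝ → ℝ} (hg : Continuous g) {B : ℝ} (hB : ∀ x, |g x| ≤ B)
    (hψ : Integrable ψ) (hφ : Integrable (cF ψ)) (u : ℝ) :
    ∫ x, cF ψ x * (g (x + u) + g (x - u)) =
      2 * ∫ x, cF (fun α => ψ α * Real.cos (2 * Real.pi * u * α)) x * g x := by
  have h1 : ∫ x, cF ψ x * g (x + u) = ∫ x, cF ψ (x - u) * g x := by
    have := integral_sub_right_eq_self (μ := volume) (fun x => cF ψ x * g (x + u)) u
    rw [← this]
    congr 1
    ext x
    rw [sub_add_cancel]
  have h2 : ∫ x, cF ψ x * g (x - u) = ∫ x, cF ψ (x + u) * g x := by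
    have := integral_add_right_eq_self (μ := volume) (fun x => cF ψ x * g (x - u)) u
    rw [← this]
    congr 1
    ext x
    rw [add_sub_cancel_right]
  have j : ∀ {k h : ℝ → ℝ}, Integrable k → Continuous h → (∀ x, |h x| ≤ B) →
      Integrable (fun x => k x * h x) := by
    intro k h hk hh hb
    exact hk.mul_bdd (c := B) hh.aestronglyMeasurable (Eventually.of_forall hb)
  have i1 : Integrable (fun x => cF ψ x * g (x + u)) := j hφ (by fun_prop) (fun x => hB _)
  have i2 : Integrable (fun x => cF ψ x * g (x - u)) := j hφ (by fun_prop) (fun x => hB _)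
  have i3 : Integrable (fun x => cF ψ (x - u) * g x) := j (hφ.comp_sub_right u) hg hB
  have i4 : Integrable (fun x => cF ψ (x + u) * g x) := j (hφ.comp_add_right u) hg hB
  simp_rw [mul_add]
  rw [integral_add i1 i2, h1, h2, ← integral_add i3 i4, ← integral_const_mul]
  congr 1
  ext x
  rw [cF_mul_cos hψ]
  ring

/-- the values against the tent -/
noncomputable def LL (φ : ℝ → ℝ) : ℝ := ∫ α, φ α * lam α

theorem PDr.bound {g : ℝ → ℝ} (hP : PDr g) (he : ∀ x, g (-x) = g x) (x : ℝ) : |g x| ≤ g 0 := by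
  have key : ∀ σ : ℝ, σ ^ 2 = 1 → 0 ≤ 2 * g 0 + 2 * σ * g x := by
    intro σ hσ
    have h := hP Bool (fun b => if b then x else 0) (fun b => if b then 1 else σ)
    simp only [Fintype.sum_bool, if_true, Bool.false_eq_true, if_false, sub_self, sub_zero,
      zero_sub, he] at h
    refine h.trans (le_of_eq ?_)
    linear_combination g 0 * hσ
  have h1 := key 1 (by norm_num)
  have h2 := key (-1) (by norm_num)
  rw [abs_le]
  constructor <;> linarith

/-- the inequality -/
theorem ineq {g : ℝ → ℝ} (hg : Continuous g) (he : ∀ x, g (-x) = g x) (hP : PDr g)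
    (star : ∀ f : ℝ → ℝ, ContDiff ℝ 2 f → f 1 = 0 → ∀ μ : ℝ, 0 < μ → μ < 1 →
      ∫ x, cF (EV μ f) x * g x = LL (EV μ f))
    (f : ℝ → ℝ) (hf : ContDiff ℝ 2 f) (h1 : f 1 = 0) (μ : ℝ) (hμ : 0 < μ) (hμ1 : μ < 1) (u : ℝ) :
    |g u - LL (fun α => (2 * EV μ f α - EV μ f α ^ 2) * Real.cos (2 * Real.pi * u * α))| ≤
      g 0 - LL (fun α => 2 * EV μ f α - EV μ f α ^ 2) := by
  have hb : ∀ x, |g x| ≤ g 0 := hP.bound he
  have hg0 : 0 ≤ g 0 := (abs_nonneg _).trans (hb 0)
  set θ : ℝ → ℝ := EV μ f with hθ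
  set τ : ℝ → ℝ := cF θ with hτ
  have hfc := hf.continuous
  have f2 : ContDiff ℝ 2 (fun t => f t ^ 2) := hf.pow 2
  have fc : ContDiff ℝ 2 (fun t => f t * Real.cos (2 * Real.pi * u * μ * t)) :=
    hf.mul (Real.contDiff_cos.comp (contDiff_const.mul contDiff_id))
  have f2c : ContDiff ℝ 2 (fun t => f t ^ 2 * Real.cos (2 * Real.pi * u * μ * t)) :=
    f2.mul (Real.contDiff_cos.comp (contDiff_const.mul contDiff_id))
  have f21 : (fun t => f t ^ 2) 1 = 0 := by simp [h1]
  have θi : Integrable θ := EV_int hμ hfc h1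
  have θ2i : Integrable (fun α => θ α ^ 2) := EV_int hμ f2.continuous f21
  have θc : Continuous θ := EV_cont hfc
  have e1 : (fun α => θ α * Real.cos (2 * Real.pi * u * α)) =
      EV μ (fun t => f t * Real.cos (2 * Real.pi * u * μ * t)) := by
    ext α
    exact EV_mul_cos hμ h1 u α
  have e2 : (fun α => θ α ^ 2) = EV μ (fun t => f t ^ 2) := rfl
  have e3 : (fun α => θ α ^ 2 * Real.cos (2 * Real.pi * u * α)) =
      EV μ (fun t => f t ^ 2 * Real.cos (2 * Real.pi * u * μ * t)) := by
    ext α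
    exact EV_mul_cos hμ (f := fun t => f t ^ 2) f21 u α
  have A1 : ∫ x, τ x * g x = LL θ := star f hf h1 μ hμ hμ1
  have A2 := star _ fc (by show f 1 * _ = 0; rw [h1, zero_mul]) μ hμ hμ1
  rw [← e1] at A2
  have A3 : ∫ x, cF (fun α => θ α ^ 2) x * g x = LL (fun α => θ α ^ 2) :=
    star _ f2 f21 μ hμ hμ1
  have A4 := star _ f2c (by show f 1 ^ 2 * _ = 0; rw [h1]; ring) μ hμ hμ1
  rw [← e3] at A4
  obtain ⟨C, hC⟩ := cF_decay hf h1 hμ hμ1
  obtain ⟨C2, hC2⟩ := cF_decay f2 f21 hμ hμ1
  rw [← e2] at hC2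
  have τc : Continuous τ := cF_cont θi
  have τi : Integrable τ := int_of_decay τc hC
  have Qi : Integrable (cF (fun α => θ α ^ 2)) := int_of_decay (cF_cont θ2i) hC2
  have B1 := shift_int hg hb θi τi u
  have B2 := shift_int hg hb θ2i Qi u
  rw [A2] at B1
  rw [A4] at B2
  have key : ∀ s : ℝ, s ^ 2 = 1 → 0 ≤ (2 * g 0 + 2 * s * g u) - 2 * (2 * LL θ + s * (2 * LL (fun α => θ α *
      Real.cos (2 * Real.pi * u * α)))) + (2 * LL (fun α => θ α ^ 2) +
        s * (2 * LL (fun α => θ α ^ 2 * Real.cos (2 * Real.pi * u * α)))) := by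
    intro s hs
    have hs1 : |s| ≤ 1 := by
      rw [← sq_abs] at hs
      nlinarith [abs_nonneg s]
    set γ : ℝ → ℝ := fun x => 2 * g x + s * (g (x + u) + g (x - u)) with hγ
    have γc : Continuous γ := by
      rw [hγ]
      fun_prop
    have γe : ∀ x, γ (-x) = γ x := by
      intro x
      simp only [hγ]
      rw [he, show -x + u = -(x - u) by ring, show -x - u = -(x + u) by ring, he, he]
      ring
    have γB : ∀ x, |γ x| ≤ 4 * g 0 := by
      intro x
      simp only [hγ]
      have b1 := hb x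
      have b2 := abs_add_le (g (x + u)) (g (x - u))
      have b3 := hb (x + u)
      have b4 := hb (x - u)
      have b5 := abs_add_le (2 * g x) (s * (g (x + u) + g (x - u)))
      rw [abs_mul, abs_mul, abs_of_pos (two_pos : (0 : ℝ) < 2)] at b5
      have b6 : |s| * |g (x + u) + g (x - u)| ≤ 1 * (2 * g 0) :=
        mul_le_mul hs1 (by linarith) (abs_nonneg _) zero_le_one
      linarith
    have h2 := pos_sq γc γe (hP.shift u s hs) γB τc hC
    rw [double_int γc γB τi (cF_even θ)] at h2
    have h3 : ∀ z, ∫ y, τ y * τ (z - y) = cF (fun α => θ α ^ 2) z := fun z =>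
      conv_cF θc θi (EV_even μ f) hτ τi z
    simp_rw [h3] at h2
    have γ0 : γ 0 = 2 * g 0 + 2 * s * g u := by
      simp only [hγ]
      rw [zero_add, zero_sub, he]
      ring
    have j : ∀ {k h : ℝ → ℝ}, Integrable k → Continuous h → (∀ x, |h x| ≤ 2 * g 0) →
        Integrable (fun x => k x * h x) := by
      intro k h hk hh hb
      exact hk.mul_bdd (c := 2 * g 0) hh.aestronglyMeasurable (Eventually.of_forall hb)
    have expand : ∀ k : ℝ → ℝ, Integrable k → ∫ x, k x * γ x = 2 * (∫ x, k x * g x) +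
        s * ∫ x, k x * (g (x + u) + g (x - u)) := by
      intro k hk
      have i1 : Integrable (fun x => k x * g x) := j hk hg (fun x => (hb x).trans (by linarith))
      have i2 : Integrable (fun x => k x * (g (x + u) + g (x - u))) := j hk (by fun_prop) (fun x => by
        have b2 := abs_add_le (g (x + u)) (g (x - u))
        have b3 := hb (x + u)
        have b4 := hb (x - u)
        linarith)
      rw [← integral_const_mul, ← integral_const_mul, ← integral_add (i1.const_mul 2) (i2.const_mul s)]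
      congr 1
      ext x
      simp only [hγ]
      ring
    rw [γ0, expand τ τi, expand _ Qi, A1, B1, A3, B2] at h2
    exact h2
  -- linearity
  have bd : ∀ {k : ℝ → ℝ}, Integrable k → Integrable (fun α => k α * lam α) := fun hk =>
    hk.mul_bdd (c := 1) lam_cont.aestronglyMeasurable (Eventually.of_forall fun α => by
      rw [Real.norm_eq_abs, abs_of_nonneg (lam_nonneg α)]
      exact lam_le α)
  have cs : ∀ {k : ℝ → ℝ}, Integrable k →
      Integrable (fun α => k α * Real.cos (2 * Real.pi * u * α)) := fun hk =>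
    hk.mul_bdd (c := 1) (by fun_prop) (Eventually.of_forall fun α => by
      rw [Real.norm_eq_abs]; exact Real.abs_cos_le_one _)
  have l1 : LL (fun α => 2 * θ α - θ α ^ 2) = 2 * LL θ - LL (fun α => θ α ^ 2) := by
    unfold LL
    rw [← integral_const_mul, ← integral_sub ((bd θi).const_mul 2) (bd θ2i)]
    congr 1
    ext α
    ring
  have l2 : LL (fun α => (2 * θ α - θ α ^ 2) * Real.cos (2 * Real.pi * u * α)) =
      2 * LL (fun α => θ α * Real.cos (2 * Real.pi * u * α)) -
        LL (fun α => θ α ^ 2 * Real.cos (2 * Real.pi * u * α)) := by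
    unfold LL
    rw [← integral_const_mul, ← integral_sub ((bd (cs θi)).const_mul 2) (bd (cs θ2i))]
    congr 1
    ext α
    ring
  rw [l1, l2]
  have k1 := key 1 (by norm_num)
  have k2 := key (-1) (by norm_num)
  rw [abs_le]
  constructor <;> linarith

/-- the conclusion: the function is the transform of the tent -/
theorem g_eq {g : ℝ → ℝ} (hg : Continuous g) (he : ∀ x, g (-x) = g x) (hP : PDr g) (h0 : g 0 ≤ 1)
    (star : ∀ f : ℝ → ℝ, ContDiff ℝ 2 f → f 1 = 0 → ∀ μ : ℝ, 0 < μ → μ < 1 →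
      ∫ x, cF (EV μ f) x * g x = LL (EV μ f)) (u : ℝ) : g u = cF lam u := by
  have key : ∀ m : ℕ, ∀ μ : ℝ, 0 < μ → μ < 1 →
      |g u - cF lam u| ≤ 2 * ((1 - μ) ^ 2 + 2 / (m + 1)) := by
    intro m μ hμ hμ1
    have hf : ContDiff ℝ 2 (fun t : ℝ => 1 - t ^ (m + 1)) := by fun_prop
    have h1 : (fun t : ℝ => 1 - t ^ (m + 1)) 1 = 0 := by simp
    have h2 := ineq hg he hP star _ hf h1 μ hμ hμ1 u
    set θ : ℝ → ℝ := EV μ (fun t : ℝ => 1 - t ^ (m + 1)) with hθ
    have θ0 : ∀ α, 0 ≤ θ α ∧ θ α ≤ 1 := by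
      intro α
      have h3 : 0 ≤ min 1 (|α| / μ) := le_min zero_le_one (by positivity)
      have h4 : min 1 (|α| / μ) ≤ 1 := min_le_left _ _
      have h5 := pow_le_one₀ (n := m + 1) h3 h4
      have h6 := pow_nonneg h3 (m + 1)
      show 0 ≤ 1 - (min 1 (|α| / μ)) ^ (m + 1) ∧ 1 - (min 1 (|α| / μ)) ^ (m + 1) ≤ 1
      constructor <;> linarith
    have θc : Continuous θ := EV_cont hf.continuous
    have bd : ∀ {k : ℝ → ℝ}, Continuous k → (∀ α, |k α| ≤ 1) → Integrable (fun α => k α * lam α) := by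
      intro k hk hk1
      exact lam_int.bdd_mul (c := 1) hk.aestronglyMeasurable (Eventually.of_forall hk1)
    have d1 : ∀ α, 0 ≤ 1 - (2 * θ α - θ α ^ 2) ∧ 1 - (2 * θ α - θ α ^ 2) ≤ 1 ∧
        1 - (2 * θ α - θ α ^ 2) ≤ 1 - θ α := by
      intro α
      obtain ⟨a, b⟩ := θ0 α
      refine ⟨?_, ?_, ?_⟩ <;> nlinarith
    have i1 : Integrable (fun α => (2 * θ α - θ α ^ 2) * lam α) := bd (by fun_prop) (fun α => by
      obtain ⟨a, b, c⟩ := d1 α
      rw [abs_le]
      constructor <;> linarith)
    have i2 : Integrable (fun α => (2 * θ α - θ α ^ 2) * Real.cos (2 * Real.pi * u * α) * lam α) :=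
      bd (by fun_prop) (fun α => by
        obtain ⟨a, b, c⟩ := d1 α
        rw [abs_mul]
        have h3 : |2 * θ α - θ α ^ 2| ≤ 1 := by
          rw [abs_le]
          constructor <;> linarith
        exact mul_le_one₀ h3 (abs_nonneg _) (Real.abs_cos_le_one _))
    have i3 : Integrable (fun α => θ α * lam α) := bd θc (fun α => by
      obtain ⟨a, b⟩ := θ0 α
      rw [abs_le]
      constructor <;> linarith)
    have i4 : Integrable (fun α => lam α * Real.cos (2 * Real.pi * u * α)) :=
      lam_int.mul_bdd (c := 1) (by fun_prop) (Eventually.of_forall fun α => by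
        rw [Real.norm_eq_abs]; exact Real.abs_cos_le_one _)
    have h3 : |LL (fun α => (2 * θ α - θ α ^ 2) * Real.cos (2 * Real.pi * u * α)) - cF lam u| ≤
        1 - LL (fun α => 2 * θ α - θ α ^ 2) := by
      unfold LL cF
      rw [← lam_integral, ← integral_sub i2 i4, ← integral_sub lam_int i1]
      refine (abs_integral_le_integral_abs).trans ?_
      apply integral_mono (i2.sub i4).abs (lam_int.sub i1)
      intro α
      simp only [Pi.sub_apply]
      obtain ⟨a, b, c⟩ := d1 α
      have e : (2 * θ α - θ α ^ 2) * Real.cos (2 * Real.pi * u * α) * lam α -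
          lam α * Real.cos (2 * Real.pi * u * α) =
          -((1 - (2 * θ α - θ α ^ 2)) * lam α * Real.cos (2 * Real.pi * u * α)) := by ring
      rw [e, abs_neg, abs_mul, abs_mul, abs_of_nonneg a, abs_of_nonneg (lam_nonneg α)]
      calc (1 - (2 * θ α - θ α ^ 2)) * lam α * |Real.cos (2 * Real.pi * u * α)|
          ≤ (1 - (2 * θ α - θ α ^ 2)) * lam α * 1 :=
            mul_le_mul_of_nonneg_left (Real.abs_cos_le_one _) (mul_nonneg a (lam_nonneg α))
        _ = _ := by ring
    have h4 : 1 - LL (fun α => 2 * θ α - θ α ^ 2) ≤ 1 - LL θ := by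
      have : LL θ ≤ LL (fun α => 2 * θ α - θ α ^ 2) := by
        unfold LL
        apply integral_mono i3 i1
        intro α
        simp only
        apply mul_le_mul_of_nonneg_right _ (lam_nonneg α)
        obtain ⟨a, b, c⟩ := d1 α
        linarith
      linarith
    have h5 : LL θ = 2 * μ * ∫ t in (0 : ℝ)..1, (1 - t ^ (m + 1)) * (1 - μ * t) := by
      unfold LL
      have h6 := EV_integral hμ (f := fun t : ℝ => 1 - t ^ (m + 1)) h1 (fun α => max (1 - α) 0)
      rw [← hθ] at h6
      unfold lam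
      rw [h6]
      congr 1
      apply intervalIntegral.integral_congr
      intro t ht
      rw [uIcc_of_le zero_le_one] at ht
      simp only
      rw [max_eq_left]
      nlinarith [ht.1, ht.2]
    have h6 : ∫ t in (0 : ℝ)..1, (1 - t ^ (m + 1)) * (1 - μ * t) ≥ 1 - μ / 2 - 1 / (m + 2) := by
      have h7 : ∫ t in (0 : ℝ)..1, ((1 - μ * t) - t ^ (m + 1)) ≤
          ∫ t in (0 : ℝ)..1, (1 - t ^ (m + 1)) * (1 - μ * t) := by
        apply intervalIntegral.integral_mono_on zero_le_one
          ((by fun_prop : Continuous fun t : ℝ => (1 - μ * t) - t ^ (m + 1)).intervalIntegrable _ _)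
          ((by fun_prop : Continuous fun t : ℝ => (1 - t ^ (m + 1)) * (1 - μ * t)).intervalIntegrable _ _)
        intro t ht
        have h8 := pow_nonneg ht.1 (m + 1)
        have h9 : 0 ≤ μ * t := mul_nonneg hμ.le ht.1
        nlinarith
      have h8 : ∫ t in (0 : ℝ)..1, ((1 - μ * t) - t ^ (m + 1)) = 1 - μ / 2 - 1 / (m + 2) := by
        rw [intervalIntegral.integral_sub
          ((by fun_prop : Continuous fun t : ℝ => (1 - μ * t)).intervalIntegrable _ _)
          ((by fun_prop : Continuous fun t : ℝ => t ^ (m + 1)).intervalIntegrable _ _),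
          intervalIntegral.integral_sub intervalIntegrable_const
          ((by fun_prop : Continuous fun t : ℝ => μ * t).intervalIntegrable _ _),
          intervalIntegral.integral_const_mul, integral_id, integral_pow]
        simp
        ring
      rw [h8] at h7
      exact h7
    have h7 : 1 - LL θ ≤ (1 - μ) ^ 2 + 2 / (m + 1) := by
      rw [h5]
      have h8 : 2 * μ * (1 - μ / 2 - 1 / (m + 2)) ≤
          2 * μ * ∫ t in (0 : ℝ)..1, (1 - t ^ (m + 1)) * (1 - μ * t) :=
        mul_le_mul_of_nonneg_left h6 (by positivity)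
      have h9 : 2 * μ * (1 / ((m : ℝ) + 2)) ≤ 2 / (m + 1) := by
        calc 2 * μ * (1 / ((m : ℝ) + 2)) ≤ 2 * 1 * (1 / ((m : ℝ) + 2)) := by
              apply mul_le_mul_of_nonneg_right _ (by positivity)
              linarith
          _ ≤ 2 * 1 * (1 / ((m : ℝ) + 1)) := by
              apply mul_le_mul_of_nonneg_left _ (by norm_num)
              apply one_div_le_one_div_of_le (by positivity)
              linarith
          _ = 2 / (m + 1) := by ring
      nlinarith
    have h8 : g u - cF lam u = (g u - LL (fun α => (2 * θ α - θ α ^ 2) *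
        Real.cos (2 * Real.pi * u * α))) + (LL (fun α => (2 * θ α - θ α ^ 2) *
        Real.cos (2 * Real.pi * u * α)) - cF lam u) := by ring
    rw [h8]
    refine (abs_add_le _ _).trans ?_
    linarith
  have h1 : Tendsto (fun m : ℕ => 2 * ((1 - (1 - 1 / ((m : ℝ) + 2))) ^ 2 + 2 / ((m : ℝ) + 1))) atTop
      (𝓝 (2 * ((1 - (1 - 0)) ^ 2 + 0))) := by
    have t1 : Tendsto (fun m : ℕ => 1 / ((m : ℝ) + 2)) atTop (𝓝 0) :=
      tendsto_const_nhds.div_atTop (tendsto_atTop_add_const_right _ _ tendsto_natCast_atTop_atTop)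
    have t2 : Tendsto (fun m : ℕ => 2 / ((m : ℝ) + 1)) atTop (𝓝 0) :=
      tendsto_const_nhds.div_atTop (tendsto_atTop_add_const_right _ _ tendsto_natCast_atTop_atTop)
    exact (((tendsto_const_nhds.sub (tendsto_const_nhds.sub t1)).pow 2).add t2).const_mul 2
  have h2 : |g u - cF lam u| ≤ 2 * ((1 - (1 - 0)) ^ 2 + 0) := by
    apply ge_of_tendsto h1
    apply Eventually.of_forall
    intro m
    have h3 : 1 / ((m : ℝ) + 2) < 1 := by
      rw [div_lt_one (by positivity)]
      have : (0 : ℝ) ≤ m := Nat.cast_nonneg m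
      linarith
    have h4 : 0 < 1 / ((m : ℝ) + 2) := by positivity
    exact key m (1 - 1 / ((m : ℝ) + 2)) (by linarith) (by linarith)
  have h3 : |g u - cF lam u| ≤ 0 := h2.trans (by norm_num)
  have h4 := abs_nonpos_iff.mp h3
  linarith

end Pool.Agent.H34.DR
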