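import Pool.Agent.H34.DR.Star
import Pool.Agent.H34.DR.Gauge2
import Pool.Agent.H34.ND.Lin

/-!
# Determinantal densities
-/

open Filter Topology MeasureTheory Set
open scoped ComplexOrder ComplexConjugate

namespace Pool.Agent.H34.DR

/-- a continuous function with nonnegative integrals over all boxes is nonnegative -/
theorem nonneg_of_boxes {r : ℕ} {F : (Fin r → ℝ) → ℝ} (hF : Continuous F)
    (h : ∀ a b : Fin r → ℝ, (∀ i, a i < b i) → 0 ≤ ∫ u in Icc a b, F u) (u : Fin r → ℝ) :
    0 ≤ F u := by
  by_contra hu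
  push Not at hu
  obtain ⟨δ, hδ, hball⟩ := Metric.isOpen_iff.mp (isOpen_lt hF (continuous_const (y := F u / 2))) u
    (by
      show F u < F u / 2
      linarith)
  set a : Fin r → ℝ := fun i => u i - δ / 2 with ha
  set b : Fin r → ℝ := fun i => u i + δ / 2 with hb
  have hab : ∀ i, a i < b i := fun i => by
    simp only [ha, hb]
    linarith
  have h1 := h a b hab
  have h2 : ∫ v in Icc a b, F v ≤ ∫ _ in Icc a b, F u / 2 := by
    apply setIntegral_mono_on
    · exact hF.continuousOn.integrableOn_compact isCompact_Icc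
    · exact continuousOn_const.integrableOn_compact isCompact_Icc
    · exact measurableSet_Icc
    · intro v hv
      have hv2 : v ∈ Metric.ball u δ := by
        rw [Metric.mem_ball]
        refine lt_of_le_of_lt ?_ (half_lt_self hδ)
        rw [dist_pi_le_iff (by positivity)]
        intro i
        rw [Real.dist_eq, abs_le]
        have h3 := hv.1 i
        have h4 := hv.2 i
        simp only [ha] at h3
        simp only [hb] at h4
        constructor <;> linarith
      exact (hball hv2).le
  have h3 : ∫ _ in Icc a b, F u / 2 = (volume.real (Icc a b)) * (F u / 2) := by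
    rw [setIntegral_const, smul_eq_mul]
  have h4 : 0 < volume.real (Icc a b) := by
    rw [Measure.real, Real.volume_Icc_pi_toReal (fun i => (hab i).le)]
    apply Finset.prod_pos
    intro i _
    have := hab i
    linarith
  rw [h3] at h2
  have h5 : volume.real (Icc a b) * (F u / 2) < 0 := mul_neg_of_pos_of_neg h4 (by linarith)
  linarith

/-- two continuous functions with the same integrals over all intervals are equal -/
theorem eq_of_integrals {f g : ℝ → ℝ} (hf : Continuous f) (hg : Continuous g)
    (h : ∀ a b : ℝ, a < b → ∫ x in a..b, f x = ∫ x in a..b, g x) (x : ℝ) : f x = g x := by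
  have h1 : ∀ (F : ℝ → ℝ), Continuous F → (∀ a b : ℝ, a < b → ∫ x in a..b, F x = 0) → F x ≤ 0 := by
    intro F hF h0
    by_contra hx
    push Not at hx
    obtain ⟨δ, hδ, hball⟩ := Metric.isOpen_iff.mp (isOpen_lt continuous_const hF) x hx
    have h2 : 0 < ∫ t in (x - δ / 2)..(x + δ / 2), F t := by
      apply intervalIntegral.intervalIntegral_pos_of_pos_on
      · exact hF.intervalIntegrable _ _
      · intro t ht
        have : t ∈ Metric.ball x δ := by
          rw [Metric.mem_ball, Real.dist_eq, abs_lt]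
          constructor <;> linarith [ht.1, ht.2]
        exact hball this
      · linarith
    have h3 := h0 (x - δ / 2) (x + δ / 2) (by linarith)
    linarith
  have h2 := h1 (fun t => f t - g t) (hf.sub hg) (fun a b hab => by
    rw [intervalIntegral.integral_sub (hf.intervalIntegrable _ _) (hg.intervalIntegrable _ _),
      h a b hab, sub_self])
  have h3 := h1 (fun t => g t - f t) (hg.sub hf) (fun a b hab => by
    rw [intervalIntegral.integral_sub (hg.intervalIntegrable _ _) (hf.intervalIntegrable _ _),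
      h a b hab, sub_self])
  linarith

/-- the integral over a box of dimension one -/
theorem integral_fin_one (F : ℝ → ℝ) (a b : Fin 1 → ℝ) (hab : a 0 < b 0) :
    ∫ u in Icc a b, F (u 0) = ∫ x in (a 0)..(b 0), F x := by
  rw [intervalIntegral.integral_of_le hab.le, ← integral_Icc_eq_integral_Ioc]
  have hmp := volume_preserving_funUnique (Fin 1) ℝ
  rw [← hmp.setIntegral_preimage_emb (MeasurableEquiv.funUnique (Fin 1) ℝ).measurableEmbedding]
  have hs : (MeasurableEquiv.funUnique (Fin 1) ℝ) ⁻¹' Icc (a 0) (b 0) = Icc a b := by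
    ext u
    simp only [mem_preimage, mem_Icc, Pi.le_def, Fin.forall_fin_one]
    rfl
  rw [hs]
  rfl

section

variable {K : ℝ → ℝ → ℂ}

/-- the matrix of a kernel -/
noncomputable def km (K : ℝ → ℝ → ℂ) {ι : Type*} (u : ι → ℝ) : Matrix ι ι ℂ :=
  Matrix.of fun i j => K (u i) (u j)

theorem km_herm (hh : ∀ x y, K y x = conj (K x y)) {ι : Type*} (u : ι → ℝ) :
    (km K u).IsHermitian := by
  ext i j
  simp only [km, Matrix.conjTranspose_apply, Matrix.of_apply]
  exact (hh _ _).symm

theorem km_det_im (hh : ∀ x y, K y x = conj (K x y)) {ι : Type*} [Fintype ι] [DecidableEq ι]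
    (u : ι → ℝ) : (km K u).det.im = 0 := by
  have h1 := Matrix.det_conjTranspose (km K u)
  rw [(km_herm hh u).eq] at h1
  exact Complex.conj_eq_iff_im.mp h1.symm

theorem psd_of_dets (hh : ∀ x y, K y x = conj (K x y))
    (hpos : ∀ (n : ℕ) (u : Fin n → ℝ), 0 ≤ (km K u).det.re) : PSDk K := by
  classical
  intro ι _ p
  apply ND.psd_of_minors (km_herm hh p)
  intro t
  have e1 : (km K p).submatrix (Subtype.val : t → ι)
      (Subtype.val : t → ι) = km K (fun i : t => p i) := rfl
  rw [e1]
  set e := Fintype.equivFin t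
  have e2 : (km K (fun i : t => p i)).det = (km K (fun j => p (e.symm j))).det := by
    rw [← Matrix.det_submatrix_equiv_self e (km K (fun j => p (e.symm j)))]
    congr 1
    ext i j
    simp [km]
  rw [e2, Complex.nonneg_iff]
  exact ⟨hpos _ _, (km_det_im hh _).symm⟩

theorem det_two (hh : ∀ x y, K y x = conj (K x y)) (hd : ∀ x, K x x = 1) (c : ℝ) (u : Fin 1 → ℝ) :
    (km K (Fin.snoc (fun i => c + u i) c : Fin 2 → ℝ)).det.re = 1 - ‖K (c + u 0) c‖ ^ 2 := by
  rw [Matrix.det_fin_two]
  have e0 : (Fin.snoc (fun i => c + u i) c : Fin 2 → ℝ) 0 = c + u 0 := rfl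
  have e1 : (Fin.snoc (fun i => c + u i) c : Fin 2 → ℝ) 1 = c := rfl
  simp only [km, Matrix.of_apply, e0, e1, hd]
  rw [hh (c + u 0) c, Complex.mul_conj, Complex.normSq_eq_norm_sq]
  simp
  norm_cast

/-- the correlation statements for the kernel `K`, in terms of abstract counting functions -/
structure Dens (l : Filter ℝ) (K : ℝ → ℝ → ℂ) where
  /-- the counting functions -/
  N : (r : ℕ) → ℝ → (Fin r → ℝ) → (Fin r → ℝ) → ℕ
  two : ∀ T a b, N 1 T a b = (AP T T (a 0) (b 0)).card
  lim : ∀ r : ℕ, 1 ≤ r → ∀ (c : ℝ) (a b : Fin r → ℝ), (∀ i, a i < b i) →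
    Tendsto (fun T : ℝ => (N r T a b : ℝ) / MM T) l
      (𝓝 (∫ u in Icc a b, (km K (Fin.snoc (fun i => c + u i) c : Fin (r + 1) → ℝ)).det.re))

theorem km_cont (hc : Continuous fun p : ℝ × ℝ => K p.1 p.2) (r : ℕ) (c : ℝ) :
    Continuous fun u : Fin r → ℝ => (km K (Fin.snoc (fun i => c + u i) c : Fin (r + 1) → ℝ)).det.re := by
  apply Complex.continuous_re.comp
  apply Continuous.matrix_det
  have h1 : Continuous fun u : Fin r → ℝ => (Fin.snoc (fun i => c + u i) c : Fin (r + 1) → ℝ) := by
    apply continuous_pi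
    intro i
    refine Fin.lastCases ?_ (fun i => ?_) i
    · simp only [Fin.snoc_last]
      exact continuous_const
    · simp only [Fin.snoc_castSucc]
      fun_prop
  apply continuous_matrix
  intro i j
  exact hc.comp (((continuous_apply i).comp h1).prodMk ((continuous_apply j).comp h1))

theorem Dens.pos {l : Filter ℝ} [l.NeBot] (hl : l ≤ atTop) (D : Dens l K)
    (hc : Continuous fun p : ℝ × ℝ => K p.1 p.2) (hd : ∀ x, K x x = 1)
    (n : ℕ) (u : Fin n → ℝ) : 0 ≤ (km K u).det.re := by
  match n, u with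
  | 0, u => simp [Matrix.det_fin_zero]
  | 1, u => simp [km, hd]
  | r + 2, u =>
    have h1 := nonneg_of_boxes (km_cont hc (r + 1) (u (Fin.last (r + 1)))) (fun a b hab => by
      apply ge_of_tendsto (D.lim (r + 1) (by omega) (u (Fin.last (r + 1))) a b hab)
      filter_upwards [hl (eventually_ge_atTop 10)] with T hT
      have := MM_pos hT
      positivity) (fun i => u i.castSucc - u (Fin.last (r + 1)))
    have e : (Fin.snoc (fun i => u (Fin.last (r + 1)) + (u (Fin.castSucc i) - u (Fin.last (r + 1))))
        (u (Fin.last (r + 1))) : Fin (r + 1 + 1) → ℝ) = u := by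
      ext i
      refine Fin.lastCases ?_ (fun i => ?_) i
      · simp only [Fin.snoc_last]
      · simp only [Fin.snoc_castSucc]
        ring
    rw [e] at h1
    exact h1

theorem Dens.norm_eq (hRH : RiemannHypothesis) {l : Filter ℝ} [l.NeBot] (hl : l ≤ atTop)
    (D : Dens l K) (hc : Continuous fun p : ℝ × ℝ => K p.1 p.2) (hh : ∀ x y, K y x = conj (K x y))
    (hd : ∀ x, K x x = 1) (x y : ℝ) : ‖K x y‖ = |s (x - y)| := by
  have hpsd := psd_of_dets hh (D.pos hl hc hd)
  -- the pair densities
  have hcont : ∀ c : ℝ, Continuous fun u : ℝ => ‖K (c + u) c‖ ^ 2 := fun c =>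
    ((hc.comp ((continuous_const.add continuous_id).prodMk continuous_const)).norm).pow 2
  have pd : ∀ c : ℝ, PairDensity l (fun u => 1 - ‖K (c + u) c‖ ^ 2) := by
    intro c a b hab
    have h1 := D.lim 1 le_rfl c (fun _ => a) (fun _ => b) (fun _ => hab)
    simp_rw [D.two, det_two hh hd] at h1
    rw [integral_fin_one (fun u => 1 - ‖K (c + u) c‖ ^ 2) (fun _ => a) (fun _ => b) hab] at h1
    exact h1
  set g : ℝ → ℝ := fun u => ‖K (0 + u) 0‖ ^ 2 with hg
  have hgc : Continuous g := hcont 0
  have same : ∀ c u : ℝ, ‖K (c + u) c‖ ^ 2 = g u := by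
    intro c u
    have h1 := eq_of_integrals (f := fun u => 1 - ‖K (c + u) c‖ ^ 2) (g := fun u => 1 - g u)
      (continuous_const.sub (hcont c)) (continuous_const.sub hgc) (fun a b hab =>
        tendsto_nhds_unique (pd c a b hab) (pd 0 a b hab)) u
    linarith
  have hK : ∀ x y : ℝ, ‖K x y‖ ^ 2 = g (x - y) := by
    intro x y
    have h1 := same y (x - y)
    rwa [show y + (x - y) = x by ring] at h1
  have he : ∀ u, g (-u) = g u := by
    intro u
    have h1 := hK 0 u
    have h2 := hK u 0
    rw [zero_sub] at h1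
    rw [sub_zero] at h2
    rw [← h1, ← h2, hh u 0, RCLike.norm_conj]
  have hP : PDr g := by
    intro ι _ p w
    classical
    have hM := hpsd ι p
    have hM2 := hM.hadamard hM.transpose
    have h1 := hM2.dotProduct_mulVec_nonneg (fun i : ι => (w i : ℂ))
    have h2 : star (fun i : ι => (w i : ℂ)) ⬝ᵥ (Matrix.hadamard (Matrix.of fun i j => K (p i) (p j))
        (Matrix.of fun i j => K (p i) (p j)).transpose).mulVec (fun i : ι => (w i : ℂ)) =
        ((∑ i, ∑ j, w i * w j * g (p i - p j) : ℝ) : ℂ) := by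
      simp only [dotProduct, Matrix.mulVec, Matrix.hadamard_apply, Matrix.transpose_apply,
        Matrix.of_apply, Pi.star_apply]
      push_cast
      apply Finset.sum_congr rfl
      intro i _
      rw [Finset.mul_sum]
      apply Finset.sum_congr rfl
      intro j _
      rw [← hK (p i) (p j), hh (p i) (p j), Complex.mul_conj, Complex.normSq_eq_norm_sq]
      have h3 : star ((w i : ℝ) : ℂ) = ((w i : ℝ) : ℂ) := Complex.conj_ofReal _
      rw [h3]
      push_cast
      ring
    rw [h2] at h1
    exact_mod_cast h1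
  have h1 := pair_level hRH hl hgc he hP (pd 0) (x - y)
  rw [← hK x y] at h1
  have h2 : ‖K x y‖ = √(s (x - y) ^ 2) := by
    rw [show s (x - y) ^ 2 = ‖K x y‖ ^ 2 from h1.symm, Real.sqrt_sq (norm_nonneg _)]
  rw [h2, Real.sqrt_sq_eq_abs]

/-- all determinants are those of the sine kernel -/
theorem Dens.dets (hRH : RiemannHypothesis) {l : Filter ℝ} [l.NeBot] (hl : l ≤ atTop)
    (D : Dens l K) (hc : Continuous fun p : ℝ × ℝ => K p.1 p.2) (hh : ∀ x y, K y x = conj (K x y))
    (hd : ∀ x, K x x = 1) {n : ℕ} (u : Fin n → ℝ) : (km K u).det =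
      ((Matrix.of fun i j => s (u i - u j) : Matrix (Fin n) (Fin n) ℝ).det : ℂ) :=
  H34.DR.dets hc (psd_of_dets hh (D.pos hl hc hd)) hd (D.norm_eq hRH hl hc hh hd)
    (fun x y => (hh x y).symm) u

end

end Pool.Agent.H34.DR
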