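import Pool.Agent.H34.DR.Full

/-!
# Montgomery's theorem for the zeros up to a height: the limit
-/

open Filter Topology MeasureTheory Set

namespace Pool.Agent.H34.DR

open SG (ord NZ)
open Pool.Agent.TH873.EW (ct XV)
open Pool.Agent.Y747 (Bx mem_Bx blk_pair)

/-- the weight -/
noncomputable def ww (z : ℕ × ℕ) : ℝ := Real.exp (-(ord z.1 - ord z.2) ^ 2 / 4)

theorem ww_pos (z : ℕ × ℕ) : 0 < ww z := Real.exp_pos _

theorem ww_le (z : ℕ × ℕ) : ww z ≤ 1 := by
  unfold ww
  rw [Real.exp_le_one_iff]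
  nlinarith [sq_nonneg (ord z.1 - ord z.2)]

/-- the sum over the pairs up to `T` -/
noncomputable def GG (k : ℝ → ℝ) (T : ℝ) : ℝ :=
  ∑ z ∈ FT T ×ˢ FT T, ww z * k (L T * (ord z.1 - ord z.2))

/-- the sum over the pairs of a block -/
noncomputable def GB (k : ℝ → ℝ) (V : ℝ) : ℝ :=
  ∑ z ∈ Bx V ×ˢ Bx V, ww z * k (L V * (ord z.1 - ord z.2))

theorem rec_full (hRH : RiemannHypothesis) {k : ℝ → ℝ} (hk : Continuous k) {C : ℝ}
    (hC : ∀ x, |k x| ≤ C / (1 + x ^ 2)) {ε : ℝ} (hε : 0 < ε) :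
    ∀ᶠ V : ℝ in atTop, |GG k (2 * V) - GG k V - GB k V| ≤ 3 * ε * MM V := by
  classical
  have hC0 : 0 ≤ C := by
    have := (abs_nonneg _).trans (hC 0)
    simpa using this
  have hkC : ∀ x, |k x| ≤ C := fun x => (hC x).trans (by
    rw [div_le_iff₀ (by positivity)]
    nlinarith [sq_nonneg x])
  have hE := (tendsto_order.mp (lim_edge.const_mul C)).2 ε (by rw [mul_zero]; exact hε)
  filter_upwards [scale_change hRH hk hC hε, hE, eventually_ge_atTop 10] with V hs hE hV
  obtain ⟨hs1, hs2⟩ := hs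
  have hX := XV_pos hV
  have hM := MM_pos hV
  rw [← mul_div_assoc, div_lt_iff₀ hX] at hE
  have hXM := XV_le_MM hV
  set A := FT V ×ˢ FT V with hA
  set B := Bx V ×ˢ Bx V with hB
  set X2 := FT (2 * V) ×ˢ FT (2 * V) with hX2
  have hdisj : Disjoint A B := by
    rw [Finset.disjoint_left]
    intro z h1 h2
    rw [hA, Finset.mem_product, mem_FT] at h1
    rw [hB, Finset.mem_product, mem_Bx] at h2
    linarith [h1.1.2, h2.1.2.1]
  have hsub : A ∪ B ⊆ X2 := by
    apply Finset.union_subset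
    · exact Finset.product_subset_product (FT_mono (by linarith)) (FT_mono (by linarith))
    · exact Finset.product_subset_product Bx_FT Bx_FT
  have e1 : GG k (2 * V) = ∑ z ∈ X2 \ (A ∪ B), ww z * k (L (2 * V) * (ord z.1 - ord z.2)) +
      ∑ z ∈ A ∪ B, ww z * k (L (2 * V) * (ord z.1 - ord z.2)) := by
    rw [Finset.sum_sdiff hsub]
    rfl
  have e2 : GG k V + GB k V = ∑ z ∈ A ∪ B, ww z * k (L V * (ord z.1 - ord z.2)) := by
    rw [Finset.sum_union hdisj]
    rfl
  have e3 : GG k (2 * V) - GG k V - GB k V =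
      ∑ z ∈ X2 \ (A ∪ B), ww z * k (L (2 * V) * (ord z.1 - ord z.2)) +
      ∑ z ∈ A ∪ B, ww z * (k (L (2 * V) * (ord z.1 - ord z.2)) - k (L V * (ord z.1 - ord z.2))) := by
    have e4 : GG k (2 * V) - GG k V - GB k V = GG k (2 * V) - (GG k V + GB k V) := by ring
    rw [e4, e2, e1]
    simp_rw [mul_sub]
    rw [Finset.sum_sub_distrib]
    ring
  have wle : ∀ z (t : ℝ), |ww z * t| ≤ |t| := by
    intro z t
    rw [abs_mul, abs_of_pos (ww_pos z)]
    exact mul_le_of_le_one_left (abs_nonneg _) (ww_le z)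
  have b1 : |∑ z ∈ A ∪ B, ww z * (k (L (2 * V) * (ord z.1 - ord z.2)) -
      k (L V * (ord z.1 - ord z.2)))| ≤ ε * MM V := by
    refine (Finset.abs_sum_le_sum_abs _ _).trans ?_
    refine (Finset.sum_le_sum (fun z _ => wle z _)).trans ?_
    refine (Finset.sum_le_sum_of_subset_of_nonneg hsub (fun _ _ _ => abs_nonneg _)).trans hs1
  have b2 : |∑ z ∈ X2 \ (A ∪ B), ww z * k (L (2 * V) * (ord z.1 - ord z.2))| ≤
      ε * MM V + ε * MM V := by
    refine (Finset.abs_sum_le_sum_abs _ _).trans ?_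
    refine (Finset.sum_le_sum (fun z _ => wle z _)).trans ?_
    rw [← Finset.sum_filter_add_sum_filter_not (X2 \ (A ∪ B)) (fun z => |ord z.1 - ord z.2| ≤ 1)]
    apply add_le_add
    · have h1 : (X2 \ (A ∪ B)).filter (fun z => |ord z.1 - ord z.2| ≤ 1) ⊆ EI V ×ˢ EI V := by
        intro z hz
        rw [Finset.mem_filter, Finset.mem_sdiff, Finset.mem_union] at hz
        obtain ⟨⟨h2, h3⟩, h4⟩ := hz
        exact close_rec h2 h4 (fun h => h3 (Or.inl h)) (fun h => h3 (Or.inr h))
      calc ∑ z ∈ (X2 \ (A ∪ B)).filter (fun z => |ord z.1 - ord z.2| ≤ 1),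
          |k (L (2 * V) * (ord z.1 - ord z.2))|
          ≤ ∑ z ∈ EI V ×ˢ EI V, |k (L (2 * V) * (ord z.1 - ord z.2))| :=
            Finset.sum_le_sum_of_subset_of_nonneg h1 (fun _ _ _ => abs_nonneg _)
        _ ≤ ∑ z ∈ EI V ×ˢ EI V, C := Finset.sum_le_sum (fun z _ => hkC _)
        _ = C * (((EI V).card : ℝ) * (EI V).card) := by
            rw [Finset.sum_const, Finset.card_product, nsmul_eq_mul]
            push_cast
            ring
        _ ≤ ε * XV V := hE.le
        _ ≤ ε * MM V := mul_le_mul_of_nonneg_left hXM hε.le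
    · refine le_trans ?_ hs2
      apply Finset.sum_le_sum_of_subset_of_nonneg _ (fun _ _ _ => abs_nonneg _)
      intro z hz
      rw [Finset.mem_filter, Finset.mem_sdiff] at hz
      rw [Finset.mem_filter]
      exact ⟨hz.1.1, lt_of_not_ge hz.2⟩
  rw [e3]
  refine (abs_add_le _ _).trans ?_
  linarith

/-- Montgomery's theorem for the zeros up to `T`, with the scale of `T` -/
theorem montgomery_full (hRH : RiemannHypothesis) {f : ℝ → ℝ} (hf : ContDiff ℝ 2 f)
    (h1 : f 1 = 0) {μ : ℝ} (hμ : 0 < μ) (hμ1 : μ < 1) :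
    Tendsto (fun T : ℝ => GG (fun x => ct f (μ * x)) T / MM T) atTop
      (𝓝 (f 0 / μ + 2 * μ * ∫ t in (0 : ℝ)..1, t * f t)) := by
  set k : ℝ → ℝ := fun x => ct f (μ * x) with hkd
  set c : ℝ := f 0 / μ + 2 * μ * ∫ t in (0 : ℝ)..1, t * f t with hc
  obtain ⟨C, hC0, hCd⟩ := ct_decay2 hf h1
  have hk : Continuous k := by
    have h2 : k = fun x => μ⁻¹ * cF (EV μ f) x := by
      ext x
      rw [cF_EV hμ h1]
      simp only [hkd]
      field_simp
    rw [h2]
    exact continuous_const.mul (cF_cont (EV_int hμ hf.continuous h1))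
  have hkC : ∀ x, |k x| ≤ (C / μ ^ 2) / (1 + x ^ 2) := by
    intro x
    refine (hCd (μ * x)).trans ?_
    have h3 : μ ^ 2 * (1 + x ^ 2) ≤ 1 + (μ * x) ^ 2 := by nlinarith
    rw [div_div]
    exact div_le_div_of_nonneg_left hC0.le (by positivity) h3
  have hkB : ∀ x, |k x| ≤ C / μ ^ 2 := fun x => (hkC x).trans (by
    rw [div_le_iff₀ (by positivity)]
    have : 0 < C / μ ^ 2 := by positivity
    nlinarith [sq_nonneg x])
  rw [Metric.tendsto_nhds]
  intro ε hε
  set ε' : ℝ := ε / 12 with hε'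
  have hε'0 : 0 < ε' := by positivity
  obtain ⟨V0, hV0, hblk⟩ := blk_pair hRH (hf.of_le (by norm_num)) h1 hμ hμ1 hε'0
  have hr : Tendsto (fun V : ℝ => c * (1 - MM (2 * V) / XV V + MM V / XV V)) atTop
      (𝓝 (c * (1 - 2 + 1))) :=
    ((tendsto_const_nhds.sub lim_ratio2).add lim_ratio).const_mul c
  rw [show c * (1 - 2 + 1) = 0 by ring] at hr
  have hr2 := (Metric.tendsto_nhds.mp hr) ε' hε'0
  obtain ⟨V1, hV1⟩ := ((rec_full hRH hk hkC hε'0).and (hr2.and
    (eventually_ge_atTop V0))).exists_forall_of_atTop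
  set V2 := max V1 10 with hV2
  have hV210 : 10 ≤ V2 := le_max_right _ _
  have step : ∀ V, V2 ≤ V → |(GG k (2 * V) - c * MM (2 * V)) - (GG k V - c * MM V)| ≤
      5 * ε' * MM V := by
    intro V hV
    obtain ⟨a1, a2, a3⟩ := hV1 V ((le_max_left _ _).trans hV)
    have hV10 : 10 ≤ V := hV210.trans hV
    have hX := XV_pos hV10
    have hXM := XV_le_MM hV10
    have b1 := (hblk V a3).2
    have e1 : ∑ n ∈ Bx V, ∑ m ∈ Bx V, Real.exp (-(ord n - ord m) ^ 2 / 4) *
        ct f (μ * Real.log V / (2 * Real.pi) * (ord n - ord m)) = GB k V := by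
      unfold GB
      rw [Finset.sum_product]
      apply Finset.sum_congr rfl
      intro n _
      apply Finset.sum_congr rfl
      intro m _
      simp only [hkd]
      unfold ww L
      congr 2
      ring
    rw [e1] at b1
    have b2 : |c * (XV V - MM (2 * V) + MM V)| ≤ ε' * XV V := by
      rw [dist_zero_right, Real.norm_eq_abs] at a2
      have e2 : c * (XV V - MM (2 * V) + MM V) =
          c * (1 - MM (2 * V) / XV V + MM V / XV V) * XV V := by
        field_simp
      rw [e2, abs_mul, abs_of_pos hX]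
      exact mul_le_mul_of_nonneg_right a2.le hX.le
    have e3 : (GG k (2 * V) - c * MM (2 * V)) - (GG k V - c * MM V) =
        (GG k (2 * V) - GG k V - GB k V) + ((GB k V - XV V * c) +
          c * (XV V - MM (2 * V) + MM V)) := by ring
    rw [e3]
    refine (abs_add_le _ _).trans ?_
    have b3 := abs_add_le (GB k V - XV V * c) (c * (XV V - MM (2 * V) + MM V))
    have b4 : ε' * XV V ≤ ε' * MM V := mul_le_mul_of_nonneg_left hXM hε'0.le
    linarith
  -- the base
  set D : ℝ := (C / μ ^ 2) * ((NZ (2 * V2) : ℝ) * NZ (2 * V2)) + |c| * MM (2 * V2) with hD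
  have base : ∀ V, V2 ≤ V → V ≤ 2 * V2 → |GG k V - c * MM V| ≤ D := by
    intro V h2 h3
    have hG : |GG k V| ≤ (C / μ ^ 2) * ((NZ (2 * V2) : ℝ) * NZ (2 * V2)) := by
      unfold GG
      refine (Finset.abs_sum_le_sum_abs _ _).trans ?_
      calc ∑ z ∈ FT V ×ˢ FT V, |ww z * k (L V * (ord z.1 - ord z.2))|
          ≤ ∑ z ∈ FT V ×ˢ FT V, C / μ ^ 2 := by
            apply Finset.sum_le_sum
            intro z _
            rw [abs_mul, abs_of_pos (ww_pos z)]
            exact (mul_le_of_le_one_left (abs_nonneg _) (ww_le z)).trans (hkB _)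
        _ = (C / μ ^ 2) * ((NZ V : ℝ) * NZ V) := by
            rw [Finset.sum_const, Finset.card_product, FT_card, nsmul_eq_mul]
            push_cast
            ring
        _ ≤ _ := by
            apply mul_le_mul_of_nonneg_left _ (by positivity)
            have h4 : (NZ V : ℝ) ≤ NZ (2 * V2) := by exact_mod_cast SG.NZ_mono h3
            exact mul_le_mul h4 h4 (Nat.cast_nonneg _) (Nat.cast_nonneg _)
    have hMM : |c * MM V| ≤ |c| * MM (2 * V2) := by
      rw [abs_mul, abs_of_pos (MM_pos (hV210.trans h2))]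
      apply mul_le_mul_of_nonneg_left _ (abs_nonneg _)
      unfold MM
      have h5 := Real.pi_pos
      have h6 : 0 ≤ Real.log V := Real.log_nonneg (by linarith)
      apply mul_le_mul _ (Real.log_le_log (by linarith) h3) h6 (by positivity)
      exact div_le_div_of_nonneg_right h3 (by positivity)
    have := abs_sub (GG k V) (c * MM V)
    linarith
  have d1 := dyadic (H := fun V => GG k V - c * MM V) (B := D) hV210 (by positivity : 0 ≤ 5 * ε')
    (fun V hV => by
      have := (abs_le.mp (step V hV)).2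
      linarith) (fun V h2 h3 => (le_abs_self _).trans (base V h2 h3))
  have d2 := dyadic (H := fun V => -(GG k V - c * MM V)) (B := D) hV210 (by positivity : 0 ≤ 5 * ε')
    (fun V hV => by
      have := (abs_le.mp (step V hV)).1
      linarith) (fun V h2 h3 => (neg_le_abs _).trans (base V h2 h3))
  have hM : ∀ᶠ T : ℝ in atTop, |D| / ε' ≤ MM T := MM_tendsto.eventually_ge_atTop _
  filter_upwards [hM, eventually_ge_atTop V2] with T q1 q2
  have hMp := MM_pos (hV210.trans q2)
  rw [div_le_iff₀ hε'0] at q1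
  have r1 := d1 T q2
  have r2 := d2 T q2
  rw [Real.dist_eq]
  have e4 : GG k T / MM T - c = (GG k T - c * MM T) / MM T := by
    field_simp
  rw [e4, abs_div, abs_of_pos hMp, div_lt_iff₀ hMp]
  have r3 : |GG k T - c * MM T| ≤ |D| + 5 * ε' * MM T := abs_le.mpr ⟨by linarith, r1⟩
  have e5 : ε = 12 * ε' := by rw [hε']; ring
  rw [e5]
  nlinarith

end Pool.Agent.H34.DR
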