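import Pool.Agent.H34.DR.Ker

/-!
# Positive definite functions and integrals
-/

open Filter Topology MeasureTheory Set

namespace Pool.Agent.H34.DR

/-- positive definite kernels have nonnegative integrals (as in the library module
`Lib.helper15_.Bochner`) -/
theorem psd_int {Ω : Type*} [MeasurableSpace Ω] (μ : Measure Ω) [IsProbabilityMeasure μ]
    (K : Ω → Ω → ℝ) (hm : Measurable (Function.uncurry K)) (hb : ∀ x y, |K x y| ≤ 1)
    (hs : ∀ x y, K x y = K y x) (h : ∀ (n : ℕ) (x : Fin n → Ω), 0 ≤ ∑ i, ∑ j, K (x i) (x j)) :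
    0 ≤ ∫ x, ∫ y, K x y ∂μ ∂μ := by
  have i1 : ∀ x, Integrable (K x) μ := fun x =>
    Integrable.of_bound (hm.comp measurable_prodMk_left).aestronglyMeasurable 1
      (Eventually.of_forall (hb x))
  have i2 : Integrable (fun x => ∫ y, K x y ∂μ) μ :=
    (Integrable.of_bound (μ := μ.prod μ) hm.aestronglyMeasurable 1
      (Eventually.of_forall fun p => hb p.1 p.2)).integral_prod_left
  set I := ∫ x, ∫ y, K x y ∂μ ∂μ with hI
  have key : ∀ (n : ℕ) (u : Ω → ℝ), Integrable u μ → ∃ x : Fin n → Ω,
      ∑ i, ∑ j, K (x i) (x j) + ∑ i, u (x i) ≤ n + n * (n - 1) * I + n * ∫ y, u y ∂μ := by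
    intro n
    induction n with
    | zero => exact fun u _ => ⟨Fin.elim0, by simp⟩
    | succ n ih =>
      intro u hu
      obtain ⟨x, h1⟩ := ih (fun x => u x + 2 * ∫ y, K x y ∂μ) (hu.add (i2.const_mul 2))
      have i3 : Integrable (fun y => ∑ i, K (x i) y) μ := integrable_finsetSum _ fun i _ => i1 _
      obtain ⟨y, h2⟩ := exists_le_integral (μ := μ) (f := fun y => 2 * ∑ i, K (x i) y + u y)
        ((i3.const_mul 2).add hu)
      rw [integral_add (i3.const_mul 2) hu, integral_const_mul,
        integral_finsetSum _ fun i _ => i1 _] at h2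
      rw [integral_add hu (i2.const_mul 2), integral_const_mul, ← hI, Finset.sum_add_distrib,
        ← Finset.mul_sum] at h1
      refine ⟨Fin.cons y x, ?_⟩
      simp only [Fin.sum_univ_succ, Fin.cons_zero, Fin.cons_succ, Finset.sum_add_distrib, hs y]
      push_cast
      linarith [(abs_le.1 (hb y y)).2]
  by_contra hn
  push Not at hn
  obtain ⟨n, h1⟩ := exists_nat_gt (1 / -I)
  obtain ⟨x, h2⟩ := key (n + 1) (fun _ => 0) (integrable_zero _ _ _)
  have h3 := h _ x
  rw [div_lt_iff₀ (by linarith)] at h1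
  simp only [Finset.sum_const_zero, add_zero, integral_zero, mul_zero] at h2
  push_cast at h2
  nlinarith [(Nat.cast_nonneg n : (0 : ℝ) ≤ n)]

/-- real positive definite functions -/
def PDr (γ : ℝ → ℝ) : Prop :=
  ∀ (ι : Type) [Fintype ι] (x w : ι → ℝ), 0 ≤ ∑ i, ∑ j, w i * w j * γ (x i - x j)

/-- the Cauchy density -/
noncomputable def cd (x : ℝ) : ℝ := Real.pi⁻¹ * (1 + x ^ 2)⁻¹

theorem cd_pos (x : ℝ) : 0 < cd x := by
  unfold cd
  have := Real.pi_pos
  positivity

theorem cd_cont : Continuous cd := by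
  unfold cd
  apply Continuous.mul continuous_const
  apply Continuous.inv₀ (by fun_prop)
  intro x
  positivity

theorem cd_int : Integrable cd := integrable_inv_one_add_sq.const_mul _

/-- the Cauchy distribution -/
noncomputable def cP : Measure ℝ := volume.withDensity fun x => ENNReal.ofReal (cd x)

instance : IsProbabilityMeasure cP := by
  constructor
  unfold cP
  rw [withDensity_apply _ MeasurableSet.univ, setLIntegral_univ,
    ← ofReal_integral_eq_lintegral_ofReal cd_int (Eventually.of_forall fun x => (cd_pos x).le)]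
  unfold cd
  rw [integral_const_mul, integral_univ_inv_one_add_sq, inv_mul_cancel₀ Real.pi_pos.ne']
  simp

theorem cP_integral (f : ℝ → ℝ) : ∫ x, f x ∂cP = ∫ x, cd x * f x := by
  unfold cP
  rw [integral_withDensity_eq_integral_toReal_smul cd_cont.measurable.ennreal_ofReal (by simp)]
  simp only [ENNReal.toReal_ofReal (cd_pos _).le, smul_eq_mul]

theorem int_of_decay {τ : ℝ → ℝ} (hτ : Continuous τ) {C : ℝ} (hC : ∀ x, |τ x| ≤ C / (1 + x ^ 2)) :
    Integrable τ := by
  refine (integrable_inv_one_add_sq.const_mul C).mono' hτ.aestronglyMeasurable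
    (Eventually.of_forall fun x => ?_)
  rw [Real.norm_eq_abs]
  exact hC x

/-- positivity against the square of `δ - τ` -/
theorem pos_sq {γ τ : ℝ → ℝ} (hγ : Continuous γ) (he : ∀ x, γ (-x) = γ x) (hP : PDr γ)
    {B : ℝ} (hB : ∀ x, |γ x| ≤ B) (hτ : Continuous τ) {C : ℝ} (hC : ∀ x, |τ x| ≤ C / (1 + x ^ 2)) :
    0 ≤ γ 0 - 2 * (∫ x, τ x * γ x) + ∫ x, ∫ y, τ x * τ y * γ (x - y) := by
  have hpi := Real.pi_pos
  have hB0 : 0 ≤ B := (abs_nonneg _).trans (hB 0)
  have hC0 : 0 ≤ C := by
    have := (abs_nonneg _).trans (hC 0)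
    simpa using this
  set s : ℝ → ℝ := fun x => Real.pi * (1 + x ^ 2) * τ x with hs
  have hsc : Continuous s := by
    rw [hs]
    fun_prop
  have hsb : ∀ x, |s x| ≤ Real.pi * C := by
    intro x
    simp only [hs]
    rw [abs_mul, abs_of_pos (by positivity)]
    have h1 := hC x
    rw [le_div_iff₀ (by positivity)] at h1
    calc Real.pi * (1 + x ^ 2) * |τ x| = Real.pi * (|τ x| * (1 + x ^ 2)) := by ring
      _ ≤ _ := mul_le_mul_of_nonneg_left h1 hpi.le
  have hsp : ∀ x, cd x * s x = τ x := by
    intro x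
    unfold cd
    simp only [hs]
    have : (1 : ℝ) + x ^ 2 ≠ 0 := by positivity
    field_simp
  set S : ℝ := Real.pi * C with hS
  have hS0 : 0 ≤ S := by positivity
  set D : ℝ := B * (1 + S) ^ 2 + 1 with hD
  have hD0 : 0 < D := by positivity
  set K' : ℝ → ℝ → ℝ := fun x y => γ 0 - s x * γ x - s y * γ y + s x * s y * γ (x - y) with hK'
  have hK'b : ∀ x y, |K' x y| ≤ B * (1 + S) ^ 2 := by
    intro x y
    simp only [hK']
    have h1 : |s x * γ x| ≤ S * B := by
      rw [abs_mul]
      exact mul_le_mul (hsb x) (hB x) (abs_nonneg _) hS0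
    have h2 : |s y * γ y| ≤ S * B := by
      rw [abs_mul]
      exact mul_le_mul (hsb y) (hB y) (abs_nonneg _) hS0
    have h3 : |s x * s y * γ (x - y)| ≤ S * S * B := by
      rw [abs_mul, abs_mul]
      exact mul_le_mul (mul_le_mul (hsb x) (hsb y) (abs_nonneg _) hS0) (hB _) (abs_nonneg _)
        (by positivity)
    have h4 := hB 0
    rw [abs_le] at *
    constructor <;> nlinarith
  have hcont : Continuous (Function.uncurry K') := by
    simp only [hK']
    unfold Function.uncurry
    fun_prop
  have h0 : 0 ≤ ∫ x, ∫ y, K' x y / D ∂cP ∂cP := by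
    apply psd_int cP (fun x y => K' x y / D)
    · exact (hcont.div_const D).measurable
    · intro x y
      rw [abs_div, abs_of_pos hD0, div_le_one hD0]
      exact (hK'b x y).trans (by rw [hD]; linarith)
    · intro x y
      simp only [hK']
      rw [show x - y = -(y - x) by ring, he]
      ring
    · intro n x
      have h1 := hP (Option (Fin n)) (fun o => o.elim 0 x) (fun o => o.elim (n : ℝ) (fun i => -s (x i)))
      simp only [Fintype.sum_option, Option.elim_none, Option.elim_some, sub_zero, zero_sub, he] at h1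
      have h2 : ∑ i, ∑ j, K' (x i) (x j) / D = (∑ i, ∑ j, K' (x i) (x j)) / D := by
        rw [Finset.sum_div]
        apply Finset.sum_congr rfl
        intro i _
        rw [Finset.sum_div]
      rw [h2]
      apply div_nonneg _ hD0.le
      have h3 : ∑ i, ∑ j, K' (x i) (x j) = (n : ℝ) * n * γ 0 - 2 * n * ∑ i, s (x i) * γ (x i) +
          ∑ i, ∑ j, s (x i) * s (x j) * γ (x i - x j) := by
        simp only [hK', Finset.sum_add_distrib, Finset.sum_sub_distrib, Finset.sum_const,
          Finset.card_univ, Fintype.card_fin, nsmul_eq_mul]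
        rw [← Finset.mul_sum]
        ring
      rw [h3]
      refine h1.trans (le_of_eq ?_)
      have h4 : ∑ j, (n : ℝ) * -s (x j) * γ (x j) = -(n * ∑ i, s (x i) * γ (x i)) := by
        rw [Finset.mul_sum, ← Finset.sum_neg_distrib]
        apply Finset.sum_congr rfl
        intro i _
        ring
      have h5 : ∑ i, (-s (x i) * (n : ℝ) * γ (x i) + ∑ j, -s (x i) * -s (x j) * γ (x i - x j)) =
          -(n * ∑ i, s (x i) * γ (x i)) + ∑ i, ∑ j, s (x i) * s (x j) * γ (x i - x j) := by
        rw [Finset.sum_add_distrib]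
        congr 1
        · rw [Finset.mul_sum, ← Finset.sum_neg_distrib]
          apply Finset.sum_congr rfl
          intro i _
          ring
        · apply Finset.sum_congr rfl
          intro i _
          apply Finset.sum_congr rfl
          intro j _
          ring
      rw [h4, h5]
      ring
  have h1 : ∫ x, ∫ y, K' x y / D ∂cP ∂cP = (∫ x, ∫ y, K' x y ∂cP ∂cP) / D := by
    simp_rw [integral_div]
  rw [h1] at h0
  have h2 : 0 ≤ ∫ x, ∫ y, K' x y ∂cP ∂cP := by
    have := mul_nonneg h0 hD0.le
    rwa [div_mul_cancel₀ _ hD0.ne'] at this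
  -- compute
  have ib : ∀ f : ℝ → ℝ, Continuous f → ∀ M : ℝ, (∀ x, |f x| ≤ M) → Integrable f cP :=
    fun f hf M hM => Integrable.of_bound hf.aestronglyMeasurable M (Eventually.of_forall hM)
  have i1 : Integrable (fun x => s x * γ x) cP := ib _ (by fun_prop) (S * B) (fun x => by
    rw [abs_mul]
    exact mul_le_mul (hsb x) (hB x) (abs_nonneg _) hS0)
  have i2 : ∀ x, Integrable (fun y => s x * s y * γ (x - y)) cP := fun x => ib _ (by fun_prop)
    (S * S * B) (fun y => by
      rw [abs_mul, abs_mul]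
      exact mul_le_mul (mul_le_mul (hsb x) (hsb y) (abs_nonneg _) hS0) (hB _) (abs_nonneg _)
        (by positivity))
  have i3 : Integrable (fun x => ∫ y, s x * s y * γ (x - y) ∂cP) cP := by
    have : Integrable (fun p : ℝ × ℝ => s p.1 * s p.2 * γ (p.1 - p.2)) (cP.prod cP) := by
      refine Integrable.of_bound (by fun_prop) (S * S * B) (Eventually.of_forall fun p => ?_)
      rw [Real.norm_eq_abs, abs_mul, abs_mul]
      exact mul_le_mul (mul_le_mul (hsb _) (hsb _) (abs_nonneg _) hS0) (hB _) (abs_nonneg _)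
        (by positivity)
    exact this.integral_prod_left
  have h3 : ∀ x, ∫ y, K' x y ∂cP = γ 0 - s x * γ x - (∫ y, s y * γ y ∂cP) +
      ∫ y, s x * s y * γ (x - y) ∂cP := by
    intro x
    simp only [hK']
    have j1 : Integrable (fun y => γ 0 - s x * γ x - s y * γ y) cP := (integrable_const _).sub i1
    rw [integral_add j1 (i2 x), integral_sub (integrable_const _) i1]
    simp
  simp_rw [h3] at h2
  have j2 : Integrable (fun x => γ 0 - s x * γ x) cP := (integrable_const _).sub i1
  have j3 : Integrable (fun x => γ 0 - s x * γ x - ∫ y, s y * γ y ∂cP) cP :=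
    j2.sub (integrable_const _)
  rw [integral_add j3 i3, integral_sub j2 (integrable_const _),
    integral_sub (integrable_const _) i1] at h2
  simp only [integral_const, probReal_univ, one_smul] at h2
  have h4 : ∫ y, s y * γ y ∂cP = ∫ x, τ x * γ x := by
    rw [cP_integral]
    congr 1
    ext x
    rw [← mul_assoc, hsp]
  have h5 : ∫ x, ∫ y, s x * s y * γ (x - y) ∂cP ∂cP = ∫ x, ∫ y, τ x * τ y * γ (x - y) := by
    rw [cP_integral]
    congr 1
    ext x
    rw [cP_integral, ← integral_const_mul]
    congr 1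
    ext y
    calc cd x * (cd y * (s x * s y * γ (x - y))) = (cd x * s x) * (cd y * s y) * γ (x - y) := by ring
      _ = _ := by rw [hsp, hsp]
  rw [h4, h5] at h2
  linarith

/-- the self-convolution of a cosine transform -/
theorem conv_cF {θ τ : ℝ → ℝ} (hθ : Continuous θ) (hi : Integrable θ) (he : ∀ x, θ (-x) = θ x)
    (hτd : τ = cF θ) (hτi : Integrable τ) (z : ℝ) :
    ∫ y, τ y * τ (z - y) = cF (fun α => θ α ^ 2) z := by
  have hτe : ∀ x, τ (-x) = τ x := by
    intro x
    rw [hτd]
    unfold cF
    congr 1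
    ext α
    rw [show 2 * Real.pi * -x * α = -(2 * Real.pi * x * α) by ring, Real.cos_neg]
  have h1 : ∀ y, τ y * τ (z - y) = ∫ α, τ y * (θ α * Real.cos (2 * Real.pi * (z - y) * α)) := by
    intro y
    rw [integral_const_mul]
    congr 1
    rw [hτd]
    rfl
  simp_rw [h1]
  have hp : Integrable (fun p : ℝ × ℝ => τ p.1 * (θ p.2 * Real.cos (2 * Real.pi * (z - p.1) * p.2)))
      (volume.prod volume) := by
    have h2 : Integrable (fun p : ℝ × ℝ => τ p.1 * θ p.2) (volume.prod volume) := hτi.mul_prod hi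
    have h3 := h2.mul_bdd (c := 1) (g := fun p : ℝ × ℝ => Real.cos (2 * Real.pi * (z - p.1) * p.2))
      (by fun_prop) (Eventually.of_forall fun p => by
        rw [Real.norm_eq_abs]; exact Real.abs_cos_le_one _)
    refine h3.congr (Eventually.of_forall fun p => ?_)
    simp only
    ring
  rw [integral_integral_swap hp]
  unfold cF
  congr 1
  ext α
  have h4 : ∀ y, τ y * (θ α * Real.cos (2 * Real.pi * (z - y) * α)) =
      θ α * Real.cos (2 * Real.pi * z * α) * (τ y * Real.cos (2 * Real.pi * α * y)) +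
      θ α * Real.sin (2 * Real.pi * z * α) * (τ y * Real.sin (2 * Real.pi * α * y)) := by
    intro y
    rw [show 2 * Real.pi * (z - y) * α = 2 * Real.pi * z * α - 2 * Real.pi * α * y by ring,
      Real.cos_sub]
    ring
  simp_rw [h4]
  have i1 : Integrable (fun y => τ y * Real.cos (2 * Real.pi * α * y)) :=
    hτi.mul_bdd (c := 1) (by fun_prop) (Eventually.of_forall fun α => by
      rw [Real.norm_eq_abs]; exact Real.abs_cos_le_one _)
  have i2 : Integrable (fun y => τ y * Real.sin (2 * Real.pi * α * y)) :=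
    hτi.mul_bdd (c := 1) (by fun_prop) (Eventually.of_forall fun α => by
      rw [Real.norm_eq_abs]; exact Real.abs_sin_le_one _)
  rw [integral_add (i1.const_mul _) (i2.const_mul _), integral_const_mul, integral_const_mul]
  have e2 : ∫ y, τ y * Real.sin (2 * Real.pi * α * y) = 0 := by
    have h1 := integral_neg_eq_self (fun y => τ y * Real.sin (2 * Real.pi * α * y)) volume
    have h2 : ∫ y, τ (-y) * Real.sin (2 * Real.pi * α * -y) =
        -∫ y, τ y * Real.sin (2 * Real.pi * α * y) := by
      rw [← integral_neg]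
      congr 1
      ext y
      rw [hτe, mul_neg, Real.sin_neg, mul_neg]
    linarith
  have e3 : ∫ y, τ y * Real.cos (2 * Real.pi * α * y) = θ α := by
    have := cF_inv hθ hi he (hτd ▸ hτi) α
    rw [← hτd] at this
    exact this
  rw [e2, e3]
  ring

/-- the double integral is a single one -/
theorem double_int {γ τ : ℝ → ℝ} (hγ : Continuous γ) {B : ℝ} (hB : ∀ x, |γ x| ≤ B)
    (hτi : Integrable τ) (hτe : ∀ x, τ (-x) = τ x) :
    ∫ x, ∫ y, τ x * τ y * γ (x - y) = ∫ z, (∫ y, τ y * τ (z - y)) * γ z := by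
  have hp : Integrable (fun p : ℝ × ℝ => τ p.1 * τ p.2 * γ (p.1 + p.2)) (volume.prod volume) := by
    have h2 : Integrable (fun p : ℝ × ℝ => τ p.1 * τ p.2) (volume.prod volume) := hτi.mul_prod hτi
    exact h2.mul_bdd (c := B) (g := fun p : ℝ × ℝ => γ (p.1 + p.2))
      (by fun_prop) (Eventually.of_forall fun p => hB _)
  have h1 : ∀ x, ∫ y, τ x * τ y * γ (x - y) = ∫ y, τ x * τ y * γ (x + y) := by
    intro x
    have h2 := integral_neg_eq_self (fun y => τ x * τ y * γ (x + y)) volume
    rw [← h2]
    congr 1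
    ext y
    rw [hτe, sub_eq_add_neg]
  simp_rw [h1]
  rw [integral_integral_swap hp]
  have h3 : ∀ y, ∫ x, τ x * τ y * γ (x + y) = ∫ z, τ y * τ (z - y) * γ z := by
    intro y
    have h4 := integral_sub_right_eq_self (μ := volume) (fun x => τ x * τ y * γ (x + y)) y
    rw [← h4]
    congr 1
    ext z
    rw [sub_add_cancel]
    ring
  simp_rw [h3]
  have hq : Integrable (fun p : ℝ × ℝ => τ p.1 * τ (p.2 - p.1) * γ p.2) (volume.prod volume) := by
    have h5 : Integrable (fun p : ℝ × ℝ => (τ p.2) • τ (p.1 - p.2)) (volume.prod volume) :=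
      Integrable.convolution_integrand (ContinuousLinearMap.lsmul ℝ ℝ) hτi hτi
    have h6 := h5.swap
    have h7 := h6.mul_bdd (c := B) (g := fun p : ℝ × ℝ => γ p.2) (by fun_prop)
      (Eventually.of_forall fun p => hB _)
    exact h7
  rw [integral_integral_swap hq]
  congr 1
  ext z
  rw [integral_mul_const]

end Pool.Agent.H34.DR
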