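import Pool.Agent.H34.DR.Tail

/-!
# From the numbers of pairs in the cells to test functions
-/

open Finset Filter Topology MeasureTheory

namespace Pool.Agent.H34.DR

/-- families of finite sets of points whose pairs have a density -/
structure Sys {ι : Type*} (l : Filter ι) (ρ : ℝ → ℝ) where
  X : ι → Finset ℕ
  y : ι → ℕ → ℝ
  M : ι → ℝ
  Mpos : ∀ᶠ i in l, 0 < M i
  card : ∀ᶠ i in l, ((X i).card : ℝ) ≤ 2 * M i
  cells : ∀ a b : ℝ, a < b → Tendsto (fun i => (((X i).offDiag.filter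
    (fun z => y i z.1 - y i z.2 ∈ Set.Icc a b)).card : ℝ) / M i) l (𝓝 (∫ x in a..b, ρ x))

namespace Sys

variable {ι : Type*} {l : Filter ι} {ρ : ℝ → ℝ} (S : Sys l ρ)

/-- the difference -/
noncomputable def v (i : ι) (z : ℕ × ℕ) : ℝ := S.y i z.1 - S.y i z.2

/-- the pairs with a difference in `(a, b]` -/
noncomputable def P (i : ι) (a b : ℝ) : Finset (ℕ × ℕ) :=
  (S.X i).offDiag.filter (fun z => S.v i z ∈ Set.Ioc a b)

theorem half (hρ : Continuous ρ) (a b : ℝ) (hab : a < b) :
    Tendsto (fun i => ((S.P i a b).card : ℝ) / S.M i) l (𝓝 (∫ x in a..b, ρ x)) := by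
  have h1 := S.cells (a - 1) b (by linarith)
  have h2 := S.cells (a - 1) a (by linarith)
  have h3 := h1.sub h2
  have e : (∫ x in (a - 1)..b, ρ x) - ∫ x in (a - 1)..a, ρ x = ∫ x in a..b, ρ x := by
    rw [sub_eq_iff_eq_add, add_comm]
    exact (intervalIntegral.integral_add_adjacent_intervals (hρ.intervalIntegrable _ _)
      (hρ.intervalIntegrable _ _)).symm
  rw [e] at h3
  refine h3.congr fun i => ?_
  rw [← sub_div]
  congr 1
  have h4 : (S.X i).offDiag.filter (fun z => S.y i z.1 - S.y i z.2 ∈ Set.Icc (a - 1) b) =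
      (S.X i).offDiag.filter (fun z => S.y i z.1 - S.y i z.2 ∈ Set.Icc (a - 1) a) ∪ S.P i a b := by
    ext z
    unfold P v
    simp only [mem_filter, mem_union, Set.mem_Icc, Set.mem_Ioc]
    constructor
    · rintro ⟨h5, h6, h7⟩
      rcases le_or_gt (S.y i z.1 - S.y i z.2) a with h8 | h8
      · exact Or.inl ⟨h5, h6, h8⟩
      · exact Or.inr ⟨h5, h8, h7⟩
    · rintro (⟨h5, h6, h7⟩ | ⟨h5, h6, h7⟩)
      · exact ⟨h5, h6, by linarith⟩
      · exact ⟨h5, by linarith, h7⟩
  have h5 : Disjoint ((S.X i).offDiag.filter (fun z => S.y i z.1 - S.y i z.2 ∈ Set.Icc (a - 1) a))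
      (S.P i a b) := by
    rw [disjoint_left]
    intro z hz1 hz2
    unfold P v at hz2
    have h6 := (mem_filter.mp hz1).2.2
    have h7 := (mem_filter.mp hz2).2.1
    linarith
  rw [h4, card_union_of_disjoint h5]
  push_cast
  ring

/-- approximation on an interval -/
def App (k : ℝ → ℝ) (ε p q : ℝ) : Prop :=
  ∀ᶠ i in l, |∑ z ∈ S.P i p q, k (S.v i z) - S.M i * ∫ x in p..q, k x * ρ x| ≤ ε * (q - p) * S.M i

theorem app_add {k : ℝ → ℝ} (hk : Continuous k) (hρ : Continuous ρ) {ε p q r : ℝ} (hpq : p ≤ q)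
    (hqr : q ≤ r) (h1 : S.App k ε p q) (h2 : S.App k ε q r) : S.App k ε p r := by
  unfold App at *
  filter_upwards [h1, h2] with i h3 h4
  have h5 : S.P i p r = S.P i p q ∪ S.P i q r := by
    ext z
    unfold P
    simp only [mem_filter, mem_union, Set.mem_Ioc]
    constructor
    · rintro ⟨h5, h6, h7⟩
      rcases le_or_gt (S.v i z) q with h8 | h8
      · exact Or.inl ⟨h5, h6, h8⟩
      · exact Or.inr ⟨h5, h8, h7⟩
    · rintro (⟨h5, h6, h7⟩ | ⟨h5, h6, h7⟩)
      · exact ⟨h5, h6, by linarith⟩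
      · exact ⟨h5, by linarith, h7⟩
  have h6 : Disjoint (S.P i p q) (S.P i q r) := by
    rw [disjoint_left]
    intro z hz1 hz2
    have h6 := (mem_filter.mp hz1).2.2
    have h7 := (mem_filter.mp hz2).2.1
    linarith
  have hi : ∀ a b, IntervalIntegrable (fun x => k x * ρ x) volume a b := fun a b =>
    (hk.mul hρ).intervalIntegrable _ _
  rw [h5, sum_union h6, ← intervalIntegral.integral_add_adjacent_intervals (hi p q) (hi q r)]
  have h7 : ∑ z ∈ S.P i p q, k (S.v i z) + ∑ z ∈ S.P i q r, k (S.v i z) -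
      S.M i * ((∫ x in p..q, k x * ρ x) + ∫ x in q..r, k x * ρ x) =
      (∑ z ∈ S.P i p q, k (S.v i z) - S.M i * ∫ x in p..q, k x * ρ x) +
      (∑ z ∈ S.P i q r, k (S.v i z) - S.M i * ∫ x in q..r, k x * ρ x) := by ring
  rw [h7]
  refine (abs_add_le _ _).trans ?_
  have : ε * (r - p) * S.M i = ε * (q - p) * S.M i + ε * (r - q) * S.M i := by ring
  linarith

/-- the approximation on a short interval -/
theorem app_short {k : ℝ → ℝ} (hk : Continuous k) (hρ : Continuous ρ) (hρ0 : ∀ x, 0 ≤ ρ x)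
    (hρ1 : ∀ x, ρ x ≤ 1) {ε p q : ℝ} (hε : 0 < ε) (hpq : p < q)
    (hosc : ∀ x ∈ Set.Icc p q, |k x - k p| ≤ ε) : S.App k (4 * ε) p q := by
  have h0 := S.half hρ p q hpq
  have hI1 : ∫ x in p..q, ρ x ≤ q - p := by
    calc ∫ x in p..q, ρ x ≤ ∫ _ in p..q, (1 : ℝ) :=
          intervalIntegral.integral_mono_on hpq.le (hρ.intervalIntegrable _ _)
            intervalIntegrable_const (fun x _ => hρ1 x)
      _ = q - p := by simp
  have hI0 : 0 ≤ ∫ x in p..q, ρ x := intervalIntegral.integral_nonneg hpq.le (fun x _ => hρ0 x)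
  set I : ℝ := ∫ x in p..q, ρ x with hI
  set η : ℝ := min (q - p) (ε * (q - p) / (|k p| + 1)) with hη
  have hqp : 0 < q - p := by linarith
  have hη0 : 0 < η := lt_min hqp (by positivity)
  have hη1 : η ≤ q - p := min_le_left _ _
  have hη2 : |k p| * η ≤ ε * (q - p) := by
    have h1 : η ≤ ε * (q - p) / (|k p| + 1) := min_le_right _ _
    rw [le_div_iff₀ (by positivity)] at h1
    nlinarith [abs_nonneg (k p)]
  have h1 := (Metric.tendsto_nhds.mp h0) η hη0
  unfold App
  filter_upwards [h1, S.Mpos] with i h2 hM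
  rw [Real.dist_eq] at h2
  have h3 : |((S.P i p q).card : ℝ) - S.M i * I| ≤ η * S.M i := by
    have e : ((S.P i p q).card : ℝ) - S.M i * I = (((S.P i p q).card : ℝ) / S.M i - I) * S.M i := by
      field_simp
    rw [e, abs_mul, abs_of_pos hM]
    exact mul_le_mul_of_nonneg_right h2.le hM.le
  have h4 : ((S.P i p q).card : ℝ) ≤ 2 * (q - p) * S.M i := by
    have h5 := (abs_le.mp h3).2
    nlinarith
  have h5 : |∑ z ∈ S.P i p q, (k (S.v i z) - k p)| ≤ 2 * (q - p) * S.M i * ε := by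
    refine (abs_sum_le_sum_abs _ _).trans ?_
    calc ∑ z ∈ S.P i p q, |k (S.v i z) - k p| ≤ ∑ z ∈ S.P i p q, ε := by
          apply sum_le_sum
          intro z hz
          have := (mem_filter.mp hz).2
          exact hosc _ ⟨this.1.le, this.2⟩
      _ = ((S.P i p q).card : ℝ) * ε := by rw [sum_const, nsmul_eq_mul]
      _ ≤ _ := mul_le_mul_of_nonneg_right h4 hε.le
  have h6 : |(∫ x in p..q, k x * ρ x) - k p * I| ≤ ε * (q - p) := by
    have hi : IntervalIntegrable (fun x => k x * ρ x) volume p q :=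
      (hk.mul hρ).intervalIntegrable _ _
    have hi' : IntervalIntegrable (fun x => k p * ρ x) volume p q :=
      (continuous_const.mul hρ).intervalIntegrable _ _
    rw [hI, ← intervalIntegral.integral_const_mul, ← intervalIntegral.integral_sub hi hi']
    have h7 := intervalIntegral.norm_integral_le_of_norm_le_const (a := p) (b := q)
      (f := fun x => k x * ρ x - k p * ρ x) (C := ε) (by
        intro x hx
        rw [Set.uIoc_of_le hpq.le] at hx
        rw [← sub_mul, Real.norm_eq_abs, abs_mul, abs_of_nonneg (hρ0 x)]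
        have h8 := hosc x ⟨hx.1.le, hx.2⟩
        calc |k x - k p| * ρ x ≤ ε * 1 := mul_le_mul h8 (hρ1 x) (hρ0 x) hε.le
          _ = ε := mul_one _)
    rw [abs_of_pos hqp] at h7
    exact h7
  have h7 : ∑ z ∈ S.P i p q, k (S.v i z) - S.M i * ∫ x in p..q, k x * ρ x =
      ∑ z ∈ S.P i p q, (k (S.v i z) - k p) + k p * (((S.P i p q).card : ℝ) - S.M i * I) -
        S.M i * ((∫ x in p..q, k x * ρ x) - k p * I) := by
    rw [sum_sub_distrib, sum_const, nsmul_eq_mul]
    ring
  rw [h7]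
  have h8 : |k p * (((S.P i p q).card : ℝ) - S.M i * I)| ≤ ε * (q - p) * S.M i := by
    rw [abs_mul]
    calc |k p| * |((S.P i p q).card : ℝ) - S.M i * I| ≤ |k p| * (η * S.M i) :=
          mul_le_mul_of_nonneg_left h3 (abs_nonneg _)
      _ = |k p| * η * S.M i := by ring
      _ ≤ _ := mul_le_mul_of_nonneg_right hη2 hM.le
  have h9 : |S.M i * ((∫ x in p..q, k x * ρ x) - k p * I)| ≤ ε * (q - p) * S.M i := by
    rw [abs_mul, abs_of_pos hM, mul_comm]
    exact mul_le_mul_of_nonneg_right h6 hM.le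
  have h10 := abs_sub (∑ z ∈ S.P i p q, (k (S.v i z) - k p) +
    k p * (((S.P i p q).card : ℝ) - S.M i * I)) (S.M i * ((∫ x in p..q, k x * ρ x) - k p * I))
  have h11 := abs_add_le (∑ z ∈ S.P i p q, (k (S.v i z) - k p))
    (k p * (((S.P i p q).card : ℝ) - S.M i * I))
  linarith

theorem app_refl {k : ℝ → ℝ} {ε p : ℝ} : S.App k ε p p := by
  unfold App
  filter_upwards with i
  have : S.P i p p = ∅ := by
    unfold P
    apply filter_eq_empty_iff.mpr
    intro z _ hz
    have := hz.1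
    have := hz.2
    linarith
  rw [this]
  simp

theorem app_long {k : ℝ → ℝ} (hk : Continuous k) (hρ : Continuous ρ) (hρ0 : ∀ x, 0 ≤ ρ x)
    (hρ1 : ∀ x, ρ x ≤ 1) {ε p q : ℝ} (hε : 0 < ε) (hpq : p < q) : S.App k (4 * ε) p q := by
  have h1 : UniformContinuousOn k (Set.Icc p q) :=
    isCompact_Icc.uniformContinuousOn_of_continuous hk.continuousOn
  rw [Metric.uniformContinuousOn_iff_le] at h1
  obtain ⟨δ, hδ, h1⟩ := h1 ε hε
  obtain ⟨K, hK⟩ := exists_nat_gt ((q - p) / δ)
  have hqp : 0 < q - p := by linarith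
  have hK0 : (0 : ℝ) < K := lt_of_le_of_lt (by positivity) hK
  set h : ℝ := (q - p) / K with hh
  have hh0 : 0 < h := by positivity
  have hhδ : h ≤ δ := by
    rw [hh, div_le_iff₀ hK0]
    rw [div_lt_iff₀ hδ] at hK
    linarith
  have hKh : (K : ℝ) * h = q - p := by
    rw [hh]
    field_simp
  have key : ∀ n : ℕ, n ≤ K → S.App k (4 * ε) p (p + n * h) := by
    intro n
    induction n with
    | zero =>
      intro _
      simp only [Nat.cast_zero, zero_mul, add_zero]
      exact S.app_refl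
    | succ n ih =>
      intro hn
      have h2 := ih (by omega)
      have hn0 : (0 : ℝ) ≤ n := Nat.cast_nonneg n
      have hnK : ((n + 1 : ℕ) : ℝ) ≤ K := by exact_mod_cast hn
      push_cast at hnK
      have h4 : p + n * h < p + (n + 1 : ℕ) * h := by
        push_cast
        nlinarith
      have h5 : p + (n + 1 : ℕ) * h ≤ q := by
        push_cast
        nlinarith
      have h6 : p ≤ p + n * h := by nlinarith
      refine S.app_add hk hρ h6 h4.le h2 (S.app_short hk hρ hρ0 hρ1 hε h4 ?_)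
      intro x hx
      have h7 := h1 x ⟨by linarith [hx.1], by linarith [hx.2]⟩ (p + n * h) ⟨h6, by linarith⟩ (by
        rw [Real.dist_eq, abs_of_nonneg (by linarith [hx.1])]
        have := hx.2
        push_cast at this
        nlinarith)
      rwa [Real.dist_eq] at h7
  have h2 := key K le_rfl
  rwa [hKh, show p + (q - p) = q by ring] at h2

/-- test functions on an interval -/
theorem test_Ioc {k : ℝ → ℝ} (hk : Continuous k) (hρ : Continuous ρ) (hρ0 : ∀ x, 0 ≤ ρ x)
    (hρ1 : ∀ x, ρ x ≤ 1) {p q : ℝ} (hpq : p < q) {ε : ℝ} (hε : 0 < ε) :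
    ∀ᶠ i in l, |∑ z ∈ S.P i p q, k (S.v i z) - S.M i * ∫ x in p..q, k x * ρ x| ≤ ε * S.M i := by
  have hqp : 0 < q - p := by linarith
  have h1 := S.app_long hk hρ hρ0 hρ1 (ε := ε / (4 * (q - p))) (by positivity) hpq
  unfold App at h1
  filter_upwards [h1] with i h2
  refine h2.trans (le_of_eq ?_)
  field_simp

/-- test functions on the line, with weights -/
theorem test_tendsto {k : ℝ → ℝ} (hk : Continuous k) (hρ : Continuous ρ) (hρ0 : ∀ x, 0 ≤ ρ x)
    (hρ1 : ∀ x, ρ x ≤ 1) {C : ℝ} (hC : ∀ x, |k x| ≤ C / (1 + x ^ 2)) (w : ι → ℕ × ℕ → ℝ)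
    (hw0 : ∀ i z, 0 ≤ w i z) (hw1 : ∀ i z, w i z ≤ 1)
    (hw : ∀ R ε : ℝ, 0 < ε → ∀ᶠ i in l, ∀ z ∈ (S.X i).offDiag, |S.v i z| ≤ R → 1 - ε ≤ w i z) :
    Tendsto (fun i => (∑ z ∈ (S.X i).offDiag, w i z * k (S.v i z)) / S.M i) l
      (𝓝 (∫ x, k x * ρ x)) := by
  classical
  have hC0 : 0 ≤ C := by
    have := (abs_nonneg _).trans (hC 0)
    simpa using this
  have hkC : ∀ x, |k x| ≤ C := fun x => (hC x).trans (by
    rw [div_le_iff₀ (by positivity)]
    nlinarith [sq_nonneg x])
  -- integrability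
  have hint : Integrable (fun x => k x * ρ x) := by
    have h1 : Integrable (fun x : ℝ => C * (1 + x ^ 2)⁻¹) := integrable_inv_one_add_sq.const_mul C
    refine h1.mono' (hk.mul hρ).aestronglyMeasurable (Eventually.of_forall fun x => ?_)
    rw [Real.norm_eq_abs, abs_mul, abs_of_nonneg (hρ0 x)]
    calc |k x| * ρ x ≤ |k x| * 1 := mul_le_mul_of_nonneg_left (hρ1 x) (abs_nonneg _)
      _ = |k x| := mul_one _
      _ ≤ C * (1 + x ^ 2)⁻¹ := hC x
  rw [Metric.tendsto_nhds]
  intro ε hε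
  -- the choice of the cut
  have hcut : Tendsto (fun N : ℕ => ∫ x in (-((N : ℝ) + 3))..((N : ℝ) + 3), k x * ρ x) atTop
      (𝓝 (∫ x, k x * ρ x)) := by
    apply intervalIntegral_tendsto_integral hint
    · apply tendsto_neg_atTop_atBot.comp
      exact tendsto_atTop_add_const_right _ _ tendsto_natCast_atTop_atTop
    · exact tendsto_atTop_add_const_right _ _ tendsto_natCast_atTop_atTop
  have h1 := (Metric.tendsto_nhds.mp hcut) (ε / 8) (by positivity)
  obtain ⟨N, hN1, hN2, hN3⟩ := (h1.and ((eventually_ge_atTop 1).and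
    (tendsto_natCast_atTop_atTop.eventually (eventually_ge_atTop (160 * (C + 1) / ε))))).exists
  have hNr : (1 : ℝ) ≤ N := by exact_mod_cast hN2
  set R : ℝ := (N : ℝ) + 3 with hR
  have hR0 : 0 < R := by linarith
  have h2 := S.test_Ioc hk hρ hρ0 hρ1 (p := -R) (q := R) (by linarith) (ε := ε / 8) (by positivity)
  have hI1 : ∀ a b : ℝ, a ≤ b → ∫ x in a..b, ρ x ≤ b - a := by
    intro a b hab
    calc ∫ x in a..b, ρ x ≤ ∫ _ in a..b, (1 : ℝ) :=
          intervalIntegral.integral_mono_on hab (hρ.intervalIntegrable _ _)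
            intervalIntegrable_const (fun x _ => hρ1 x)
      _ = b - a := by simp
  have h3 := (tendsto_order.mp (S.half hρ (-R) R (by linarith))).2 (2 * R + 1) (by
    have := hI1 (-R) R (by linarith)
    linarith)
  have h4 := (tendsto_order.mp (S.cells (-1) 1 (by norm_num))).2 3 (by
    have := hI1 (-1) 1 (by norm_num)
    linarith)
  set ε' : ℝ := ε / (8 * (C + 1) * (2 * R + 1)) with hε'
  have hε'0 : 0 < ε' := by positivity
  have h5 := hw R ε' hε'0
  filter_upwards [h2, h3, h4, h5, S.Mpos, S.card] with i a2 a3 a4 a5 hM a6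
  rw [div_lt_iff₀ hM] at a3 a4
  -- the splitting
  have hP : S.P i (-R) R ⊆ (S.X i).offDiag := filter_subset _ _
  have hsplit := sum_sdiff (f := fun z => w i z * k (S.v i z)) hP
  -- the tail
  have htail : |∑ z ∈ (S.X i).offDiag \ S.P i (-R) R, w i z * k (S.v i z)| ≤ ε / 8 * S.M i := by
    refine (abs_sum_le_sum_abs _ _).trans ?_
    have b1 : ∀ z ∈ (S.X i).offDiag \ S.P i (-R) R, z ∈ (S.X i).offDiag.filter
        (fun z => (N : ℝ) + 2 < |S.y i z.1 - S.y i z.2|) := by
      intro z hz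
      rw [Finset.mem_sdiff] at hz
      obtain ⟨hz1, hz2⟩ := hz
      rw [mem_filter]
      refine ⟨hz1, ?_⟩
      by_contra h6
      push Not at h6
      apply hz2
      unfold P
      rw [mem_filter]
      have h7 := abs_le.mp h6
      refine ⟨hz1, ?_, ?_⟩
      · unfold v
        linarith [h7.1]
      · unfold v
        linarith [h7.2]
    calc ∑ z ∈ (S.X i).offDiag \ S.P i (-R) R, |w i z * k (S.v i z)|
        ≤ ∑ z ∈ (S.X i).offDiag \ S.P i (-R) R, C * (1 / (S.y i z.1 - S.y i z.2) ^ 2) := by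
          apply sum_le_sum
          intro z hz
          have b2 := (mem_filter.mp (b1 z hz)).2
          rw [abs_mul, abs_of_nonneg (hw0 i z)]
          have b3 : 0 < (S.y i z.1 - S.y i z.2) ^ 2 := by
            rw [← sq_abs]
            have : 0 < |S.y i z.1 - S.y i z.2| := by linarith
            positivity
          calc w i z * |k (S.v i z)| ≤ 1 * |k (S.v i z)| :=
                mul_le_mul_of_nonneg_right (hw1 i z) (abs_nonneg _)
            _ = |k (S.v i z)| := one_mul _
            _ ≤ C / (1 + (S.v i z) ^ 2) := hC _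
            _ ≤ C / (S.y i z.1 - S.y i z.2) ^ 2 := by
                apply div_le_div_of_nonneg_left hC0 b3
                unfold v
                linarith
            _ = C * (1 / (S.y i z.1 - S.y i z.2) ^ 2) := by ring
      _ ≤ ∑ z ∈ (S.X i).offDiag.filter (fun z => (N : ℝ) + 2 < |S.y i z.1 - S.y i z.2|),
          C * (1 / (S.y i z.1 - S.y i z.2) ^ 2) := by
          apply sum_le_sum_of_subset_of_nonneg b1
          intro z _ _
          positivity
      _ = C * ∑ z ∈ (S.X i).offDiag.filter (fun z => (N : ℝ) + 2 < |S.y i z.1 - S.y i z.2|),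
          1 / (S.y i z.1 - S.y i z.2) ^ 2 := by rw [mul_sum]
      _ ≤ C * ((((S.X i).card : ℝ) + (((S.X i).offDiag.filter
          (fun z => S.y i z.1 - S.y i z.2 ∈ Set.Icc (-1) 1)).card : ℝ)) * (4 / N)) :=
          mul_le_mul_of_nonneg_left (tail_le (S.X i) (S.y i) N hN2) hC0
      _ ≤ C * ((2 * S.M i + 3 * S.M i) * (4 / N)) := by
          apply mul_le_mul_of_nonneg_left _ hC0
          apply mul_le_mul_of_nonneg_right _ (by positivity)
          linarith
      _ = 20 * C / N * S.M i := by ring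
      _ ≤ ε / 8 * S.M i := by
          apply mul_le_mul_of_nonneg_right _ hM.le
          rw [div_le_iff₀ (by positivity)]
          rw [div_le_iff₀ hε] at hN3
          nlinarith
  -- the weights
  have hwt : |∑ z ∈ S.P i (-R) R, w i z * k (S.v i z) - ∑ z ∈ S.P i (-R) R, k (S.v i z)| ≤
      ε / 8 * S.M i := by
    rw [← sum_sub_distrib]
    refine (abs_sum_le_sum_abs _ _).trans ?_
    calc ∑ z ∈ S.P i (-R) R, |w i z * k (S.v i z) - k (S.v i z)|
        ≤ ∑ z ∈ S.P i (-R) R, ε' * C := by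
          apply sum_le_sum
          intro z hz
          have b1 := (mem_filter.mp hz).2
          have b2 := a5 z (hP hz) (abs_le.mpr ⟨b1.1.le, b1.2⟩)
          have e : w i z * k (S.v i z) - k (S.v i z) = (w i z - 1) * k (S.v i z) := by ring
          rw [e, abs_mul]
          apply mul_le_mul _ (hkC _) (abs_nonneg _) hε'0.le
          rw [abs_le]
          constructor <;> linarith [hw1 i z]
      _ = ((S.P i (-R) R).card : ℝ) * (ε' * C) := by rw [sum_const, nsmul_eq_mul]
      _ ≤ (2 * R + 1) * S.M i * (ε' * C) := mul_le_mul_of_nonneg_right a3.le (by positivity)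
      _ = ε / 8 * (C / (C + 1)) * S.M i := by
          rw [hε']
          field_simp
      _ ≤ ε / 8 * 1 * S.M i := by
          apply mul_le_mul_of_nonneg_right _ hM.le
          apply mul_le_mul_of_nonneg_left _ (by positivity)
          rw [div_le_one (by positivity)]
          linarith
      _ = ε / 8 * S.M i := by ring
  rw [Real.dist_eq] at hN1
  have hI : |S.M i * (∫ x in (-R)..R, k x * ρ x) - S.M i * ∫ x, k x * ρ x| ≤ ε / 8 * S.M i := by
    rw [← mul_sub, abs_mul, abs_of_pos hM, mul_comm]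
    exact mul_le_mul_of_nonneg_right hN1.le hM.le
  have hfin : |∑ z ∈ (S.X i).offDiag, w i z * k (S.v i z) - S.M i * ∫ x, k x * ρ x| ≤
      ε / 2 * S.M i := by
    rw [← hsplit]
    have e : ∑ z ∈ (S.X i).offDiag \ S.P i (-R) R, w i z * k (S.v i z) +
        ∑ z ∈ S.P i (-R) R, w i z * k (S.v i z) - S.M i * ∫ x, k x * ρ x =
        ∑ z ∈ (S.X i).offDiag \ S.P i (-R) R, w i z * k (S.v i z) +
        ((∑ z ∈ S.P i (-R) R, w i z * k (S.v i z) - ∑ z ∈ S.P i (-R) R, k (S.v i z)) +
        ((∑ z ∈ S.P i (-R) R, k (S.v i z) - S.M i * ∫ x in (-R)..R, k x * ρ x) +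
        (S.M i * (∫ x in (-R)..R, k x * ρ x) - S.M i * ∫ x, k x * ρ x))) := by ring
    rw [e]
    refine (abs_add_le _ _).trans ?_
    have c1 := abs_add_le (∑ z ∈ S.P i (-R) R, w i z * k (S.v i z) - ∑ z ∈ S.P i (-R) R, k (S.v i z))
      ((∑ z ∈ S.P i (-R) R, k (S.v i z) - S.M i * ∫ x in (-R)..R, k x * ρ x) +
        (S.M i * (∫ x in (-R)..R, k x * ρ x) - S.M i * ∫ x, k x * ρ x))
    have c2 := abs_add_le (∑ z ∈ S.P i (-R) R, k (S.v i z) - S.M i * ∫ x in (-R)..R, k x * ρ x)
        (S.M i * (∫ x in (-R)..R, k x * ρ x) - S.M i * ∫ x, k x * ρ x)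
    linarith
  rw [Real.dist_eq]
  have e : (∑ z ∈ (S.X i).offDiag, w i z * k (S.v i z)) / S.M i - ∫ x, k x * ρ x =
      (∑ z ∈ (S.X i).offDiag, w i z * k (S.v i z) - S.M i * ∫ x, k x * ρ x) / S.M i := by
    field_simp
  rw [e, abs_div, abs_of_pos hM, div_lt_iff₀ hM]
  have : ε / 2 * S.M i < ε * S.M i := by nlinarith
  linarith

end Sys

end Pool.Agent.H34.DR
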