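import Pool.Agent.H34.DR.Mont
import Pool.Agent.H34.DR.Weak

/-!
# Pair densities of the zeros and Montgomery's theorem
-/

open Filter Topology MeasureTheory Set

namespace Pool.Agent.H34.DR

open SG (ord NZ)
open Pool.Agent.TH873.EW (ct XV)

/-- the pairs of zeros have the density `ρ` for `T → ∞` along the filter `l` -/
def PairDensity (l : Filter ℝ) (ρ : ℝ → ℝ) : Prop :=
  ∀ a b : ℝ, a < b → Tendsto (fun T : ℝ => ((AP T T a b).card : ℝ) / MM T) l
    (𝓝 (∫ x in a..b, ρ x))

theorem PairDensity.nonneg {l : Filter ℝ} [l.NeBot] (hl : l ≤ atTop) {ρ : ℝ → ℝ}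
    (hρ : Continuous ρ) (h : PairDensity l ρ) (x : ℝ) : 0 ≤ ρ x := by
  by_contra hx
  push Not at hx
  obtain ⟨δ, hδ, hball⟩ := Metric.isOpen_iff.mp (isOpen_lt hρ continuous_const) x hx
  have h1 : ∫ t in (x - δ / 2)..(x + δ / 2), ρ t < 0 := by
    have h2 : 0 < ∫ t in (x - δ / 2)..(x + δ / 2), -ρ t := by
      apply intervalIntegral.intervalIntegral_pos_of_pos_on
      · exact hρ.neg.intervalIntegrable _ _
      · intro t ht
        have : t ∈ Metric.ball x δ := by
          rw [Metric.mem_ball, Real.dist_eq, abs_lt]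
          constructor <;> linarith [ht.1, ht.2]
        have := hball this
        simp only [mem_ofPred_eq] at this
        linarith
      · linarith
    rw [intervalIntegral.integral_neg] at h2
    linarith
  have h2 : 0 ≤ ∫ t in (x - δ / 2)..(x + δ / 2), ρ t := by
    apply ge_of_tendsto (h (x - δ / 2) (x + δ / 2) (by linarith))
    filter_upwards [hl (eventually_ge_atTop 10)] with T hT
    have := MM_pos hT
    positivity
  linarith

/-- the system of all zeros up to `T` -/
noncomputable def zSys {l : Filter ℝ} (hl : l ≤ atTop) {ρ : ℝ → ℝ} {B : ℝ} (hB : 1 ≤ B)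
    (h : PairDensity l ρ) : Sys l (fun x => ρ x / B) where
  X := FT
  y := fun T n => ord n * L T
  M := fun T => B * MM T
  Mpos := by
    filter_upwards [hl (eventually_ge_atTop 10)] with V hV
    have := MM_pos hV
    positivity
  card := by
    have h1 := (tendsto_order.mp H19.HL.NZ_tendsto).2 2 (by norm_num)
    filter_upwards [hl h1, hl (eventually_ge_atTop 10)] with T h2 h3
    have h4 := MM_pos h3
    rw [FT_card]
    unfold MM at h4 ⊢
    rw [div_lt_iff₀ h4] at h2
    nlinarith
  cells := by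
    intro a b hab
    have h1 := (h a b hab).div_const B
    rw [← intervalIntegral.integral_div] at h1
    refine h1.congr fun T => ?_
    rw [div_div, mul_comm (MM T) B]
    congr 3
    unfold AP FT
    apply Finset.filter_congr
    intro z _
    rw [sub_mul]

/-- the values on the test functions -/
theorem values (hRH : RiemannHypothesis) {l : Filter ℝ} [l.NeBot] (hl : l ≤ atTop) {ρ : ℝ → ℝ}
    (hρ : Continuous ρ) {B : ℝ} (hB : 1 ≤ B) (hρ1 : ∀ x, ρ x ≤ B) (h : PairDensity l ρ) {f : ℝ → ℝ}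
    (hf : ContDiff ℝ 2 f) (h1 : f 1 = 0) {μ : ℝ} (hμ : 0 < μ) (hμ1 : μ < 1) :
    ∫ x, ct f (μ * x) * ρ x = f 0 / μ + 2 * μ * (∫ t in (0 : ℝ)..1, t * f t) - ct f 0 := by
  have hρ0 := h.nonneg hl hρ
  have hB0 : 0 < B := by linarith
  obtain ⟨C, hC0, hC⟩ := ct_decay2 hf h1
  have hk : Continuous (fun x => ct f (μ * x)) := by
    have h2 : (fun x => ct f (μ * x)) = fun x => μ⁻¹ * cF (EV μ f) x := by
      ext x
      rw [cF_EV hμ h1]
      field_simp
    rw [h2]
    exact continuous_const.mul (cF_cont (EV_int hμ hf.continuous h1))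
  have hkC : ∀ x, |ct f (μ * x)| ≤ (C / μ ^ 2) / (1 + x ^ 2) := by
    intro x
    refine (hC (μ * x)).trans ?_
    have h3 : μ ^ 2 * (1 + x ^ 2) ≤ 1 + (μ * x) ^ 2 := by nlinarith
    rw [div_div]
    exact div_le_div_of_nonneg_left hC0.le (by positivity) h3
  set S := zSys hl hB h with hS
  have hw : ∀ R ε : ℝ, 0 < ε → ∀ᶠ V : ℝ in l, ∀ z ∈ (S.X V).offDiag, |S.v V z| ≤ R →
      1 - ε ≤ ww z := by
    intro R ε hε
    have hL : Tendsto L atTop atTop := Real.tendsto_log_atTop.atTop_div_const (by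
      have := Real.pi_pos
      positivity)
    have hlim : Tendsto (fun V : ℝ => (R / L V) ^ 2 / 4) atTop (𝓝 ((0 : ℝ) ^ 2 / 4)) :=
      ((tendsto_const_nhds.div_atTop hL).pow 2).div_const 4
    rw [show ((0 : ℝ) ^ 2 / 4) = 0 by norm_num] at hlim
    filter_upwards [hl ((tendsto_order.mp hlim).2 ε hε), hl (eventually_ge_atTop 10)] with
      V h3 hV z hz hv
    have hLp := L_pos (show 1 < V by linarith)
    have e : S.v V z = (ord z.1 - ord z.2) * L V := by
      show ord z.1 * L V - ord z.2 * L V = _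
      ring
    rw [e, abs_mul, abs_of_pos hLp] at hv
    have h4 : |ord z.1 - ord z.2| ≤ R / L V := by
      rw [le_div_iff₀ hLp]
      exact hv
    have h5 : (ord z.1 - ord z.2) ^ 2 ≤ (R / L V) ^ 2 := by
      rw [← sq_abs]
      exact pow_le_pow_left₀ (abs_nonneg _) h4 2
    have h6 := Real.add_one_le_exp (-(ord z.1 - ord z.2) ^ 2 / 4)
    unfold ww
    linarith
  have hlim := S.test_tendsto hk (hρ.div_const B) (fun x => div_nonneg (hρ0 x) hB0.le)
    (fun x => (div_le_one hB0).mpr (hρ1 x)) hkC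
    (fun _ z => ww z) (fun _ z => (ww_pos z).le) (fun _ z => ww_le z) hw
  have hlim2 : Tendsto (fun V : ℝ => (∑ z ∈ (S.X V).offDiag,
      ww z * ct f (μ * S.v V z)) / S.M V) l
      (𝓝 ((f 0 / μ + 2 * μ * (∫ t in (0 : ℝ)..1, t * f t) - ct f 0 * 1) / B)) := by
    have m1 := (montgomery_full hRH hf h1 hμ hμ1).mono_left hl
    have m2 := (H19.HL.NZ_tendsto.mono_left hl).const_mul (ct f 0)
    refine ((m1.sub m2).div_const B).congr' ?_
    filter_upwards [hl (eventually_ge_atTop 10)] with T hT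
    have hM := MM_pos hT
    have e1 : GG (fun x => ct f (μ * x)) T = (NZ T : ℝ) * ct f 0 +
        ∑ z ∈ (S.X T).offDiag, ww z * ct f (μ * S.v T z) := by
      unfold GG
      rw [← Finset.diag_union_offDiag, Finset.sum_union (Finset.disjoint_diag_offDiag _)]
      congr 1
      · rw [Finset.sum_diag]
        simp [ww, FT_card]
      · apply Finset.sum_congr rfl
        intro z _
        congr 2
        show L T * (ord z.1 - ord z.2) = ord z.1 * L T - ord z.2 * L T
        ring
    rw [e1]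
    show _ = _ / (B * MM T)
    have e2 : T / (2 * Real.pi) * Real.log T = MM T := rfl
    rw [e2]
    field_simp
    ring
  have h3 := tendsto_nhds_unique hlim hlim2
  have h4 : ∫ x, ct f (μ * x) * (ρ x / B) = (∫ x, ct f (μ * x) * ρ x) / B := by
    rw [← integral_div]
    congr 1
    ext x
    ring
  rw [h4, mul_one] at h3
  exact (div_left_inj' hB0.ne').mp h3

/-- the identity for `g = 1 - ρ` -/
theorem star_id (hRH : RiemannHypothesis) {l : Filter ℝ} [l.NeBot] (hl : l ≤ atTop) {g : ℝ → ℝ}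
    (hg : Continuous g) {B : ℝ} (hB : ∀ x, |g x| ≤ B) (h : PairDensity l (fun x => 1 - g x))
    {f : ℝ → ℝ} (hf : ContDiff ℝ 2 f) (h1 : f 1 = 0) {μ : ℝ} (hμ : 0 < μ) (hμ1 : μ < 1) :
    ∫ x, cF (EV μ f) x * g x = LL (EV μ f) := by
  have hB0 : 0 ≤ B := (abs_nonneg _).trans (hB 0)
  have hv := values hRH hl (ρ := fun x => 1 - g x) (by fun_prop) (B := 1 + B) (by linarith)
    (fun x => by linarith [(abs_le.mp (hB x)).1]) h hf h1 hμ hμ1
  have hfc := hf.continuous
  obtain ⟨C, hC⟩ := cF_decay hf h1 hμ hμ1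
  have ci : Integrable (cF (EV μ f)) := int_of_decay (cF_cont (EV_int hμ hfc h1)) hC
  have gi : Integrable (fun x => cF (EV μ f) x * g x) :=
    ci.mul_bdd (c := B) hg.aestronglyMeasurable (Eventually.of_forall hB)
  have e1 : ∫ x, ct f (μ * x) * (1 - g x) = μ⁻¹ * ((∫ x, cF (EV μ f) x) -
      ∫ x, cF (EV μ f) x * g x) := by
    rw [← integral_sub ci gi, ← integral_const_mul]
    congr 1
    ext x
    rw [cF_EV hμ h1]
    field_simp
  have e2 : ∫ x, cF (EV μ f) x = f 0 := by
    have h2 := cF_inv (EV_cont hfc) (EV_int hμ hfc h1) (EV_even μ f) ci 0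
    unfold cF at h2
    simp only [mul_zero, zero_mul, Real.cos_zero, mul_one] at h2
    unfold cF
    rw [h2]
    unfold EV
    simp
  rw [e1, e2] at hv
  have e3 : LL (EV μ f) = 2 * μ * ((∫ t in (0 : ℝ)..1, f t) - μ * ∫ t in (0 : ℝ)..1, t * f t) := by
    unfold LL
    have h6 := EV_integral hμ (f := f) h1 (fun α => max (1 - α) 0)
    unfold lam
    rw [h6]
    congr 1
    rw [← intervalIntegral.integral_const_mul, ← intervalIntegral.integral_sub
      (hfc.intervalIntegrable _ _) ((by fun_prop : Continuous fun t : ℝ =>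
        μ * (t * f t)).intervalIntegrable _ _)]
    apply intervalIntegral.integral_congr
    intro t ht
    rw [uIcc_of_le zero_le_one] at ht
    simp only
    rw [max_eq_left (by nlinarith [ht.1, ht.2])]
    ring
  have e4 : ct f 0 = 2 * ∫ t in (0 : ℝ)..1, f t := by
    unfold ct
    simp
  rw [e4] at hv
  rw [e3]
  have h7 : f 0 - ∫ x, cF (EV μ f) x * g x = μ * (f 0 / μ + 2 * μ * (∫ t in (0 : ℝ)..1, t * f t) -
      2 * ∫ t in (0 : ℝ)..1, f t) := by
    rw [← hv]
    field_simp
  have h8 : μ * (f 0 / μ) = f 0 := by field_simp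
  linear_combination (-1 : ℝ) * h7 - h8

/-- **Pair level.** If `1 - ρ` is positive definite for the pair density `ρ`, then `ρ` is the one of
the sine kernel. -/
theorem pair_level (hRH : RiemannHypothesis) {l : Filter ℝ} [l.NeBot] (hl : l ≤ atTop) {g : ℝ → ℝ}
    (hg : Continuous g) (he : ∀ x, g (-x) = g x) (hP : PDr g)
    (h : PairDensity l (fun x => 1 - g x)) (u : ℝ) : g u = Real.sinc (Real.pi * u) ^ 2 := by
  have h0 : g 0 ≤ 1 := by
    have := h.nonneg hl (by fun_prop) 0
    linarith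
  have h1 := g_eq hg he hP h0 (fun f hf h1 μ hμ hμ1 =>
    star_id hRH hl hg (hP.bound he) h hf h1 hμ hμ1) u
  rw [h1, lam_eq, cF_EV one_pos (by norm_num), one_mul, one_mul, ct_tent]

end Pool.Agent.H34.DR
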