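import Pool.Graph.R_seed8.Y747.Blk
import Pool.Graph.R_pool_sql_team_seeded_620a6dc7.H707.NV.Asy
import Pool.Agent.H34.DR.Lim

/-!
# The pairs of zeros in the blocks
-/

open Filter Topology MeasureTheory Set

namespace Pool.Agent.H34.DR

open SG (ord NZ)
open Pool.Agent.TH873.EW (ct XV)
open Pool.Agent.Y747 (Bx mem_Bx blk_pair)
open Pool.Agent.H707.NV (cn cn_log)

/-- the scale -/
noncomputable def L (V : ℝ) : ℝ := Real.log V / (2 * Real.pi)

/-- the normaliser -/
noncomputable def MM (T : ℝ) : ℝ := T / (2 * Real.pi) * Real.log T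

/-- the pairs of indices up to `V` with a difference in `[a, b]`, with the scale of `W` -/
noncomputable def AP (V W a b : ℝ) : Finset (ℕ × ℕ) :=
  (Finset.Icc 1 (NZ V)).offDiag.filter (fun z => (ord z.1 - ord z.2) * L W ∈ Set.Icc a b)

/-- the pairs of indices of the block with a difference in `[a, b]` -/
noncomputable def BP (V a b : ℝ) : Finset (ℕ × ℕ) :=
  (Bx V).offDiag.filter (fun z => ord z.1 * L V - ord z.2 * L V ∈ Set.Icc a b)

/-- the indices near the edges -/
noncomputable def EI (V : ℝ) : Finset ℕ :=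
  Finset.Ioc (NZ (V - 2)) (NZ (V + 2)) ∪ Finset.Ioc (NZ (2 * V - 2)) (NZ (2 * V))

theorem mem_Icc_NZ {n : ℕ} {V : ℝ} : n ∈ Finset.Icc 1 (NZ V) ↔ 1 ≤ n ∧ ord n ≤ V := by
  rw [Finset.mem_Icc]
  constructor
  · rintro ⟨h1, h2⟩
    exact ⟨h1, (SG.ord_le_iff h1 V).mpr h2⟩
  · rintro ⟨h1, h2⟩
    exact ⟨h1, (SG.ord_le_iff h1 V).mp h2⟩

theorem mem_Ioc_NZ {n : ℕ} (hn : 1 ≤ n) {s t : ℝ} (h1 : s < ord n) (h2 : ord n ≤ t) :
    n ∈ Finset.Ioc (NZ s) (NZ t) := by
  rw [Finset.mem_Ioc]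
  refine ⟨?_, (SG.ord_le_iff hn t).mp h2⟩
  by_contra h
  push Not at h
  have := (SG.ord_le_iff hn s).mpr h
  linarith

theorem L_pos {V : ℝ} (hV : 1 < V) : 0 < L V := by
  unfold L
  have := Real.log_pos hV
  have := Real.pi_pos
  positivity

theorem L_two {V : ℝ} (hV : 1 < V) : L (2 * V) = L V + Real.log 2 / (2 * Real.pi) := by
  unfold L
  rw [Real.log_mul (by norm_num) (by linarith)]
  ring

theorem EI_card : ∃ C : ℝ, 0 < C ∧ ∀ V : ℝ, 10 ≤ V → ((EI V).card : ℝ) ≤ C * Real.log (2 * V) := by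
  classical
  obtain ⟨C, hC, h⟩ := cn_log
  refine ⟨6 * C, by positivity, fun V hV => ?_⟩
  have q : ∀ t : ℝ, V - 2 ≤ t → t ≤ 2 * (V - 2) → (NZ (t + 1) : ℝ) - NZ t ≤ C * Real.log (2 * V) := by
    intro t h1 h2
    have h3 := h (V - 2) (by linarith) 1 le_rfl t ⟨h1, h2⟩
    unfold cn at h3
    refine h3.trans (mul_le_mul_of_nonneg_left (Real.log_le_log (by linarith) (by linarith)) hC.le)
  have q' : ∀ t : ℝ, V ≤ t → t ≤ 2 * V → (NZ (t + 1) : ℝ) - NZ t ≤ C * Real.log (2 * V) := by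
    intro t h1 h2
    have h3 := h V (by linarith) 1 le_rfl t ⟨h1, h2⟩
    unfold cn at h3
    exact h3
  have a1 := q (V - 2) le_rfl (by linarith)
  have a2 := q (V - 1) (by linarith) (by linarith)
  have a3 := q V (by linarith) (by linarith)
  have a4 := q (V + 1) (by linarith) (by linarith)
  have a5 := q' (2 * V - 2) (by linarith) (by linarith)
  have a6 := q' (2 * V - 1) (by linarith) (by linarith)
  rw [show V - 2 + 1 = V - 1 by ring] at a1
  rw [show V - 1 + 1 = V by ring] at a2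
  rw [show V + 1 + 1 = V + 2 by ring] at a4
  rw [show 2 * V - 2 + 1 = 2 * V - 1 by ring] at a5
  rw [show 2 * V - 1 + 1 = 2 * V by ring] at a6
  unfold EI
  have h1 := Finset.card_union_le (Finset.Ioc (NZ (V - 2)) (NZ (V + 2)))
    (Finset.Ioc (NZ (2 * V - 2)) (NZ (2 * V)))
  rw [Nat.card_Ioc, Nat.card_Ioc] at h1
  have h2 : NZ (V - 2) ≤ NZ (V + 2) := SG.NZ_mono (by linarith)
  have h3 : NZ (2 * V - 2) ≤ NZ (2 * V) := SG.NZ_mono (by linarith)
  have h4 : (((Finset.Ioc (NZ (V - 2)) (NZ (V + 2))) ∪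
    (Finset.Ioc (NZ (2 * V - 2)) (NZ (2 * V)))).card : ℝ) ≤
      ((NZ (V + 2) : ℝ) - NZ (V - 2)) + ((NZ (2 * V) : ℝ) - NZ (2 * V - 2)) := by
    rw [← Nat.cast_sub h2, ← Nat.cast_sub h3]
    exact_mod_cast h1
  linarith

theorem XV_pos {V : ℝ} (hV : 10 ≤ V) : 0 < XV V := by
  unfold XV
  have := Real.log_pos (show 1 < V by linarith)
  have := Real.pi_pos
  have : 0 < V - 2 := by linarith
  positivity

theorem lim_ratio : Tendsto (fun V : ℝ => MM V / XV V) atTop (𝓝 1) := by
  have h1 : Tendsto (fun V : ℝ => 1 / (1 - 2 / V)) atTop (𝓝 (1 / (1 - 0))) := by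
    apply Tendsto.div tendsto_const_nhds _ (by norm_num)
    exact tendsto_const_nhds.sub (tendsto_const_nhds.div_atTop tendsto_id)
  rw [sub_zero, div_one] at h1
  refine h1.congr' ?_
  filter_upwards [eventually_ge_atTop 10] with V hV
  unfold MM XV
  have h2 := (Real.log_pos (show 1 < V by linarith)).ne'
  have h3 := Real.pi_pos.ne'
  have h4 : V - 2 ≠ 0 := by linarith
  have h5 : V ≠ 0 := by linarith
  have h6 : 1 - 2 / V ≠ 0 := by
    intro h
    rw [sub_eq_zero, eq_div_iff h5] at h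
    apply h4
    linarith
  field_simp

theorem lim_ratio2 : Tendsto (fun V : ℝ => MM (2 * V) / XV V) atTop (𝓝 2) := by
  have h1 : Tendsto (fun V : ℝ => 2 * (1 + Real.log 2 / Real.log V)) atTop (𝓝 (2 * (1 + 0))) := by
    apply Tendsto.const_mul
    exact tendsto_const_nhds.add (tendsto_const_nhds.div_atTop Real.tendsto_log_atTop)
  have h2 := h1.mul lim_ratio
  rw [show (2 * (1 + 0) * 1 : ℝ) = 2 by norm_num] at h2
  refine h2.congr' ?_
  filter_upwards [eventually_ge_atTop 10] with V hV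
  have h3 := (Real.log_pos (show 1 < V by linarith)).ne'
  have h4 := (XV_pos hV).ne'
  have h5 := Real.pi_pos.ne'
  unfold MM
  rw [Real.log_mul (by norm_num) (by linarith)]
  field_simp
  ring

theorem lim_edge : Tendsto (fun V : ℝ => (((EI V).card : ℝ) * (EI V).card) / XV V) atTop (𝓝 0) := by
  obtain ⟨C, hC, h⟩ := EI_card
  have h1 : Tendsto (fun V : ℝ => C ^ 2 * (Real.log (2 * V) ^ 2 / (2 * V)) * (2 * V / XV V)) atTop
      (𝓝 (C ^ 2 * 0 * 0)) := by
    have t1 : Tendsto (fun V : ℝ => Real.log (2 * V) ^ 2 / (2 * V)) atTop (𝓝 0) := by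
      have := (Real.isLittleO_pow_log_id_atTop (n := 2)).tendsto_div_nhds_zero
      exact this.comp (tendsto_id.const_mul_atTop (by norm_num : (0 : ℝ) < 2))
    have t2 : Tendsto (fun V : ℝ => 2 * V / XV V) atTop (𝓝 0) := by
      have t3 : Tendsto (fun V : ℝ => (4 * Real.pi) / Real.log V) atTop (𝓝 0) :=
        tendsto_const_nhds.div_atTop Real.tendsto_log_atTop
      have t4 := t3.mul lim_ratio
      rw [zero_mul] at t4
      refine t4.congr' ?_
      filter_upwards [eventually_ge_atTop 10] with V hV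
      have h3 := (Real.log_pos (show 1 < V by linarith)).ne'
      have h4 := (XV_pos hV).ne'
      have h5 := Real.pi_pos.ne'
      unfold MM
      field_simp
      norm_num
    exact (t1.const_mul _).mul t2
  rw [mul_zero] at h1
  apply squeeze_zero' _ _ h1
  · filter_upwards [eventually_ge_atTop 10] with V hV
    have := XV_pos hV
    positivity
  · filter_upwards [eventually_ge_atTop 10] with V hV
    have h2 := XV_pos hV
    have h3 := h V hV
    have h4 : ((EI V).card : ℝ) * (EI V).card ≤ (C * Real.log (2 * V)) ^ 2 := by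
      rw [sq]
      exact mul_le_mul h3 h3 (Nat.cast_nonneg _) (le_trans (Nat.cast_nonneg _) h3)
    have hV0 : V ≠ 0 := by linarith
    calc ((EI V).card : ℝ) * (EI V).card / XV V ≤ (C * Real.log (2 * V)) ^ 2 / XV V :=
          div_le_div_of_nonneg_right h4 h2.le
      _ = _ := by
          field_simp

end Pool.Agent.H34.DR
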